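import Pool.Agent.Hhelper92.Ortho.Pole

open Complex MeasureTheory Set Filter Topology
open scoped Real ComplexConjugate

namespace Pool.Agent.Hhelper92.Ortho

variable {c : ℕ → ℝ}

lemma Est_diff (hc : IsOrtho c) {z : ℂ} (hz : z.re < 9/5) : DifferentiableAt ℂ (Est c) z := by
  obtain ⟨K, hK0, hK⟩ := EE_decay hc
  exact (good_dec_conv (EE_good hc) hK hz).2

lemma Est_conv (hc : IsOrtho c) {z : ℂ} (hz : z.re < 9/5) : MellinConvergent (fun u => (EE c u : ℂ)) z := by
  obtain ⟨K, hK0, hK⟩ := EE_decay hc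
  exact (good_dec_conv (EE_good hc) hK hz).1

lemma A_tendsto (hc : IsOrtho c) {p d : ℂ} (hp : p.re < 9/5) (hG : HasDerivAt G d p) (h0 : G p = 0)
    (hd : d ≠ 0) :
    Tendsto (fun z => (z - p) * (Mt z * Est c z)) (𝓝[≠] p) (𝓝 (Nn p * Est c p / d)) := by
  have hE := (Est_diff hc hp).continuousAt
  have hN := (Nn_differentiableAt (z := p) (by linarith)).continuousAt
  have h1 := tendsto_simple_pole (N := fun z => Nn z * Est c z) (hN.mul hE) hG h0 hd
  have h2 : Tendsto (fun z => (z - p) * ((1 / (4 * (3 - z))) * Est c z)) (𝓝[≠] p) (𝓝 0) := by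
    have h3 : ContinuousAt (fun z => (z - p) * ((1 / (4 * (3 - z))) * Est c z)) p := by
      apply ContinuousAt.mul (by fun_prop)
      apply ContinuousAt.mul _ hE
      apply ContinuousAt.div (by fun_prop) (by fun_prop)
      exact mul_ne_zero (by norm_num) (three_sub_ne (by linarith))
    have h4 := h3.tendsto.mono_left (nhdsWithin_le_nhds (s := {p}ᶜ))
    rw [sub_self, zero_mul] at h4
    exact h4
  have h3 := h1.add h2
  rw [add_zero] at h3
  apply h3.congr
  intro z
  unfold Mt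
  ring

noncomputable def res1 (c : ℕ → ℝ) : ℂ := Nn rho * Est c rho / deriv G rho
noncomputable def res2 (c : ℕ → ℝ) : ℂ := Nn (conj rho) * Est c (conj rho) / conj (deriv G rho)

lemma rho_re_lt : rho.re < 17/10 := by have := rho_strict.2.1; norm_num at this ⊢; linarith
lemma rho_re_gt : 4/5 < rho.re := by have := rho_strict.1; norm_num at this ⊢; linarith

lemma conj_rho_ne : conj rho ≠ rho := by
  intro h
  have h1 := congrArg Complex.im h
  rw [conj_im] at h1
  have := rho_im_pos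
  linarith

lemma G_hasDerivAt_rho : HasDerivAt G (deriv G rho) rho :=
  (G_differentiableAt (by linarith [rho_re_lt])).hasDerivAt

lemma G_hasDerivAt_conj_rho : HasDerivAt G (conj (deriv G rho)) (conj rho) := by
  have h := G_hasDerivAt_rho.conj_conj
  refine h.congr_of_eventuallyEq (Eventually.of_forall fun z => ?_)
  simp only [Function.comp_apply]
  rw [G_conj, conj_conj]

lemma G_conj_rho : G (conj rho) = 0 := by rw [G_conj, G_rho, map_zero]

/-- the regular part -/
lemma exists_reg (hc : IsOrtho c) : ∃ B : ℂ → ℂ, (∀ z : ℂ, z.re < 17/10 → DifferentiableAt ℂ B z) ∧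
    ∀ z, z ≠ rho → z ≠ conj rho → B z = Mt z * Est c z + res1 c * (1 / (rho - z) - 1 / (3 - z))
      + res2 c * (1 / (conj rho - z) - 1 / (3 - z)) := by
  set U : Set ℂ := {z | z.re < 17/10} with hU
  have hUo : IsOpen U := isOpen_lt Complex.continuous_re continuous_const
  have hU1o : IsOpen (U \ {conj rho}) := hUo.sdiff isClosed_singleton
  have hr1 : rho ∈ U := rho_re_lt
  have hr2 : conj rho ∈ U := by rw [hU]; show (conj rho).re < 17/10; rw [conj_re]; exact rho_re_lt
  have hAd : ∀ z ∈ U, z ≠ rho → z ≠ conj rho → DifferentiableAt ℂ (fun z => Mt z * Est c z) z := by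
    intro z hz h1 h2
    have hz' : z.re < 17/10 := hz
    apply (Mt_differentiableAt (by linarith) _).mul (Est_diff hc (by linarith))
    intro h
    rw [G_zero_iff hz'.le] at h
    rcases h with h | h
    · exact h1 h
    · exact h2 h
  obtain ⟨φ1, hφ1, hφ1'⟩ := remove_pole (F := fun z => Mt z * Est c z) (p := rho) (r := res1 c) hU1o
    ⟨hr1, fun h => conj_rho_ne h.symm⟩ (fun z hz hzp => hAd z hz.1 hzp hz.2)
    (A_tendsto hc (by linarith [rho_re_lt]) G_hasDerivAt_rho G_rho G_deriv_ne)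
  have hd2 : conj (deriv G rho) ≠ 0 := by
    rw [Ne, map_eq_zero]; exact G_deriv_ne
  have h2 : Tendsto (fun z => (z - conj rho) * φ1 z) (𝓝[≠] (conj rho)) (𝓝 (res2 c)) := by
    have h3 := A_tendsto hc (p := conj rho) (by rw [conj_re]; linarith [rho_re_lt]) G_hasDerivAt_conj_rho G_conj_rho hd2
    have h4 : Tendsto (fun z => (z - conj rho) * (res1 c / (z - rho))) (𝓝[≠] (conj rho)) (𝓝 0) := by
      have h5 : ContinuousAt (fun z => (z - conj rho) * (res1 c / (z - rho))) (conj rho) := by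
        apply ContinuousAt.mul (by fun_prop)
        apply ContinuousAt.div (by fun_prop) (by fun_prop)
        exact sub_ne_zero.mpr conj_rho_ne
      have h6 := h5.tendsto.mono_left (nhdsWithin_le_nhds (s := {conj rho}ᶜ))
      rw [sub_self, zero_mul] at h6
      exact h6
    have h5 := h3.sub h4
    rw [sub_zero] at h5
    apply h5.congr'
    have h6 : ∀ᶠ z in 𝓝[≠] (conj rho), z ≠ rho :=
      mem_nhdsWithin_of_mem_nhds (isOpen_ne.mem_nhds conj_rho_ne)
    filter_upwards [h6] with z hz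
    rw [hφ1' z hz]
    ring
  obtain ⟨φ2, hφ2, hφ2'⟩ := remove_pole (F := φ1) (p := conj rho) (r := res2 c) hUo hr2
    (fun z hz hzp => hφ1 z ⟨hz, hzp⟩) h2
  refine ⟨fun z => φ2 z - (res1 c + res2 c) * (1 / (3 - z)), fun z hz => ?_, fun z h1 h2 => ?_⟩
  · apply (hφ2 z hz).sub
    apply DifferentiableAt.mul (by fun_prop)
    apply DifferentiableAt.div (by fun_prop) (by fun_prop)
    exact three_sub_ne (by linarith)
  · simp only
    rw [hφ2' z h2, hφ1' z h1]
    have e1 : (1:ℂ) / (rho - z) = - (1 / (z - rho)) := by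
      rw [← neg_sub z rho, one_div_neg_eq_neg_one_div]
    have e2 : (1:ℂ) / (conj rho - z) = - (1 / (z - conj rho)) := by
      rw [← neg_sub z (conj rho), one_div_neg_eq_neg_one_div]
    rw [e1, e2]
    ring

noncomputable def ww (c : ℕ → ℝ) (y : ℝ) : ℂ := (ff c y : ℂ) + res1 c * gk rho y + res2 c * gk (conj rho) y

lemma ww_mellin (hc : IsOrtho c) {z : ℂ} (hz : z.re < -2) :
    MellinConvergent (ww c) z ∧ mellin (ww c) z = Mt z * Est c z + res1 c * (1 / (rho - z) - 1 / (3 - z))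
      + res2 c * (1 / (conj rho - z) - 1 / (3 - z)) := by
  have h1 := ff_mellin hc hz
  have hr := rho_re_gt
  have h2 := gk_mellin (p := rho) (z := z) (by linarith) (by linarith)
  have h3 := gk_mellin (p := conj rho) (z := z) (by rw [conj_re]; linarith) (by linarith)
  have h4 := hasMellin_add h1.1 (h2.1.const_smul (res1 c))
  have h5 := hasMellin_add h4.1 (h3.1.const_smul (res2 c))
  have h6 : ww c = fun t => (ff c t : ℂ) + res1 c • gk rho t + res2 c • gk (conj rho) t := by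
    ext t; unfold ww; simp only [smul_eq_mul]
  rw [h6]
  refine ⟨h5.1, ?_⟩
  rw [h5.2, h4.2, mellin_const_smul, mellin_const_smul, h1.2, h2.2, h3.2, smul_eq_mul, smul_eq_mul]

lemma ww_continuousAt (hc : IsOrtho c) {y : ℝ} (hy : 0 < y) : ContinuousAt (ww c) y := by
  unfold ww
  apply ContinuousAt.add
  · apply ContinuousAt.add
    · exact (Complex.continuous_ofReal.continuousAt).comp (ff_continuousAt hc hy)
    · exact (gk_cont _).continuousAt.const_mul _
  · exact (gk_cont _).continuousAt.const_mul _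

theorem ww_bound (hc : IsOrtho c) {s : ℝ} (hs : s < 17/10) (hs3 : -3 ≤ s) :
    ∃ K, 0 ≤ K ∧ ∀ y, 0 < y → ‖ww c y‖ ≤ K * y^(-s) := by
  obtain ⟨B, hBd, hBeq⟩ := exists_reg hc
  obtain ⟨Eb, hEb0, hEb⟩ := mellin_bound (g := fun y => (EE c y : ℂ)) (a := -3) (b := s)
    (Est_conv hc (by simp; linarith)) (Est_conv hc (by simp; linarith))
  obtain ⟨C, hC0, hC⟩ : ∃ C', 0 ≤ C' ∧ ∀ z : ℂ, -3 ≤ z.re → z.re ≤ s → ‖B z‖ ≤ C' / (1 + z.im^2) := by
    apply strip_decay (T := 11 + 2 * |rho.im|)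
      (C := 100 * Eb + ‖res1 c‖ * (2 * ‖rho - 3‖) + ‖res2 c‖ * (2 * ‖conj rho - 3‖))
    · intro z h1 h2
      exact (hBd z (by linarith)).continuousAt
    · intro z h1 h2 h3
      have hab := abs_nonneg rho.im
      have hz1 : z ≠ rho := by
        intro h; rw [h] at h3; linarith
      have hz2 : z ≠ conj rho := by
        intro h; rw [h, conj_im, abs_neg] at h3; linarith
      rw [hBeq z hz1 hz2]
      have e1 := Mt_large (z := z) (by linarith) (by linarith)
      have e2 := hEb z h1 h2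
      have e3 := norm_inv_sub_inv_le (p := rho) (z := z) (T := 11 + 2 * |rho.im|) (by linarith) (by linarith) h3
      have e4 := norm_inv_sub_inv_le (p := conj rho) (z := z) (T := 11 + 2 * |rho.im|)
        (by rw [conj_im, abs_neg]; linarith) (by linarith) h3
      have him : 0 < z.im^2 := by
        rw [← sq_abs]
        have : 0 < |z.im| := by linarith
        positivity
      calc _ ≤ ‖Mt z * Est c z‖ + ‖res1 c * (1 / (rho - z) - 1 / (3 - z))‖ + ‖res2 c * (1 / (conj rho - z) - 1 / (3 - z))‖ :=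
            norm_add₃_le
        _ ≤ (100 / z.im^2) * Eb + ‖res1 c‖ * ((2 * ‖rho - 3‖) / z.im^2) + ‖res2 c‖ * ((2 * ‖conj rho - 3‖) / z.im^2) := by
            rw [norm_mul, norm_mul, norm_mul]
            apply add_le_add
            · apply add_le_add
              · exact mul_le_mul e1 e2 (norm_nonneg _) (by positivity)
              · exact mul_le_mul_of_nonneg_left e3 (norm_nonneg _)
            · exact mul_le_mul_of_nonneg_left e4 (norm_nonneg _)
        _ = _ := by ring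
    · have := abs_nonneg rho.im
      linarith
  refine ⟨C / 2, by positivity, fun y hy => ?_⟩
  have hr := rho_re_gt
  have hm : ∀ z : ℂ, z.re < -2 → mellin (ww c) z = B z := by
    intro z hz
    rw [(ww_mellin hc hz).2, hBeq]
    · intro h; rw [h] at hz; linarith
    · intro h; rw [h, conj_re] at hz; linarith
  have hm' : ∀ t : ℝ, mellin (ww c) (((-3:ℝ):ℂ) + t * I) = B (((-3:ℝ):ℂ) + t * I) := by
    intro t
    exact hm _ (by simp; norm_num)
  have hvi : VerticalIntegrable (mellin (ww c)) (-3) := by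
    unfold VerticalIntegrable
    simp_rw [hm']
    apply vert_integrable (h := B) (C := C)
    · intro z hz
      exact (hBd z (by linarith)).continuousAt
    · intro z hz
      exact hC z (by linarith) (by linarith)
  have key := mellinInv_mellin_eq (-3) (ww c) hy (ww_mellin hc (by norm_num)).1 hvi (ww_continuousAt hc hy)
  rw [← key]
  unfold mellinInv
  simp_rw [hm']
  have e2 : ∫ t : ℝ, (y:ℂ)^(-(((-3:ℝ):ℂ) + t * I)) • B (((-3:ℝ):ℂ) + t * I)
      = ∫ t : ℝ, (y:ℂ)^(-((s:ℂ) + t * I)) • B ((s:ℂ) + t * I) := by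
    obtain ⟨Y, hY0, hY⟩ : ∃ Y, 0 ≤ Y ∧ ∀ z : ℂ, -3 ≤ z.re → z.re ≤ s → ‖(y:ℂ)^(-z)‖ ≤ Y := by
      refine ⟨y^(3:ℝ) + y^(-s), by positivity, fun z hz1 hz2 => ?_⟩
      rw [norm_cpow_neg hy]
      have hp1 : 0 ≤ y^(3:ℝ) := by positivity
      have hp2 : 0 ≤ y^(-s) := by positivity
      rcases le_total 1 y with h | h
      · have : y^(-z.re) ≤ y^(3:ℝ) := Real.rpow_le_rpow_of_exponent_le h (by linarith)
        linarith
      · have : y^(-z.re) ≤ y^(-s) := Real.rpow_le_rpow_of_exponent_ge hy h (by linarith)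
        linarith
    apply vertical_shift (h := fun z => (y:ℂ)^(-z) • B z) (a := -3) (b := s) (C := Y * C) hs3
    · intro z hz1 hz2
      exact ((cpow_neg_differentiable hy) z).smul (hBd z (by linarith))
    · intro z hz1 hz2
      rw [norm_smul]
      calc _ ≤ Y * (C / (1 + z.im^2)) := by
            apply mul_le_mul (hY z hz1 hz2) (hC z hz1 hz2) (norm_nonneg _) hY0
        _ = _ := by ring
  rw [e2]
  exact vert_norm_le (h := B) (σ := s) (C := C) hy (fun z hz => hC z (by linarith) (by linarith))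

theorem YY_asym (hc : IsOrtho c) {s : ℝ} (hs : s < 17/10) (hs3 : 0 ≤ s) :
    ∃ K, 0 ≤ K ∧ ∀ y : ℝ, 1 ≤ y →
      ‖(YY c y : ℂ) + res1 c * (y:ℂ)^(-rho) + res2 c * (y:ℂ)^(-(conj rho))‖ ≤ K * y^(-s) := by
  obtain ⟨K1, hK1, h1⟩ := ww_bound hc hs (by linarith)
  obtain ⟨K2, hK2, h2⟩ := EE_decay hc
  refine ⟨K1 + (‖res1 c‖ + ‖res2 c‖) + K2 * 2, by positivity, fun y hy => ?_⟩
  have hy0 : 0 < y := by linarith
  have e1 := h1 y hy0
  have e2 := h2 y hy0
  have e3 := Qop_bound h2 (by norm_num) hy0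
  have hgk : ∀ p : ℂ, gk p y = (y:ℂ)^(-p) - (y:ℂ)^(-(3:ℂ)) := by
    intro p; unfold gk; rw [max_eq_left hy]
  have h3 : (YY c y : ℂ) + res1 c * (y:ℂ)^(-rho) + res2 c * (y:ℂ)^(-(conj rho))
      = ww c y + (res1 c + res2 c) * (y:ℂ)^(-(3:ℂ)) + (((1/2) * EE c y - (1/4) * Qop (EE c) y : ℝ) : ℂ) := by
    unfold ww
    rw [hgk, hgk]
    have : YY c y = ff c y + (1/2) * EE c y - (1/4) * Qop (EE c) y := by unfold ff; ring
    rw [this]
    push_cast
    ring
  rw [h3]
  have e4 : ‖(y:ℂ)^(-(3:ℂ))‖ = y^(-(3:ℝ)) := by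
    rw [norm_cpow_eq_rpow_re_of_pos hy0]; norm_num
  have e5 : y^(-(3:ℝ)) ≤ y^(-s) := Real.rpow_le_rpow_of_exponent_le hy (by linarith)
  have e6 : y^(-(9/5:ℝ)) ≤ y^(-s) := Real.rpow_le_rpow_of_exponent_le hy (by linarith)
  have e7 : ‖(((1/2) * EE c y - (1/4) * Qop (EE c) y : ℝ) : ℂ)‖ ≤ K2 * 2 * y^(-s) := by
    rw [Complex.norm_real, Real.norm_eq_abs]
    have h7 := abs_sub ((1/2) * EE c y) ((1/4) * Qop (EE c) y)
    rw [abs_mul, abs_mul, abs_of_pos (by norm_num : (0:ℝ) < 1/2), abs_of_pos (by norm_num : (0:ℝ) < 1/4)] at h7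
    have h8 : K2 / (3 - 9/5) ≤ K2 := by
      apply div_le_self hK2; norm_num
    have hp : 0 ≤ y^(-(9/5:ℝ)) := by positivity
    have h9 : K2 / (3 - 9/5) * y^(-(9/5:ℝ)) ≤ K2 * y^(-(9/5:ℝ)) := mul_le_mul_of_nonneg_right h8 hp
    have h10 : K2 * y^(-(9/5:ℝ)) ≤ K2 * y^(-s) := mul_le_mul_of_nonneg_left e6 hK2
    have h11 : 0 ≤ K2 * y^(-s) := by positivity
    calc _ ≤ 1/2 * |EE c y| + 1/4 * |Qop (EE c) y| := h7
      _ ≤ 1/2 * (K2 * y^(-s)) + 1/4 * (K2 * y^(-s)) := by linarith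
      _ ≤ _ := by linarith
  have e8 : ‖(res1 c + res2 c) * (y:ℂ)^(-(3:ℂ))‖ ≤ (‖res1 c‖ + ‖res2 c‖) * y^(-s) := by
    rw [norm_mul, e4]
    exact mul_le_mul (norm_add_le _ _) e5 (by positivity) (by positivity)
  calc _ ≤ ‖ww c y‖ + ‖(res1 c + res2 c) * (y:ℂ)^(-(3:ℂ))‖ + ‖(((1/2) * EE c y - (1/4) * Qop (EE c) y : ℝ) : ℂ)‖ :=
        norm_add₃_le
    _ ≤ K1 * y^(-s) + (‖res1 c‖ + ‖res2 c‖) * y^(-s) + K2 * 2 * y^(-s) := by linarith
    _ = _ := by ring

end Pool.Agent.Hhelper92.Ortho
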