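import Mathlib

open Complex MeasureTheory Set Filter Topology intervalIntegral
open scoped Real ComplexConjugate

namespace Pool.Agent.Hhelper92.Ortho

/-- the defining relations of the orthorecursive coefficients of unity -/
structure IsOrtho (c : ℕ → ℝ) : Prop where
  zero : c 0 = 1
  rel : ∀ N : ℕ, 1 ≤ N → ∑ k ∈ Finset.range (N+1), c k / ((N:ℝ) + k + 1) = 0

noncomputable def xx (k : ℕ) : ℝ := k + 1/2

lemma xx_pos (k : ℕ) : 0 < xx k := by unfold xx; positivity

lemma xx_ge_half (k : ℕ) : 1/2 ≤ xx k := by unfold xx; have : (0:ℝ) ≤ k := by positivity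
                                            linarith

lemma quad_eq (c : ℕ → ℝ) (N : ℕ) :
    ∑ i ∈ Finset.range N, ∑ j ∈ Finset.range N, c i * c j / ((i:ℝ) + j + 1)
      = ∫ x in (0:ℝ)..1, (∑ i ∈ Finset.range N, c i * x^i)^2 := by
  have : ∀ x : ℝ, (∑ i ∈ Finset.range N, c i * x^i)^2
      = ∑ i ∈ Finset.range N, ∑ j ∈ Finset.range N, c i * c j * x^(i+j) := by
    intro x
    rw [sq, Finset.sum_mul_sum]
    apply Finset.sum_congr rfl; intro i _
    apply Finset.sum_congr rfl; intro j _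
    rw [pow_add]; ring
  simp_rw [this]
  rw [intervalIntegral.integral_finsetSum]
  · apply Finset.sum_congr rfl; intro i _
    rw [intervalIntegral.integral_finsetSum]
    · apply Finset.sum_congr rfl; intro j _
      rw [intervalIntegral.integral_const_mul, integral_pow]
      push_cast
      rw [one_pow, zero_pow (by omega)]
      ring
    · intro j _
      exact (by fun_prop : Continuous fun x : ℝ => c i * c j * x^(i+j)).intervalIntegrable _ _
  · intro i _
    exact (by fun_prop : Continuous fun x : ℝ => ∑ j ∈ Finset.range N, c i * c j * x^(i+j)).intervalIntegrable _ _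

lemma quad_nonneg (c : ℕ → ℝ) (N : ℕ) :
    0 ≤ ∑ i ∈ Finset.range N, ∑ j ∈ Finset.range N, c i * c j / ((i:ℝ) + j + 1) := by
  rw [quad_eq]
  apply intervalIntegral.integral_nonneg zero_le_one
  intro x _
  positivity

variable {c : ℕ → ℝ}

lemma quad_succ (hc : IsOrtho c) (N : ℕ) (hN : 1 ≤ N) :
    ∑ i ∈ Finset.range (N+1), ∑ j ∈ Finset.range (N+1), c i * c j / ((i:ℝ) + j + 1)
      = ∑ i ∈ Finset.range N, ∑ j ∈ Finset.range N, c i * c j / ((i:ℝ) + j + 1)
        - c N ^ 2 / (2 * N + 1) := by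
  rw [Finset.sum_range_succ]
  have h1 : ∑ i ∈ Finset.range N, ∑ j ∈ Finset.range (N+1), c i * c j / ((i:ℝ) + j + 1)
      = ∑ i ∈ Finset.range N, ∑ j ∈ Finset.range N, c i * c j / ((i:ℝ) + j + 1)
        + c N * ∑ i ∈ Finset.range N, c i / ((N:ℝ) + i + 1) := by
    rw [Finset.mul_sum, ← Finset.sum_add_distrib]
    apply Finset.sum_congr rfl; intro i _
    rw [Finset.sum_range_succ]
    congr 1
    rw [show (i:ℝ) + N + 1 = N + i + 1 by ring]
    ring
  have h2 : ∑ j ∈ Finset.range (N+1), c N * c j / ((N:ℝ) + j + 1) = 0 := by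
    have := hc.rel N hN
    rw [show (∑ j ∈ Finset.range (N+1), c N * c j / ((N:ℝ) + j + 1))
      = c N * ∑ j ∈ Finset.range (N+1), c j / ((N:ℝ) + j + 1) by
        rw [Finset.mul_sum]; apply Finset.sum_congr rfl; intro j _; ring]
    rw [this, mul_zero]
  rw [h1, h2, add_zero]
  have h3 := hc.rel N hN
  rw [Finset.sum_range_succ] at h3
  have h4 : ∑ i ∈ Finset.range N, c i / ((N:ℝ) + i + 1) = - (c N / (2 * N + 1)) := by
    rw [show (N:ℝ) + N + 1 = 2 * N + 1 by ring] at h3
    linarith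
  rw [h4]
  ring

lemma energy (hc : IsOrtho c) (N : ℕ) :
    ∑ k ∈ Finset.range N, c (k+1) ^ 2 / (2 * ((k:ℝ) + 1) + 1) ≤ 1 := by
  have h : ∀ N : ℕ, ∑ k ∈ Finset.range N, c (k+1) ^ 2 / (2 * ((k:ℝ) + 1) + 1)
      = 1 - ∑ i ∈ Finset.range (N+1), ∑ j ∈ Finset.range (N+1), c i * c j / ((i:ℝ) + j + 1) := by
    intro N
    induction N with
    | zero => simp [hc.zero]
    | succ n ih =>
      rw [Finset.sum_range_succ, ih, quad_succ hc (n+1) (by omega)]
      push_cast
      ring
  rw [h]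
  have := quad_nonneg c (N+1)
  linarith

lemma c_sq_le (hc : IsOrtho c) (k : ℕ) : c k ^ 2 ≤ 2 * k + 1 := by
  rcases k with _ | k
  · rw [hc.zero]; simp
  · have h := energy hc (k+1)
    rw [Finset.sum_range_succ] at h
    have h2 : 0 ≤ ∑ k ∈ Finset.range k, c (k+1) ^ 2 / (2 * ((k:ℝ) + 1) + 1) := by
      apply Finset.sum_nonneg; intro i _; positivity
    have h3 : c (k+1) ^ 2 / (2 * ((k:ℝ) + 1) + 1) ≤ 1 := by linarith
    rw [div_le_one (by positivity)] at h3
    push_cast
    linarith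

lemma abs_c_le (hc : IsOrtho c) (k : ℕ) : |c k| ≤ 2 * xx k := by
  have h := c_sq_le hc k
  have h2 : 2 * xx k = 2 * k + 1 := by unfold xx; ring
  rw [h2]
  have h3 : (0:ℝ) ≤ k := by positivity
  apply abs_le_of_sq_le_sq _ (by positivity)
  nlinarith

/-- square-summability -/
lemma energy_summable (hc : IsOrtho c) :
    Summable (fun k : ℕ => c (k+1) ^ 2 / (2 * xx (k+1))) := by
  apply summable_of_sum_range_le (c := 1)
  · intro k; have := xx_pos (k+1); positivity
  · intro n
    refine le_trans (le_of_eq ?_) (energy hc n)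
    apply Finset.sum_congr rfl; intro k _
    unfold xx; push_cast; ring_nf

lemma energy_tsum (hc : IsOrtho c) :
    ∑' k : ℕ, c (k+1) ^ 2 / (2 * xx (k+1)) ≤ 1 := by
  apply (energy_summable hc).tsum_le_of_sum_range_le
  intro n
  refine le_trans (le_of_eq ?_) (energy hc n)
  apply Finset.sum_congr rfl; intro k _
  unfold xx; push_cast; ring_nf

/-- relation in terms of `xx` -/
lemma rel_xx (hc : IsOrtho c) {N : ℕ} (hN : 1 ≤ N) :
    ∑ k ∈ Finset.range (N+1), c k / (xx N + xx k) = 0 := by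
  rw [← hc.rel N hN]
  apply Finset.sum_congr rfl; intro k _
  unfold xx
  congr 1; ring

end Pool.Agent.Hhelper92.Ortho
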