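import Pool.Agent.Hhelper92.Ortho.Mt
import Pool.Agent.Hhelper92.Ortho.Seq

open Complex MeasureTheory Set Filter Topology
open scoped Real ComplexConjugate

namespace Pool.Agent.Hhelper92.Ortho

variable {c : ℕ → ℝ}

noncomputable def EE (c : ℕ → ℝ) : ℝ → ℝ := Ser c fE
noncomputable def YY (c : ℕ → ℝ) : ℝ → ℝ := Ser c fY
noncomputable def ff (c : ℕ → ℝ) (y : ℝ) : ℝ := YY c y - (1/2) * EE c y + (1/4) * Qop (EE c) y

lemma fE_le (u : ℝ) : |fE u| ≤ 2 := by
  unfold fE
  split_ifs with h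
  · rw [abs_of_nonneg (by positivity), div_le_iff₀ (by positivity)]
    linarith
  · simp

lemma fY_le (u : ℝ) : |fY u| ≤ 2 := by
  unfold fY
  split_ifs with h
  · rw [abs_of_nonneg (by positivity), div_le_iff₀ (by positivity)]
    nlinarith
  · simp

lemma EE_bound (hc : IsOrtho c) {y : ℝ} (hy : 0 ≤ y) : |EE c y| ≤ 8 * y^2 := by
  have := Ser_bound' fE_ker (abs_c_le hc) fE_le hy
  unfold EE; linarith

lemma YY_bound (hc : IsOrtho c) {y : ℝ} (hy : 0 ≤ y) : |YY c y| ≤ 8 * y^2 := by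
  have := Ser_bound' fY_ker (abs_c_le hc) fY_le hy
  unfold YY; linarith

lemma EE_good (hc : IsOrtho c) : Good (EE c) where
  meas := Ser_measurable fE_ker
  zero := fun y hy => Ser_zero fE_ker hy
  bdd := ⟨8, by norm_num, fun y hy => EE_bound hc hy⟩

lemma YY_good (hc : IsOrtho c) : Good (YY c) where
  meas := Ser_measurable fY_ker
  zero := fun y hy => Ser_zero fY_ker hy
  bdd := ⟨8, by norm_num, fun y hy => YY_bound hc hy⟩

/-! ### continuity of `ff` -/

noncomputable def hk (u : ℝ) : ℝ := (max u 1) * (1 - max u 1) / (1 + max u 1)^2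

lemma hk_eq (u : ℝ) : fY u - (1/2) * fE u = hk u := by
  unfold fY fE hk
  by_cases h : 1 ≤ u
  · rw [if_pos h, if_pos h, max_eq_left h]
    have : (1 + u) ≠ 0 := by linarith
    have h2 : u + 1 ≠ 0 := by linarith
    field_simp
    ring
  · rw [if_neg h, if_neg h, max_eq_right (not_le.mp h).le]
    simp

lemma hk_cont : Continuous hk := by
  unfold hk
  apply Continuous.div (by fun_prop) (by fun_prop)
  intro u
  have : 1 ≤ max u 1 := le_max_right _ _
  positivity

lemma ff_core_eq {y : ℝ} {K : ℕ} (hy : y < xx K) :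
    YY c y - (1/2) * EE c y = ∑ k ∈ Finset.range K, c k * hk (y / xx k) := by
  unfold YY EE
  rw [Ser_eq_sum fY_ker hy, Ser_eq_sum fE_ker hy, Finset.mul_sum, ← Finset.sum_sub_distrib]
  apply Finset.sum_congr rfl
  intro k _
  rw [← hk_eq]
  ring

lemma exists_xx_gt (y : ℝ) : ∃ K : ℕ, y < xx K := by
  obtain ⟨K, hK⟩ := exists_nat_gt y
  exact ⟨K, by unfold xx; linarith⟩

lemma ff_core_continuous : Continuous (fun y => YY c y - (1/2) * EE c y) := by
  rw [continuous_iff_continuousAt]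
  intro y
  obtain ⟨K, hK⟩ := exists_xx_gt y
  have h1 : ContinuousAt (fun y => ∑ k ∈ Finset.range K, c k * hk (y / xx k)) y := by
    have : Continuous (fun y => ∑ k ∈ Finset.range K, c k * hk (y / xx k)) := by
      apply continuous_finsetSum
      intro k _
      exact continuous_const.mul (hk_cont.comp (by fun_prop))
    exact this.continuousAt
  refine h1.congr ?_
  filter_upwards [Iio_mem_nhds hK] with w hw
  exact (ff_core_eq hw).symm

lemma ff_continuousAt (hc : IsOrtho c) {y : ℝ} (hy : 0 < y) : ContinuousAt (ff c) y := by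
  unfold ff
  apply ContinuousAt.add
  · exact ff_core_continuous.continuousAt
  · exact (Qop_continuousAt (EE_good hc) hy).const_mul _

/-! ### Mellin transforms at `Re z < -2` -/

lemma summable_xx_rpow {a : ℝ} (ha : a < -1) : Summable fun k : ℕ => (xx k)^a := by
  have h1 : Summable fun k : ℕ => (2:ℝ)^(-a) * ((k+1 : ℕ):ℝ)^a :=
    ((summable_nat_add_iff 1).mpr (Real.summable_nat_rpow.mpr ha)).mul_left _
  refine h1.of_nonneg_of_le (fun k => by have := xx_pos k; positivity) (fun k => ?_)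
  have h2 : (2:ℝ)^(-a) * ((k+1 : ℕ):ℝ)^a = (((k+1 : ℕ):ℝ)/2)^a := by
    rw [Real.div_rpow (by positivity) (by norm_num), Real.rpow_neg (by norm_num)]
    ring
  rw [h2]
  apply Real.rpow_le_rpow_of_nonpos (by positivity) _ (by linarith)
  unfold xx; push_cast
  have : (0:ℝ) ≤ k := by positivity
  linarith

lemma summable_c_rpow (hc : IsOrtho c) {a : ℝ} (ha : a < -2) : Summable fun k => |c k| * (xx k)^a := by
  have h1 : Summable fun k : ℕ => 2 * (xx k)^(1 + a) := (summable_xx_rpow (by linarith)).mul_left 2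
  refine h1.of_nonneg_of_le (fun k => by have := xx_pos k; positivity) (fun k => ?_)
  rw [Real.rpow_add (xx_pos k), Real.rpow_one, ← mul_assoc]
  have := xx_pos k
  exact mul_le_mul_of_nonneg_right (abs_c_le hc k) (by positivity)

noncomputable def Est (c : ℕ → ℝ) : ℂ → ℂ := mellin (fun y => (EE c y : ℂ))
noncomputable def Yst (c : ℕ → ℝ) : ℂ → ℂ := mellin (fun y => (YY c y : ℂ))

/-- `-z E^*(z) = g^*(z) D(z)` -/
lemma Est_rel {z : ℂ} (hz : z.re < 0) (hs : Summable fun k => |c k| * (xx k)^z.re) :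
    -z * Est c z = (1 + 2 * J 2 (-z)) * Dser c z := by
  unfold Est EE
  rw [mellin_Ser fE_ker hz hs, mellin_fE hz]
  have h2 := J_ibp 1 (v := -z - 1) (by simp; linarith)
  rw [show (-z - 1 + 1) = -z by ring] at h2
  norm_num at h2
  linear_combination (2 * Dser c z) * h2

lemma Yst_rel {z : ℂ} (hz : z.re < 0) (hs : Summable fun k => |c k| * (xx k)^z.re) :
    Yst c z = 2 * J 2 (-z) * Dser c z := by
  unfold Yst YY
  rw [mellin_Ser fY_ker hz hs, mellin_fY hz]
  ring

lemma one_add_J2_G {z : ℂ} (hz : z.re < 0) : (1 - z) * (2 - z) * (1 + 2 * J 2 (-z)) = G z := by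
  rw [← gStar_neg hz]
  apply gStar_formula (by linarith)
  · intro h; rw [h] at hz; simp at hz
  · intro h; rw [h] at hz; simp at hz; linarith

lemma Est_G {z : ℂ} (hz : z.re < 0) (hs : Summable fun k => |c k| * (xx k)^z.re) :
    z * (1 - z) * (2 - z) * Est c z = - G z * Dser c z := by
  rw [← one_add_J2_G hz]
  linear_combination (-((1 - z) * (2 - z))) * Est_rel hz hs

lemma Yst_Est {z : ℂ} (hz : z.re < 0) (hs : Summable fun k => |c k| * (xx k)^z.re) :
    Yst c z - (1/2) * Est c z + (1/4) * (Est c z / (3 - z)) = Mt z * Est c z := by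
  have hG := G_ne_zero_of_neg hz
  have h3 := three_sub_ne (z := z) (by linarith)
  have h1 := Est_rel hz hs
  have h2 := Yst_rel hz hs
  have h4 := one_add_J2_G hz
  have h5 : Yst c z * G z = -z * (G z - (1 - z) * (2 - z)) * Est c z := by
    rw [h2, ← h4]
    linear_combination (-((1 - z) * (2 - z)) * (2 * J 2 (-z))) * h1
  have h6 : Mt z = -z * (G z - (1 - z) * (2 - z)) / G z - 1/2 + 1 / (4 * (3 - z)) := by
    unfold Mt
    have : Nn z / G z = -z * (G z - (1 - z) * (2 - z)) / G z - 1/2 := by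
      field_simp
      unfold Nn G
      ring
    rw [this]
  rw [h6]
  have h7 : Yst c z = -z * (G z - (1 - z) * (2 - z)) * Est c z / G z := by
    rw [eq_div_iff hG]; exact h5
  have h8 : 1 / (4 * (3 - z)) = (1/4) * (1 / (3 - z)) := by field_simp
  rw [h7, h8]
  ring

lemma ff_mellin (hc : IsOrtho c) {z : ℂ} (hz : z.re < -2) :
    MellinConvergent (fun y => (ff c y : ℂ)) z ∧ mellin (fun y => (ff c y : ℂ)) z = Mt z * Est c z := by
  have hY := good_mellinConvergent (YY_good hc) hz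
  have hE := good_mellinConvergent (EE_good hc) hz
  have hQ := Qop_mellinConvergent (EE_good hc) hz
  have hE2 := hE.const_smul (1/2 : ℂ)
  have hQ2 := hQ.const_smul (1/4 : ℂ)
  have h1 := hasMellin_sub hY hE2
  have h2 := hasMellin_add h1.1 hQ2
  have h3 : (fun y => (ff c y : ℂ)) = fun t => (YY c t : ℂ) - (1/2 : ℂ) • (EE c t : ℂ) + (1/4 : ℂ) • (Qop (EE c) t : ℂ) := by
    ext t
    unfold ff
    push_cast
    simp only [smul_eq_mul]
  rw [h3]
  refine ⟨h2.1, ?_⟩
  rw [h2.2, h1.2, mellin_const_smul, mellin_const_smul, mellin_Qop (EE_good hc) hz, smul_eq_mul, smul_eq_mul]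
  exact Yst_Est (by linarith) (summable_c_rpow hc hz)

/-! ### general facts on Mellin transforms of decaying functions -/

lemma good_dec_conv {g : ℝ → ℝ} (hg : Good g) {K e : ℝ} (hK : ∀ y, 0 < y → |g y| ≤ K * y^(-e)) {z : ℂ}
    (hz : z.re < e) : MellinConvergent (fun u => (g u : ℂ)) z ∧ DifferentiableAt ℂ (mellin (fun u => (g u : ℂ))) z := by
  obtain ⟨K2, _, hK2⟩ := hg.bdd
  have h1 : LocallyIntegrableOn (fun y => (g y : ℂ)) (Ioi 0) := locInt_of_bound hg.meas hK2
  have h2 : (fun u => (g u : ℂ)) =O[atTop] fun x => x ^ (-e) := by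
    apply Asymptotics.IsBigO.of_bound K
    filter_upwards [eventually_gt_atTop 0] with t ht
    rw [Complex.norm_real, Real.norm_eq_abs, Real.norm_of_nonneg (by positivity)]
    exact hK t ht
  have h3 := isBigO_zero_of_vanish hg.zero (z.re - 1)
  exact ⟨mellinConvergent_of_isBigO_rpow h1 h2 hz h3 (by linarith),
    mellin_differentiableAt_of_isBigO_rpow h1 h2 hz h3 (by linarith)⟩

lemma mellin_bound {g : ℝ → ℂ} {a b : ℝ} (ha : MellinConvergent g a) (hb : MellinConvergent g b) :
    ∃ B, 0 ≤ B ∧ ∀ z : ℂ, a ≤ z.re → z.re ≤ b → ‖mellin g z‖ ≤ B := by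
  refine ⟨∫ t in Ioi (0:ℝ), (‖(t:ℂ)^((a:ℂ)-1) • g t‖ + ‖(t:ℂ)^((b:ℂ)-1) • g t‖), ?_, ?_⟩
  · apply integral_nonneg
    intro t
    simp only [Pi.zero_apply]
    positivity
  · intro z h1 h2
    unfold mellin
    apply norm_integral_le_of_norm_le
    · exact ha.norm.add hb.norm
    · filter_upwards [ae_restrict_mem measurableSet_Ioi] with t ht
      have ht0 : (0:ℝ) < t := ht
      rw [norm_smul, norm_smul, norm_smul, norm_cpow_eq_rpow_re_of_pos ht0, norm_cpow_eq_rpow_re_of_pos ht0,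
        norm_cpow_eq_rpow_re_of_pos ht0, ← add_mul]
      apply mul_le_mul_of_nonneg_right _ (norm_nonneg _)
      simp only [sub_re, ofReal_re, one_re]
      rcases le_total 1 t with h | h
      · have : t^(z.re - 1) ≤ t^(b - 1) := Real.rpow_le_rpow_of_exponent_le h (by linarith)
        have h2 : 0 ≤ t^(a-1) := by positivity
        linarith
      · have : t^(z.re - 1) ≤ t^(a - 1) := Real.rpow_le_rpow_of_exponent_ge ht0 h (by linarith)
        have h2 : 0 ≤ t^(b-1) := by positivity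
        linarith

lemma mellin_cont {g : ℝ → ℝ} (hg : Good g) {K e : ℝ} (hK : ∀ y, 0 < y → |g y| ≤ K * y^(-e)) {z : ℂ}
    (hz : z.re < e) : ContinuousAt (mellin (fun u => (g u : ℂ))) z :=
  (good_dec_conv hg hK hz).2.continuousAt

/-! ### the bootstrap -/

lemma cpow_neg_differentiable {y : ℝ} (hy : 0 < y) : Differentiable ℂ (fun z : ℂ => (y:ℂ)^(-z)) := by
  intro z
  apply DifferentiableAt.const_cpow (by fun_prop)
  left; exact_mod_cast hy.ne'

lemma norm_cpow_neg {y : ℝ} (hy : 0 < y) (z : ℂ) : ‖(y:ℂ)^(-z)‖ = y^(-z.re) := by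
  rw [norm_cpow_eq_rpow_re_of_pos hy]; simp

/-- inversion for `ff` at `-3`. -/
lemma ff_inversion (hc : IsOrtho c) {y : ℝ} (hy : 0 < y) :
    (ff c y : ℂ) = (1 / (2 * π)) • ∫ t : ℝ, (y:ℂ)^(-(((-3:ℝ):ℂ) + t * I)) • (Mt (((-3:ℝ):ℂ) + t * I) * Est c (((-3:ℝ):ℂ) + t * I)) := by
  obtain ⟨C, hC0, hC⟩ := Mt_decay
  have hE := EE_good hc
  have hconv : ∀ z : ℂ, z.re < -2 → MellinConvergent (fun u => (EE c u : ℂ)) z :=
    fun z hz => good_mellinConvergent hE hz
  obtain ⟨B, hB0, hB⟩ := mellin_bound (g := fun y => (EE c y : ℂ)) (a := -3) (b := -3)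
    (hconv _ (by norm_num)) (hconv _ (by norm_num))
  have hff : ∀ t : ℝ, mellin (fun y => (ff c y : ℂ)) (((-3:ℝ):ℂ) + t * I)
      = Mt (((-3:ℝ):ℂ) + t * I) * Est c (((-3:ℝ):ℂ) + t * I) := by
    intro t
    exact (ff_mellin hc (by simp; norm_num)).2
  have hvi : VerticalIntegrable (mellin (fun y => (ff c y : ℂ))) (-3) := by
    unfold VerticalIntegrable
    simp_rw [hff]
    have hb : ∀ y, 0 < y → |EE c y| ≤ 8 * y^(-(-2:ℝ)) := by
      intro y hy
      have := EE_bound hc hy.le
      rw [neg_neg]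
      exact_mod_cast this
    apply vert_integrable (h := fun z => Mt z * Est c z) (C := C * B)
    · intro z hz
      apply ContinuousAt.mul
      · exact (Mt_differentiableAt (by linarith) (G_ne_of_re_le (by linarith))).continuousAt
      · exact mellin_cont hE hb (by linarith)
    · intro z hz
      rw [norm_mul]
      have h1 := hC z (by linarith) (by linarith)
      have h2 := hB z (by linarith) (by linarith)
      calc _ ≤ (C / (1 + z.im^2)) * B := by
            apply mul_le_mul h1 h2 (norm_nonneg _); positivity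
        _ = _ := by ring
  have key := mellinInv_mellin_eq (-3) (fun y => (ff c y : ℂ)) hy (ff_mellin hc (by norm_num)).1 hvi
    ((Complex.continuous_ofReal.continuousAt).comp (ff_continuousAt hc hy))
  rw [← key]
  unfold mellinInv
  simp_rw [hff]

/-- bound for a vertical integral -/
lemma vert_norm_le {h : ℂ → ℂ} {y σ C : ℝ} (hy : 0 < y)
    (hC : ∀ z : ℂ, z.re = σ → ‖h z‖ ≤ C / (1 + z.im^2)) :
    ‖(1 / (2 * π)) • ∫ t : ℝ, (y:ℂ)^(-((σ:ℂ) + t * I)) • h ((σ:ℂ) + t * I)‖ ≤ C / 2 * y^(-σ) := by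
  rw [norm_smul]
  have h1 : ‖∫ t : ℝ, (y:ℂ)^(-((σ:ℂ) + t * I)) • h ((σ:ℂ) + t * I)‖ ≤ ∫ t : ℝ, (C * y^(-σ)) * (1 + t^2)⁻¹ := by
    apply norm_integral_le_of_norm_le
    · exact integrable_inv_one_add_sq.const_mul _
    · refine Eventually.of_forall fun t => ?_
      rw [norm_smul, norm_cpow_neg hy]
      have h2 := hC ((σ:ℂ) + t * I) (by simp)
      have h3 : ((σ:ℂ) + t * I).re = σ := by simp
      have h4 : ((σ:ℂ) + t * I).im = t := by simp
      rw [h4] at h2
      rw [h3]
      calc _ ≤ y^(-σ) * (C / (1 + t^2)) := by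
            apply mul_le_mul_of_nonneg_left h2; positivity
        _ = _ := by ring
  rw [integral_const_mul, integral_univ_inv_one_add_sq] at h1
  have h2 : ‖(1 / (2 * π) : ℝ)‖ = 1 / (2 * π) := by
    rw [Real.norm_of_nonneg (by positivity)]
  rw [h2]
  have hpi := Real.pi_pos
  calc _ ≤ 1 / (2 * π) * (C * y^(-σ) * π) := by
        apply mul_le_mul_of_nonneg_left h1; positivity
    _ = _ := by field_simp

theorem boot (hc : IsOrtho c) {K e s : ℝ} (hE : ∀ y, 0 < y → |EE c y| ≤ K * y^(-e)) (he : e < 3)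
    (h1 : s < e) (h2 : -3 ≤ s) (h3 : s ≤ 4/5) : ∃ K', 0 ≤ K' ∧ ∀ y, 0 < y → |YY c y| ≤ K' * y^(-s) := by
  obtain ⟨C, hC0, hC⟩ := Mt_decay
  have hg := EE_good hc
  have hK0 : 0 ≤ K := by
    have := hE 1 one_pos
    rw [Real.one_rpow, mul_one] at this
    exact (abs_nonneg _).trans this
  obtain ⟨B, hB0, hB⟩ := mellin_bound (g := fun y => (EE c y : ℂ)) (a := -3) (b := s)
    (good_dec_conv hg hE (by simp; linarith)).1 (good_dec_conv hg hE (by simp; linarith)).1
  have hbd : ∀ z : ℂ, -3 ≤ z.re → z.re ≤ s → ‖Mt z * Est c z‖ ≤ (C * B) / (1 + z.im^2) := by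
    intro z hz1 hz2
    rw [norm_mul]
    calc _ ≤ (C / (1 + z.im^2)) * B := by
          apply mul_le_mul (hC z hz1 (by linarith)) (hB z hz1 hz2) (norm_nonneg _); positivity
      _ = _ := by ring
  have hff : ∀ y, 0 < y → |ff c y| ≤ (C * B) / 2 * y^(-s) := by
    intro y hy
    have e1 := ff_inversion hc hy
    have e2 : ∫ t : ℝ, (y:ℂ)^(-(((-3:ℝ):ℂ) + t * I)) • (Mt (((-3:ℝ):ℂ) + t * I) * Est c (((-3:ℝ):ℂ) + t * I))
        = ∫ t : ℝ, (y:ℂ)^(-((s:ℂ) + t * I)) • (Mt ((s:ℂ) + t * I) * Est c ((s:ℂ) + t * I)) := by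
      obtain ⟨Y, hY0, hY⟩ : ∃ Y, 0 ≤ Y ∧ ∀ z : ℂ, -3 ≤ z.re → z.re ≤ s → ‖(y:ℂ)^(-z)‖ ≤ Y := by
        refine ⟨y^(3:ℝ) + y^(-s), by positivity, fun z hz1 hz2 => ?_⟩
        rw [norm_cpow_neg hy]
        have hp1 : 0 ≤ y^(3:ℝ) := by positivity
        have hp2 : 0 ≤ y^(-s) := by positivity
        rcases le_total 1 y with h | h
        · have : y^(-z.re) ≤ y^(3:ℝ) := Real.rpow_le_rpow_of_exponent_le h (by linarith)
          linarith
        · have : y^(-z.re) ≤ y^(-s) := Real.rpow_le_rpow_of_exponent_ge hy h (by linarith)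
          linarith
      apply vertical_shift (h := fun z => (y:ℂ)^(-z) • (Mt z * Est c z)) (a := -3) (b := s) (C := Y * (C * B)) h2
      · intro z hz1 hz2
        exact ((cpow_neg_differentiable hy) z).smul
          ((Mt_differentiableAt (by linarith) (G_ne_of_re_le (by linarith))).mul
            (good_dec_conv hg hE (by linarith)).2)
      · intro z hz1 hz2
        rw [norm_smul]
        calc _ ≤ Y * ((C * B) / (1 + z.im^2)) := by
              apply mul_le_mul (hY z hz1 hz2) (hbd z hz1 hz2) (norm_nonneg _) hY0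
          _ = _ := by ring
    rw [e2] at e1
    have e3 := vert_norm_le (h := fun z => Mt z * Est c z) (σ := s) (C := C * B) hy
      (fun z hz => hbd z (by linarith) (by linarith))
    have e4 : ‖(ff c y : ℂ)‖ = |ff c y| := by rw [Complex.norm_real, Real.norm_eq_abs]
    rw [← e4, e1]
    exact e3
  refine ⟨(C * B) / 2 + (K / 2 + K / (4 * (3 - e))) * 2^(e - s), ?_, ?_⟩
  · have : 0 < 3 - e := by linarith
    positivity
  · intro y hy
    have h3e : 0 < 3 - e := by linarith
    rcases lt_or_ge y (1/2) with hlt | hge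
    · rw [(YY_good hc).zero y hlt, abs_zero]
      positivity
    · have e1 : YY c y = ff c y + (1/2) * EE c y - (1/4) * Qop (EE c) y := by unfold ff; ring
      have e2 := hff y hy
      have e3 := hE y hy
      have e4 := Qop_bound hE he hy
      have e5 : y^(-e) ≤ 2^(e-s) * y^(-s) := by
        have h5 : y^(-e) = y^(-(e-s)) * y^(-s) := by
          rw [← Real.rpow_add hy]; congr 1; ring
        rw [h5]
        apply mul_le_mul_of_nonneg_right _ (by positivity)
        have h6 : (2:ℝ)^(e-s) = (1/2:ℝ)^(-(e-s)) := by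
          rw [one_div, Real.inv_rpow (by norm_num), Real.rpow_neg (by norm_num), inv_inv]
        rw [h6]
        exact Real.rpow_le_rpow_of_nonpos (by norm_num) hge (by linarith)
      have e6 : |YY c y| ≤ |ff c y| + (1/2) * |EE c y| + (1/4) * |Qop (EE c) y| := by
        rw [e1]
        have := abs_sub (ff c y + (1/2) * EE c y) ((1/4) * Qop (EE c) y)
        have h7 := abs_add_le (ff c y) ((1/2) * EE c y)
        rw [abs_mul, abs_of_pos (by norm_num : (0:ℝ) < 1/2)] at h7
        rw [abs_mul (1/4), abs_of_pos (by norm_num : (0:ℝ) < 1/4)] at this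
        linarith
      have e7 : K / (4 * (3 - e)) = (1/4) * (K / (3 - e)) := by field_simp
      rw [e7]
      have hp : 0 ≤ K / (3 - e) := by positivity
      calc |YY c y| ≤ (C * B) / 2 * y^(-s) + (1/2) * (K * y^(-e)) + (1/4) * (K / (3 - e) * y^(-e)) := by linarith
        _ = (C * B) / 2 * y^(-s) + (K/2 + (1/4) * (K / (3 - e))) * y^(-e) := by ring
        _ ≤ (C * B) / 2 * y^(-s) + (K/2 + (1/4) * (K / (3 - e))) * (2^(e-s) * y^(-s)) := by
            apply add_le_add le_rfl
            apply mul_le_mul_of_nonneg_left e5; positivity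
        _ = _ := by ring

end Pool.Agent.Hhelper92.Ortho
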