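import Pool.Agent.Hhelper92.Ortho.Asym

open Complex MeasureTheory Set Filter Topology
open scoped Real ComplexConjugate

namespace Pool.Agent.Hhelper92.Ortho

variable {c : ℕ → ℝ}

lemma mellin_real_conj (g : ℝ → ℝ) (z : ℂ) :
    mellin (fun u => (g u : ℂ)) (conj z) = conj (mellin (fun u => (g u : ℂ)) z) := by
  unfold mellin
  rw [← integral_conj]
  apply setIntegral_congr_fun measurableSet_Ioi
  intro t ht
  have ht0 : (0:ℝ) < t := ht
  simp only [smul_eq_mul, map_mul, conj_ofReal]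
  congr 1
  have : conj z - 1 = conj (z - 1) := by rw [map_sub, map_one]
  rw [this, Complex.cpow_conj _ _ (by rw [arg_ofReal_of_nonneg ht0.le]; exact Real.pi_pos.ne), conj_ofReal]

lemma Est_conj (z : ℂ) : Est c (conj z) = conj (Est c z) := mellin_real_conj _ z

lemma Nn_conj (z : ℂ) : Nn (conj z) = conj (Nn z) := by
  unfold Nn
  have h2 : conj (2:ℂ) = 2 := map_ofNat _ 2
  have h4 : conj (4:ℂ) = 4 := map_ofNat _ 4
  have h6 : conj (6:ℂ) = 6 := map_ofNat _ 6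
  have h7 : conj (7:ℂ) = 7 := map_ofNat _ 7
  have h12 : conj (12:ℂ) = 12 := map_ofNat _ 12
  have : (2 - conj z) = conj (2 - z) := by rw [map_sub, h2]
  rw [this, J_conj]
  simp only [map_add, map_mul, map_sub, map_div₀, h4, h6, h7, h12]

lemma res2_eq : res2 c = conj (res1 c) := by
  unfold res2 res1
  rw [Nn_conj, Est_conj, map_div₀, map_mul]

lemma Nn_rho : Nn rho = rho * (1 - rho) * (2 - rho) := by
  have h := G_rho
  unfold G at h
  unfold Nn
  linear_combination (-rho - 1/2) * h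

lemma Nn_rho_ne : Nn rho ≠ 0 := by
  rw [Nn_rho]
  have him := rho_im_pos
  refine mul_ne_zero (mul_ne_zero ?_ ?_) ?_
  · intro h; rw [h] at him; simp at him
  · intro h
    have := congrArg Complex.im h
    simp at this; linarith
  · intro h
    have := congrArg Complex.im h
    simp at this; linarith

lemma res1_ne_zero (h : Est c rho ≠ 0) : res1 c ≠ 0 := by
  unfold res1
  exact div_ne_zero (mul_ne_zero Nn_rho_ne h) G_deriv_ne

lemma c_formula (hc : IsOrtho c) {N : ℕ} (hN : 2 ≤ N) :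
    c N = - ∑ k ∈ Finset.range N, c k * (2 * xx k / (((N:ℝ) + xx k)^2 - 1/4)) := by
  obtain ⟨M, rfl⟩ : ∃ M, N = M + 1 := ⟨N - 1, by omega⟩
  have h1 := hc.rel M (by omega)
  have h2 := hc.rel (M+1) (by omega)
  rw [Finset.sum_range_succ] at h2
  have h3 : ∑ k ∈ Finset.range (M+1), c k * (2 * xx k / ((((M+1:ℕ):ℝ) + xx k)^2 - 1/4))
      = (2 * ((M+1:ℕ):ℝ) + 1) * ∑ k ∈ Finset.range (M+1), c k / (((M+1:ℕ):ℝ) + k + 1)
        - (2 * ((M+1:ℕ):ℝ) - 1) * ∑ k ∈ Finset.range (M+1), c k / ((M:ℝ) + k + 1) := by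
    rw [Finset.mul_sum, Finset.mul_sum, ← Finset.sum_sub_distrib]
    apply Finset.sum_congr rfl
    intro k _
    unfold xx
    push_cast
    have e1 : ((M:ℝ) + 1 + k + 1) ≠ 0 := by positivity
    have e2 : ((M:ℝ) + k + 1) ≠ 0 := by positivity
    have e3 : (((M:ℝ) + 1 + (k + 1/2))^2 - 1/4) = ((M:ℝ) + 1 + k + 1) * ((M:ℝ) + k + 1) := by ring
    rw [e3]
    field_simp
    ring
  rw [h3, h1, mul_zero, sub_zero]
  have h4 : (((M+1:ℕ):ℝ) + ((M+1:ℕ):ℝ) + 1) ≠ 0 := by positivity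
  have h5 : ∑ k ∈ Finset.range (M+1), c k / (((M+1:ℕ):ℝ) + k + 1) = - (c (M+1) / (((M+1:ℕ):ℝ) + ((M+1:ℕ):ℝ) + 1)) := by
    linarith
  rw [h5]
  field_simp
  ring

lemma c_Y (hc : IsOrtho c) : ∃ K, 0 ≤ K ∧ ∀ N : ℕ, 2 ≤ N → |c N + YY c N / N| ≤ K * (N:ℝ)^(-(3:ℝ)) := by
  obtain ⟨K, hK0, hK⟩ := c_decay hc
  refine ⟨K, hK0, fun N hN => ?_⟩
  have hN0 : (0:ℝ) < N := by exact_mod_cast (by omega : 0 < N)
  have hN2 : (2:ℝ) ≤ N := by exact_mod_cast hN
  obtain ⟨M, rfl⟩ : ∃ M, N = M + 1 := ⟨N - 1, by omega⟩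
  have hY := YY_eq_FF (c := c) (n := M) (u := ((M+1:ℕ):ℝ)) (by unfold xx; push_cast; linarith)
    (by unfold xx; push_cast; linarith)
  rw [hY, mul_div_cancel_left₀ _ hN0.ne', c_formula hc hN]
  unfold FF'
  set N : ℝ := ((M+1:ℕ):ℝ) with hNdef
  rw [neg_add_eq_sub, ← Finset.sum_sub_distrib]
  have hterm : ∀ k ∈ Finset.range (M+1), |c k * (2 * xx k / (N + xx k)^2) - c k * (2 * xx k / ((N + xx k)^2 - 1/4))|
      ≤ K * N^(-(4:ℝ)) := by
    intro k _
    have hx := xx_pos k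
    have hxh := xx_ge_half k
    have e1 : N^2 ≤ (N + xx k)^2 - 1/4 := by nlinarith
    have e2 : N^2 ≤ (N + xx k)^2 := by nlinarith
    have hNp : 0 < N^2 := by positivity
    have e3 : c k * (2 * xx k / (N + xx k)^2) - c k * (2 * xx k / ((N + xx k)^2 - 1/4))
        = - (c k * xx k / 2) / ((N + xx k)^2 * ((N + xx k)^2 - 1/4)) := by
      have h1 : (N + xx k)^2 ≠ 0 := by linarith
      have h2 : (N + xx k)^2 - 1/4 ≠ 0 := by linarith
      rw [← mul_sub, div_sub_div _ _ h1 h2, ← mul_div_assoc]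
      congr 1
      ring
    have hdpos : 0 < (N + xx k)^2 * ((N + xx k)^2 - 1/4) := mul_pos (by linarith) (by linarith)
    rw [e3, abs_div, abs_neg, abs_of_pos hdpos, abs_div, abs_mul,
      abs_of_pos hx, abs_of_pos (by norm_num : (0:ℝ) < 2)]
    have e4 : |c k| * xx k / 2 ≤ K := by
      have h1 := hK k
      have h2 : (xx k)^(-(9/5:ℝ)) * xx k = (xx k)^(-(4/5:ℝ)) := by
        have : xx k = (xx k)^(1:ℝ) := (Real.rpow_one _).symm
        nth_rewrite 2 [this]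
        rw [← Real.rpow_add hx]; norm_num
      have h3 : (xx k)^(-(4/5:ℝ)) ≤ 2 := by
        calc (xx k)^(-(4/5:ℝ)) ≤ (1/2:ℝ)^(-(4/5:ℝ)) :=
              Real.rpow_le_rpow_of_nonpos (by norm_num) hxh (by norm_num)
          _ ≤ (1/2:ℝ)^(-(1:ℝ)) := Real.rpow_le_rpow_of_exponent_ge (by norm_num) (by norm_num) (by norm_num)
          _ = 2 := by rw [Real.rpow_neg_one]; norm_num
      calc |c k| * xx k / 2 ≤ (K * (xx k)^(-(9/5:ℝ))) * xx k / 2 := by gcongr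
        _ = K * ((xx k)^(-(9/5:ℝ)) * xx k) / 2 := by ring
        _ ≤ K * 2 / 2 := by rw [h2]; gcongr
        _ = K := by ring
    have e5 : N^(-(4:ℝ)) = 1 / (N^2 * N^2) := by
      rw [Real.rpow_neg hN0.le, one_div]
      congr 1
      have : (4:ℝ) = ((4:ℕ):ℝ) := by norm_num
      rw [this, Real.rpow_natCast]
      ring
    rw [e5, mul_one_div]
    apply div_le_div₀ hK0 e4 (by positivity)
    exact mul_le_mul e2 e1 (by positivity) (by linarith)
  refine (Finset.abs_sum_le_sum_abs _ _).trans ?_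
  refine (Finset.sum_le_sum hterm).trans (le_of_eq ?_)
  rw [Finset.sum_const, Finset.card_range, nsmul_eq_mul, ← hNdef]
  have : N^(-(3:ℝ)) = N * N^(-(4:ℝ)) := by
    have h1 : N = N^(1:ℝ) := (Real.rpow_one _).symm
    nth_rewrite 2 [h1]
    rw [← Real.rpow_add hN0]; norm_num
  rw [this]
  ring

theorem c_asym (hc : IsOrtho c) {s : ℝ} (hs : s < 17/10) (hs3 : 0 ≤ s) :
    (fun n : ℕ => c n - 2 * (res1 c * (n:ℂ)^(-1 - rho)).re) =O[atTop] (fun n : ℕ => (n:ℝ)^(-1 - s)) := by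
  obtain ⟨K1, hK1, h1⟩ := c_Y hc
  obtain ⟨K2, hK2, h2⟩ := YY_asym hc hs hs3
  apply Asymptotics.IsBigO.of_bound (K1 + K2)
  filter_upwards [eventually_ge_atTop 2] with N hN
  have hN1 : (1:ℝ) ≤ N := by exact_mod_cast (by omega : 1 ≤ N)
  have hN0 : (0:ℝ) < N := by linarith
  have hNc : (N:ℂ) ≠ 0 := by exact_mod_cast hN0.ne'
  have e1 := h1 N hN
  have e2 := h2 N hN1
  have e3 : ((N:ℝ):ℂ) = (N:ℂ) := by norm_cast
  rw [e3] at e2
  have e4 : (N:ℂ)^(-1 - rho) = (N:ℂ)^(-rho) / N := by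
    rw [show -1 - rho = -rho - 1 by ring, Complex.cpow_sub _ _ hNc, Complex.cpow_one]
  have e5 : ((2 * (res1 c * (N:ℂ)^(-1 - rho)).re : ℝ) : ℂ)
      = (res1 c * (N:ℂ)^(-rho) + res2 c * (N:ℂ)^(-(conj rho))) / N := by
    rw [e4, res2_eq]
    have h : (N:ℂ)^(-(conj rho)) = conj ((N:ℂ)^(-rho)) := by
      have : -(conj rho) = conj (-rho) := by rw [map_neg]
      rw [this, ← e3, Complex.cpow_conj _ _ (by rw [arg_ofReal_of_nonneg hN0.le]; exact Real.pi_pos.ne), conj_ofReal]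
    rw [h, ← map_mul, Complex.add_conj, ← mul_div_assoc, ← e3]
    rw [Complex.div_ofReal_re]
    push_cast
    ring
  have e6 : ((c N - 2 * (res1 c * (N:ℂ)^(-1 - rho)).re : ℝ) : ℂ)
      = ((c N + YY c N / N : ℝ) : ℂ) - ((YY c N : ℂ) + res1 c * (N:ℂ)^(-rho) + res2 c * (N:ℂ)^(-(conj rho))) / N := by
    rw [Complex.ofReal_sub, e5]
    push_cast
    ring
  have e7 : ‖c N - 2 * (res1 c * (N:ℂ)^(-1 - rho)).re‖ = ‖((c N - 2 * (res1 c * (N:ℂ)^(-1 - rho)).re : ℝ) : ℂ)‖ := by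
    rw [Complex.norm_real]
  rw [e7, e6]
  refine (norm_sub_le _ _).trans ?_
  have e8 : ‖((c N + YY c N / N : ℝ) : ℂ)‖ ≤ K1 * (N:ℝ)^(-1 - s) := by
    rw [Complex.norm_real, Real.norm_eq_abs]
    refine e1.trans ?_
    apply mul_le_mul_of_nonneg_left _ hK1
    exact Real.rpow_le_rpow_of_exponent_le hN1 (by linarith)
  have e9 : ‖((YY c N : ℂ) + res1 c * (N:ℂ)^(-rho) + res2 c * (N:ℂ)^(-(conj rho))) / N‖ ≤ K2 * (N:ℝ)^(-1 - s) := by
    rw [norm_div, Complex.norm_natCast, div_le_iff₀ hN0]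
    refine e2.trans (le_of_eq ?_)
    have : (N:ℝ)^(-s) = (N:ℝ)^(-1 - s) * N := by
      rw [show -s = (-1 - s) + 1 by ring, Real.rpow_add hN0, Real.rpow_one]
    rw [this]; ring
  have e10 : ‖(N:ℝ)^(-1 - s)‖ = (N:ℝ)^(-1 - s) := Real.norm_of_nonneg (by positivity)
  rw [e10, add_mul]
  exact add_le_add e8 e9

end Pool.Agent.Hhelper92.Ortho
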