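import Pool.Agent.Hhelper92.Ortho.Boot

open Complex MeasureTheory Set Filter Topology
open scoped Real ComplexConjugate

namespace Pool.Agent.Hhelper92.Ortho

variable {c : ℕ → ℝ}

/-- partial sum function -/
noncomputable def FF (c : ℕ → ℝ) (n : ℕ) (u : ℝ) : ℝ := ∑ k ∈ Finset.range n, c k * (2 * u / (u + xx k))
noncomputable def FF' (c : ℕ → ℝ) (n : ℕ) (u : ℝ) : ℝ := ∑ k ∈ Finset.range n, c k * (2 * xx k / (u + xx k)^2)

lemma FF_hasDerivAt (n : ℕ) {u : ℝ} (hu : 0 ≤ u) : HasDerivAt (FF c n) (FF' c n u) u := by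
  unfold FF FF'
  apply HasDerivAt.fun_sum
  intro k _
  apply HasDerivAt.const_mul
  have h1 : HasDerivAt (fun u : ℝ => 2 * u) (2 * 1) u := (hasDerivAt_id u).const_mul 2
  have h2 : HasDerivAt (fun u : ℝ => u + xx k) 1 u := (hasDerivAt_id u).add_const _
  have h3 : u + xx k ≠ 0 := by have := xx_pos k; positivity
  have h4 := h1.div h2 h3
  refine h4.congr_deriv ?_
  congr 1
  ring

lemma xx_le_iff_of {n : ℕ} {u : ℝ} (h2 : u < xx n) : ∀ k, n ≤ k → u < xx k := by
  intro k hk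
  refine h2.trans_le ?_
  unfold xx
  have : (n:ℝ) ≤ k := by exact_mod_cast hk
  linarith

lemma EE_eq_FF {n : ℕ} {u : ℝ} (h1 : xx n ≤ u) (h2 : u < xx (n+1)) : EE c u = FF c (n+1) u := by
  unfold EE FF
  rw [Ser_eq_sum fE_ker h2]
  apply Finset.sum_congr rfl
  intro k hk
  have hk' : k ≤ n := by simpa [Nat.lt_succ_iff] using hk
  have h3 : xx k ≤ u := by
    refine le_trans ?_ h1
    unfold xx
    have : (k:ℝ) ≤ n := by exact_mod_cast hk'
    linarith
  have hp := xx_pos k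
  unfold fE
  rw [if_pos (by rw [le_div_iff₀ hp]; linarith)]
  congr 1
  have : u + xx k ≠ 0 := by linarith
  field_simp

lemma YY_eq_FF {n : ℕ} {u : ℝ} (h1 : xx n ≤ u) (h2 : u < xx (n+1)) : YY c u = u * FF' c (n+1) u := by
  unfold YY FF'
  rw [Ser_eq_sum fY_ker h2, Finset.mul_sum]
  apply Finset.sum_congr rfl
  intro k hk
  have hk' : k ≤ n := by simpa [Nat.lt_succ_iff] using hk
  have h3 : xx k ≤ u := by
    refine le_trans ?_ h1
    unfold xx
    have : (k:ℝ) ≤ n := by exact_mod_cast hk'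
    linarith
  have hp := xx_pos k
  unfold fY
  rw [if_pos (by rw [le_div_iff₀ hp]; linarith)]
  have h4 : u + xx k ≠ 0 := by linarith
  have h5 : 1 + u / xx k = (u + xx k) / xx k := by field_simp; ring
  rw [h5]
  field_simp

lemma FF_xx (hc : IsOrtho c) {N : ℕ} (hN : 1 ≤ N) : FF c (N+1) (xx N) = 0 := by
  unfold FF
  have h := rel_xx hc hN
  have : ∑ k ∈ Finset.range (N+1), c k * (2 * xx N / (xx N + xx k))
      = (2 * xx N) * ∑ k ∈ Finset.range (N+1), c k / (xx N + xx k) := by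
    rw [Finset.mul_sum]
    apply Finset.sum_congr rfl
    intro k _
    ring
  rw [this, h, mul_zero]

lemma floor_facts {y : ℝ} (hy : 3/2 ≤ y) : ∃ N : ℕ, 1 ≤ N ∧ xx N ≤ y ∧ y < xx (N+1) := by
  refine ⟨⌊y - 1/2⌋₊, ?_, ?_, ?_⟩
  · apply Nat.le_floor; push_cast; linarith
  · unfold xx
    have := Nat.floor_le (a := y - 1/2) (by linarith)
    linarith
  · unfold xx
    have := Nat.lt_floor_add_one (y - 1/2)
    push_cast
    linarith

lemma rpow_compare {u y a b : ℝ} (hu : 0 < u) (hb : 1 ≤ b) (h1 : y / b ≤ u) (h2 : u ≤ y) :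
    u^(-a) ≤ b^|a| * y^(-a) := by
  have hy : 0 < y := by linarith
  have hb0 : 0 < b := by linarith
  rcases le_total 0 a with h | h
  · rw [abs_of_nonneg h]
    have h3 : b^a * y^(-a) = (y/b)^(-a) := by
      rw [Real.div_rpow hy.le hb0.le, Real.rpow_neg hb0.le a, div_inv_eq_mul, mul_comm]
    rw [h3]
    exact Real.rpow_le_rpow_of_nonpos (by positivity) h1 (by linarith)
  · rw [abs_of_nonpos h]
    have h3 : u^(-a) ≤ y^(-a) := Real.rpow_le_rpow hu.le h2 (by linarith)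
    have h4 : 1 ≤ b^(-a) := Real.one_le_rpow hb (by linarith)
    have h5 : 0 ≤ y^(-a) := by positivity
    nlinarith

theorem E_from_Y (hc : IsOrtho c) {K s : ℝ} (hK : 0 ≤ K) (hY : ∀ y, 0 < y → |YY c y| ≤ K * y^(-s)) :
    ∃ K', 0 ≤ K' ∧ ∀ y, 0 < y → |EE c y| ≤ K' * y^(-(s+1)) := by
  refine ⟨K * 3^|s+1| + 18 * 2^|s+1|, by positivity, ?_⟩
  intro y hy
  rcases lt_or_ge y (3/2) with h | h
  · rcases lt_or_ge y (1/2) with h0 | h0
    · rw [(EE_good hc).zero y h0, abs_zero]; positivity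
    · have h1 := EE_bound hc hy.le
      have h2 : (1:ℝ) ≤ 2^|s+1| * y^(-(s+1)) := by
        rcases le_total 1 y with h3 | h3
        · -- y in [1,3/2)
          have h5 : (1:ℝ)^(-(s+1)) ≤ 2^|s+1| * y^(-(s+1)) := by
            rcases le_total 0 (s+1) with h6 | h6
            · have h7 := rpow_compare (u := (1/2)*y) (y := y) (a := s+1) (b := 2) (by positivity) (by norm_num) (by linarith) (by linarith)
              refine le_trans ?_ h7
              rw [Real.one_rpow]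
              exact Real.one_le_rpow_of_pos_of_le_one_of_nonpos (by positivity) (by linarith) (by linarith)
            · rw [Real.one_rpow]
              have h7 : 1 ≤ y^(-(s+1)) := Real.one_le_rpow h3 (by linarith)
              have h8 : (1:ℝ) ≤ 2^|s+1| := Real.one_le_rpow (by norm_num) (abs_nonneg _)
              nlinarith
          rw [Real.one_rpow] at h5; exact h5
        · rcases le_total 0 (s+1) with h6 | h6
          · have h7 : 1 ≤ y^(-(s+1)) := Real.one_le_rpow_of_pos_of_le_one_of_nonpos hy h3 (by linarith)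
            have h8 : (1:ℝ) ≤ 2^|s+1| := Real.one_le_rpow (by norm_num) (abs_nonneg _)
            nlinarith
          · rw [abs_of_nonpos h6, ← Real.mul_rpow (by norm_num) hy.le]
            exact Real.one_le_rpow (by linarith) (by linarith)
      have h3 : 0 ≤ K * 3^|s+1| * y^(-(s+1)) := by positivity
      have h4 : y^2 ≤ 9/4 := by nlinarith
      calc |EE c y| ≤ 18 := by linarith
        _ ≤ 18 * (2^|s+1| * y^(-(s+1))) := by linarith
        _ ≤ _ := by linarith
  · obtain ⟨N, hN, hN1, hN2⟩ := floor_facts h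
    rw [EE_eq_FF hN1 hN2]
    have hxp := xx_pos N
    have hxN : y / 3 ≤ xx N := by
      have : xx (N+1) = xx N + 1 := by unfold xx; push_cast; ring
      linarith
    have hbd : ∀ u ∈ Icc (xx N) y, ‖FF' c (N+1) u‖ ≤ K * (3^|s+1| * y^(-(s+1))) := by
      intro u hu
      have hu0 : 0 < u := hxp.trans_le hu.1
      have h1 := YY_eq_FF (c := c) hu.1 (hu.2.trans_lt hN2)
      have h2 := hY u hu0
      rw [h1, abs_mul, abs_of_pos hu0] at h2
      rw [Real.norm_eq_abs]
      have h3 : |FF' c (N+1) u| ≤ K * u^(-(s+1)) := by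
        have h4 : u^(-(s+1)) = u^(-s) / u := by
          rw [show -(s+1) = -s - 1 by ring, Real.rpow_sub hu0, Real.rpow_one]
        rw [h4, ← mul_div_assoc, le_div_iff₀ hu0]
        linarith
      refine h3.trans ?_
      apply mul_le_mul_of_nonneg_left _ hK
      exact rpow_compare hu0 (by norm_num) (hxN.trans hu.1) hu.2
    have h1 := Convex.norm_image_sub_le_of_norm_hasDerivWithin_le (s := Icc (xx N) y)
      (f := FF c (N+1)) (f' := FF' c (N+1)) (C := K * (3^|s+1| * y^(-(s+1))))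
      (fun u hu => (FF_hasDerivAt (N+1) (hxp.le.trans hu.1)).hasDerivWithinAt) hbd (convex_Icc _ _)
      (left_mem_Icc.mpr hN1) (right_mem_Icc.mpr hN1)
    rw [FF_xx hc hN, sub_zero, Real.norm_eq_abs, Real.norm_eq_abs] at h1
    have h2 : |y - xx N| ≤ 1 := by
      rw [abs_of_nonneg (by linarith)]
      have : xx (N+1) = xx N + 1 := by unfold xx; push_cast; ring
      linarith
    have h3 : 0 ≤ 18 * 2^|s+1| * y^(-(s+1)) := by positivity
    calc |FF c (N+1) y| ≤ K * (3^|s+1| * y^(-(s+1))) * |y - xx N| := h1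
      _ ≤ K * (3^|s+1| * y^(-(s+1))) * 1 := by
          apply mul_le_mul_of_nonneg_left h2; positivity
      _ ≤ _ := by linarith

theorem c_from_E (hc : IsOrtho c) {K e : ℝ} (hE : ∀ y, 0 < y → |EE c y| ≤ K * y^(-e)) {k : ℕ} (hk : 1 ≤ k) :
    |c k| ≤ K * (xx k)^(-e) := by
  obtain ⟨n, rfl⟩ : ∃ n, k = n + 1 := ⟨k - 1, by omega⟩
  have hxp := xx_pos (n+1)
  have h1 : FF c (n+1) (xx (n+1)) = - c (n+1) := by
    have h2 := FF_xx hc hk
    unfold FF at h2 ⊢
    rw [Finset.sum_range_succ] at h2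
    have h3 : 2 * xx (n+1) / (xx (n+1) + xx (n+1)) = 1 := by field_simp; norm_num
    rw [h3] at h2
    linarith
  have h2 : |c (n+1)| = |FF c (n+1) (xx (n+1))| := by rw [h1, abs_neg]
  rw [h2]
  have hcont : ContinuousAt (FF c (n+1)) (xx (n+1)) := (FF_hasDerivAt (n+1) hxp.le).continuousAt
  have ht1 : Tendsto (fun u => |FF c (n+1) u|) (𝓝[<] (xx (n+1))) (𝓝 (|FF c (n+1) (xx (n+1))|)) :=
    (hcont.abs.tendsto).mono_left nhdsWithin_le_nhds
  have ht2 : Tendsto (fun u : ℝ => K * u^(-e)) (𝓝[<] (xx (n+1))) (𝓝 (K * (xx (n+1))^(-e))) := by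
    have : ContinuousAt (fun u : ℝ => K * u^(-e)) (xx (n+1)) :=
      (Real.continuousAt_rpow_const _ _ (Or.inl hxp.ne')).const_mul K
    exact this.tendsto.mono_left nhdsWithin_le_nhds
  apply le_of_tendsto_of_tendsto ht1 ht2
  have hlt : xx n < xx (n+1) := by unfold xx; push_cast; linarith
  have h3 : Ioo (xx n) (xx (n+1)) ∈ 𝓝[<] (xx (n+1)) := Ioo_mem_nhdsLT hlt
  filter_upwards [h3] with u hu
  rw [← EE_eq_FF hu.1.le hu.2]
  exact hE u ((xx_pos n).trans hu.1)

theorem EE_decay (hc : IsOrtho c) : ∃ K, 0 ≤ K ∧ ∀ y, 0 < y → |EE c y| ≤ K * y^(-(9/5:ℝ)) := by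
  have h0 : ∀ y, 0 < y → |EE c y| ≤ 8 * y^(-(-2:ℝ)) := by
    intro y hy
    have := EE_bound hc hy.le
    rw [neg_neg]
    exact_mod_cast this
  obtain ⟨K1, hK1, h1⟩ := boot hc h0 (s := -2.1) (by norm_num) (by norm_num) (by norm_num) (by norm_num)
  obtain ⟨L1, hL1, g1⟩ := E_from_Y hc hK1 h1
  obtain ⟨K2, hK2, h2⟩ := boot hc g1 (s := -1.2) (by norm_num) (by norm_num) (by norm_num) (by norm_num)
  obtain ⟨L2, hL2, g2⟩ := E_from_Y hc hK2 h2
  obtain ⟨K3, hK3, h3⟩ := boot hc g2 (s := -0.3) (by norm_num) (by norm_num) (by norm_num) (by norm_num)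
  obtain ⟨L3, hL3, g3⟩ := E_from_Y hc hK3 h3
  obtain ⟨K4, hK4, h4⟩ := boot hc g3 (s := 0.6) (by norm_num) (by norm_num) (by norm_num) (by norm_num)
  obtain ⟨L4, hL4, g4⟩ := E_from_Y hc hK4 h4
  obtain ⟨K5, hK5, h5⟩ := boot hc g4 (s := 4/5) (by norm_num) (by norm_num) (by norm_num) (by norm_num)
  obtain ⟨L5, hL5, g5⟩ := E_from_Y hc hK5 h5
  refine ⟨L5, hL5, fun y hy => ?_⟩
  have := g5 y hy
  norm_num at this ⊢
  exact this

theorem c_decay (hc : IsOrtho c) : ∃ K, 0 ≤ K ∧ ∀ k, |c k| ≤ K * (xx k)^(-(9/5:ℝ)) := by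
  obtain ⟨K, hK0, hK⟩ := EE_decay hc
  refine ⟨K + 1, by linarith, fun k => ?_⟩
  rcases Nat.eq_zero_or_pos k with h | h
  · rw [h, hc.zero, abs_one]
    have h1 : (1:ℝ) ≤ (xx 0)^(-(9/5:ℝ)) := by
      apply Real.one_le_rpow_of_pos_of_le_one_of_nonpos (xx_pos 0)
      · unfold xx; norm_num
      · norm_num
    nlinarith
  · have h1 := c_from_E hc hK h
    have h2 : 0 ≤ (xx k)^(-(9/5:ℝ)) := by have := xx_pos k; positivity
    linarith

end Pool.Agent.Hhelper92.Ortho
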