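import Pool.Agent.Hhelper92.Ortho.CAsym

open Complex MeasureTheory Set Filter Topology
open scoped Real ComplexConjugate

namespace Pool.Agent.Hhelper92.Ortho

variable {c : ℕ → ℝ}

lemma norm_cx (k : ℕ) (z : ℂ) : ‖(c k : ℂ) * (xx k : ℂ)^z‖ = |c k| * (xx k)^z.re := by
  rw [norm_mul, Complex.norm_real, Real.norm_eq_abs, norm_cpow_eq_rpow_re_of_pos (xx_pos k)]

lemma summable_c_lt (hc : IsOrtho c) {a : ℝ} (ha : a < 4/5) : Summable fun k => |c k| * (xx k)^a := by
  obtain ⟨K, hK0, hK⟩ := c_decay hc
  have h1 : Summable fun k : ℕ => K * (xx k)^(-(9/5:ℝ) + a) := (summable_xx_rpow (by linarith)).mul_left K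
  refine h1.of_nonneg_of_le (fun k => by have := xx_pos k; positivity) (fun k => ?_)
  have := xx_pos k
  rw [Real.rpow_add this, ← mul_assoc]
  exact mul_le_mul_of_nonneg_right (hK k) (by positivity)

lemma Dser_hasSum (hc : IsOrtho c) {z : ℂ} (hz : z.re < 4/5) :
    HasSum (fun k => (c k : ℂ) * (xx k : ℂ)^z) (Dser c z) := by
  apply Summable.hasSum
  apply Summable.of_norm
  simp_rw [norm_cx]
  exact summable_c_lt hc hz

def Ub (b : ℝ) : Set ℂ := {z | -4 < z.re ∧ z.re < b}

lemma Ub_open (b : ℝ) : IsOpen (Ub b) :=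
  (isOpen_lt continuous_const Complex.continuous_re).inter (isOpen_lt Complex.continuous_re continuous_const)

lemma Ub_convex (b : ℝ) : Convex ℝ (Ub b) := (convex_halfSpace_re_gt (-4)).inter (convex_halfSpace_re_lt b)

lemma Dser_diffOn (hc : IsOrtho c) {b : ℝ} (hb : b < 4/5) : DifferentiableOn ℂ (Dser c) (Ub b) := by
  unfold Dser
  apply differentiableOn_tsum_of_summable_norm (u := fun k => |c k| * (xx k)^b + |c k| * (xx k)^(-4:ℝ))
  · exact (summable_c_lt hc hb).add (summable_c_lt hc (by norm_num))
  · intro k z _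
    apply DifferentiableAt.differentiableWithinAt
    apply DifferentiableAt.const_mul
    apply DifferentiableAt.const_cpow (by fun_prop)
    left; exact_mod_cast (xx_pos k).ne'
  · exact Ub_open b
  · intro k z hz
    rw [norm_cx, ← mul_add]
    apply mul_le_mul_of_nonneg_left _ (abs_nonneg _)
    have hx := xx_pos k
    have h1 : 0 ≤ (xx k)^b := by positivity
    have h2 : 0 ≤ (xx k)^(-4:ℝ) := by positivity
    rcases le_total 1 (xx k) with h | h
    · have : (xx k)^z.re ≤ (xx k)^b := Real.rpow_le_rpow_of_exponent_le h hz.2.le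
      linarith
    · have : (xx k)^z.re ≤ (xx k)^(-4:ℝ) := Real.rpow_le_rpow_of_exponent_ge hx h hz.1.le
      linarith

/-- extension of the functional relation -/
theorem Est_G' (hc : IsOrtho c) {z : ℂ} (hz1 : -4 < z.re) (hz2 : z.re < 4/5) :
    z * (1 - z) * (2 - z) * Est c z = - G z * Dser c z := by
  set b : ℝ := (max z.re (-1) + 4/5) / 2 with hb
  have hm : max z.re (-1) < 4/5 := max_lt hz2 (by norm_num)
  have hb1 : b < 4/5 := by rw [hb]; linarith
  have hb2 : z.re < b := by rw [hb]; linarith [le_max_left z.re (-1)]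
  have hb3 : -1 < b := by rw [hb]; linarith [le_max_right z.re (-1)]
  have hf : AnalyticOnNhd ℂ (fun z => z * (1 - z) * (2 - z) * Est c z) (Ub b) := by
    apply DifferentiableOn.analyticOnNhd _ (Ub_open b)
    intro w hw
    apply DifferentiableAt.differentiableWithinAt
    apply DifferentiableAt.mul (by fun_prop)
    exact Est_diff hc (by linarith [hw.2])
  have hg : AnalyticOnNhd ℂ (fun z => - G z * Dser c z) (Ub b) := by
    apply DifferentiableOn.analyticOnNhd _ (Ub_open b)
    apply DifferentiableOn.mul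
    · intro w hw
      apply DifferentiableAt.differentiableWithinAt
      exact (G_differentiableAt (by linarith [hw.2])).neg
    · exact Dser_diffOn hc hb1
  have h0 : (-3:ℂ) ∈ Ub b := by
    constructor
    · norm_num
    · norm_num; linarith
  have heq : (fun z => z * (1 - z) * (2 - z) * Est c z) =ᶠ[𝓝 (-3:ℂ)] (fun z => - G z * Dser c z) := by
    have hopen : IsOpen {w : ℂ | w.re < -2} := isOpen_lt Complex.continuous_re continuous_const
    filter_upwards [hopen.mem_nhds (show (-3:ℂ) ∈ {w : ℂ | w.re < -2} by norm_num)] with w hw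
    have hw' : w.re < -2 := hw
    exact Est_G (by linarith) (summable_c_rpow hc hw')
  have key := hf.eqOn_of_preconnected_of_eventuallyEq hg (Ub_convex b).isPreconnected h0 heq
  exact key ⟨hz1, hb2⟩

/-- `E^*(z) = 2 β(-z) D(z)` -/
theorem Est_nb (hc : IsOrtho c) {z : ℂ} (hz1 : -4 < z.re) (hz2 : z.re < 4/5) (him : z.im ≠ 0) :
    Est c z = 2 * nb (-z) * Dser c z := by
  have h := Est_G' hc hz1 hz2
  have h0 : z ≠ 0 := by intro h; apply him; rw [h]; simp
  have h1 : z ≠ 1 := by intro h; apply him; rw [h]; simp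
  have h2 : (1 - z) ≠ 0 := sub_ne_zero.mpr (Ne.symm h1)
  have h3 : (2 - z) ≠ 0 := by
    intro h; apply him
    have : z = 2 := by linear_combination -h
    rw [this]; simp
  rw [← gStar_formula (by linarith) h0 h1, gStar_eq] at h
  apply mul_left_cancel₀ (mul_ne_zero (mul_ne_zero h0 h2) h3)
  linear_combination h

lemma gStar_rho : gStar rho = 0 := by
  have him := rho_im_pos
  have h0 : rho ≠ 0 := by intro h; rw [h] at him; simp at him
  have h1 : rho ≠ 1 := by intro h; rw [h] at him; simp at him
  have h := gStar_formula (z := rho) (by linarith [rho_re_lt]) h0 h1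
  rw [G_rho] at h
  have h2 : (1 - rho) ≠ 0 := sub_ne_zero.mpr (Ne.symm h1)
  have h3 : (2 - rho) ≠ 0 := by
    intro h
    have : rho = 2 := by linear_combination -h
    rw [this] at him; simp at him
  exact (mul_eq_zero.mp h).resolve_left (mul_ne_zero h2 h3)

lemma rho_ne_zero : rho ≠ 0 := by
  have him := rho_im_pos
  intro h; rw [h] at him; simp at him

lemma one_sub_rho_ne : (1 - rho) ≠ 0 := by
  have him := rho_im_pos
  intro h
  have := congrArg Complex.im h
  simp at this; linarith

lemma nb_neg_rho : nb (-rho) = 0 := by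
  have h := gStar_rho
  rw [gStar_eq] at h
  exact (mul_eq_zero.mp h).resolve_left (mul_ne_zero (by norm_num) rho_ne_zero)

lemma nb_one_sub_rho : nb (1 - rho) = - (1 / rho) := by
  have h := nb_add_one (-rho)
  rw [nb_neg_rho, zero_add, one_div_neg_eq_neg_one_div] at h
  rw [← h]; congr 1; ring

lemma nb_two_sub_rho : nb (2 - rho) = 1 / (rho * (1 - rho)) := by
  have h := nb_add_one (1 - rho)
  rw [nb_one_sub_rho] at h
  have h2 : nb (2 - rho) = 1 / (1 - rho) + 1 / rho := by
    rw [show (2 - rho) = 1 - rho + 1 by ring]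
    linear_combination h
  rw [h2]
  have := rho_ne_zero
  have := one_sub_rho_ne
  field_simp
  ring

lemma Est_rho_sub_one (hc : IsOrtho c) : Est c (rho - 1) = - (2 / rho) * Dser c (rho - 1) := by
  have h1 := rho_re_lt
  have h2 := rho_re_gt
  have h3 := rho_im_pos
  rw [Est_nb hc (by simp; linarith) (by simp; linarith) (by simp; linarith)]
  rw [show -(rho - 1) = 1 - rho by ring, nb_one_sub_rho]
  ring

lemma Est_rho_sub_two (hc : IsOrtho c) : Est c (rho - 2) = 2 / (rho * (1 - rho)) * Dser c (rho - 2) := by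
  have h1 := rho_re_lt
  have h2 := rho_re_gt
  have h3 := rho_im_pos
  rw [Est_nb hc (by simp; linarith) (by simp; linarith) (by simp; linarith)]
  rw [show -(rho - 2) = 2 - rho by ring, nb_two_sub_rho]
  ring

end Pool.Agent.Hhelper92.Ortho
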