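import Pool.Agent.Hhelper92.Ortho.Dext

open Complex MeasureTheory Set Filter Topology
open scoped Real ComplexConjugate

namespace Pool.Agent.Hhelper92.Ortho

noncomputable def PP (t : ℝ) : ℝ := t * (t - 1/2) * (t - 1) / 6

lemma PP_abs {t : ℝ} (h0 : 0 ≤ t) (h1 : t ≤ 1) : |PP t| ≤ 1/120 := by
  have key : ∀ τ : ℝ, 0 ≤ τ → 0 ≤ τ^3 - τ/4 + 1/20 := by
    intro τ hτ
    nlinarith [mul_nonneg (sq_nonneg (τ - 0.29)) (by linarith : 0 ≤ τ + 0.58)]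
  unfold PP
  rw [abs_le]
  rcases le_total (1/2) t with h | h
  · have := key (t - 1/2) (by linarith)
    constructor
    · nlinarith
    · nlinarith [mul_nonneg (mul_nonneg h0 (by linarith : 0 ≤ t - 1/2)) (by linarith : 0 ≤ 1 - t)]
  · have := key (1/2 - t) (by linarith)
    constructor
    · nlinarith [mul_nonneg (mul_nonneg h0 (by linarith : 0 ≤ 1/2 - t)) (by linarith : 0 ≤ 1 - t)]
    · nlinarith

lemma em_unit {f f1 f2 f3 : ℝ → ℂ} {p : ℝ}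
    (h0 : ∀ y ∈ Icc p (p+1), HasDerivAt f (f1 y) y)
    (h1 : ∀ y ∈ Icc p (p+1), HasDerivAt f1 (f2 y) y)
    (h2 : ∀ y ∈ Icc p (p+1), HasDerivAt f2 (f3 y) y)
    (hc : ContinuousOn f3 (Icc p (p+1))) :
    ∫ y in p..(p+1), f y = (1/2) * (f p + f (p+1)) - (1/12) * (f1 (p+1) - f1 p)
      - ∫ y in p..(p+1), (PP (y-p) : ℂ) * f3 y := by
  have hle : p ≤ p + 1 := by linarith
  set Ψ : ℝ → ℂ := fun y => ((y - p - 1/2 : ℝ) : ℂ) * f y - (((y-p)^2/2 - (y-p)/2 + 1/12 : ℝ) : ℂ) * f1 y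
    + (PP (y-p) : ℂ) * f2 y with hΨ
  have hd : ∀ y ∈ uIcc p (p+1), HasDerivAt Ψ (f y + (PP (y-p) : ℂ) * f3 y) y := by
    intro y hy
    rw [uIcc_of_le hle] at hy
    have e1 : HasDerivAt (fun y : ℝ => ((y - p - 1/2 : ℝ) : ℂ)) 1 y := by
      have : HasDerivAt (fun y : ℝ => y - p - 1/2) 1 y := by
        simpa using ((hasDerivAt_id y).sub_const p).sub_const (1/2)
      exact_mod_cast this.ofReal_comp
    have e2 : HasDerivAt (fun y : ℝ => (((y-p)^2/2 - (y-p)/2 + 1/12 : ℝ) : ℂ)) ((y - p - 1/2 : ℝ) : ℂ) y := by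
      have hid : HasDerivAt (fun y : ℝ => y - p) 1 y := (hasDerivAt_id y).sub_const p
      have : HasDerivAt (fun y : ℝ => (y-p)^2/2 - (y-p)/2 + 1/12) (y - p - 1/2) y := by
        have h3 := (((hid.pow 2).div_const 2).sub (hid.div_const 2)).add_const (1/12)
        refine h3.congr_deriv ?_
        norm_num
      exact this.ofReal_comp
    have e3 : HasDerivAt (fun y : ℝ => (PP (y-p) : ℂ)) (((y-p)^2/2 - (y-p)/2 + 1/12 : ℝ) : ℂ) y := by
      have hid : HasDerivAt (fun y : ℝ => y - p) 1 y := (hasDerivAt_id y).sub_const p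
      have : HasDerivAt (fun y : ℝ => PP (y-p)) ((y-p)^2/2 - (y-p)/2 + 1/12) y := by
        unfold PP
        have h3 := ((hid.mul (hid.sub_const (1/2))).mul (hid.sub_const 1)).div_const 6
        refine h3.congr_deriv ?_
        simp only [Pi.mul_apply]
        ring
      exact this.ofReal_comp
    have h3 := ((e1.mul (h0 y hy)).sub (e2.mul (h1 y hy))).add (e3.mul (h2 y hy))
    refine h3.congr_deriv ?_
    push_cast
    ring
  have hcf : ContinuousOn f (Icc p (p+1)) := fun y hy => (h0 y hy).continuousAt.continuousWithinAt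
  have hcP : ContinuousOn (fun y : ℝ => (PP (y-p) : ℂ) * f3 y) (Icc p (p+1)) := by
    apply ContinuousOn.mul _ hc
    apply Continuous.continuousOn
    unfold PP
    fun_prop
  have hif : IntervalIntegrable f volume p (p+1) := by
    apply ContinuousOn.intervalIntegrable; rwa [uIcc_of_le hle]
  have hiP : IntervalIntegrable (fun y : ℝ => (PP (y-p) : ℂ) * f3 y) volume p (p+1) := by
    apply ContinuousOn.intervalIntegrable; rwa [uIcc_of_le hle]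
  have key := intervalIntegral.integral_eq_sub_of_hasDerivAt hd (hif.add hiP)
  rw [intervalIntegral.integral_add hif hiP] at key
  have e1 : Ψ (p+1) = (1/2) * f (p+1) - (1/12) * f1 (p+1) := by
    rw [hΨ]; simp only [PP]; push_cast; ring
  have e2 : Ψ p = -(1/2) * f p - (1/12) * f1 p := by
    rw [hΨ]; simp only [PP]; push_cast; ring
  rw [e1, e2] at key
  linear_combination key

lemma em_rem_bound {f3 : ℝ → ℂ} {g : ℝ → ℝ} {p : ℝ} (hg : ∀ y ∈ Icc p (p+1), ‖f3 y‖ ≤ g y)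
    (hgi : IntervalIntegrable g volume p (p+1)) :
    ‖∫ y in p..(p+1), (PP (y-p) : ℂ) * f3 y‖ ≤ (1/120) * ∫ y in p..(p+1), g y := by
  rw [← intervalIntegral.integral_const_mul]
  apply intervalIntegral.norm_integral_le_of_norm_le (by linarith)
  · refine Eventually.of_forall fun y hy => ?_
    rw [norm_mul, Complex.norm_real, Real.norm_eq_abs]
    exact mul_le_mul (PP_abs (by linarith [hy.1]) (by linarith [hy.2])) (hg y ⟨hy.1.le, hy.2⟩)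
      (norm_nonneg _) (by norm_num)
  · exact hgi.const_mul _

/-! ### the functions `φ(y) = 2 y^s/(y+x)` and derivatives -/

noncomputable def ph0 (s : ℂ) (x y : ℝ) : ℂ := 2 * ((y:ℂ)^s / ((y:ℂ) + x))
noncomputable def ph1 (s : ℂ) (x y : ℝ) : ℂ := 2 * (s * (y:ℂ)^(s-1) / ((y:ℂ) + x) - (y:ℂ)^s / ((y:ℂ) + x)^2)
noncomputable def ph2 (s : ℂ) (x y : ℝ) : ℂ := 2 * (s * (s-1) * (y:ℂ)^(s-2) / ((y:ℂ) + x)
  - 2 * s * (y:ℂ)^(s-1) / ((y:ℂ) + x)^2 + 2 * (y:ℂ)^s / ((y:ℂ) + x)^3)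
noncomputable def ph3 (s : ℂ) (x y : ℝ) : ℂ := 2 * (s * (s-1) * (s-2) * (y:ℂ)^(s-3) / ((y:ℂ) + x)
  - 3 * s * (s-1) * (y:ℂ)^(s-2) / ((y:ℂ) + x)^2 + 6 * s * (y:ℂ)^(s-1) / ((y:ℂ) + x)^3
  - 6 * (y:ℂ)^s / ((y:ℂ) + x)^4)

lemma hasDerivAt_cpow_real {s : ℂ} {y : ℝ} (hy : 0 < y) : HasDerivAt (fun y : ℝ => (y:ℂ)^s) (s * (y:ℂ)^(s-1)) y := by
  have h1 : HasDerivAt (fun z : ℂ => z^s) (s * (y:ℂ)^(s-1) * 1) (y:ℂ) := by
    apply (hasDerivAt_id (y:ℂ)).cpow_const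
    rw [id_eq, ofReal_mem_slitPlane]; exact hy
  rw [mul_one] at h1
  exact h1.comp_ofReal

lemma hasDerivAt_cpow_div {s : ℂ} {x y : ℝ} (hx : 0 < x) (hy : 0 < y) (n : ℕ) :
    HasDerivAt (fun y : ℝ => (y:ℂ)^s / ((y:ℂ) + x)^n)
      (s * (y:ℂ)^(s-1) / ((y:ℂ) + x)^n - n * (y:ℂ)^s / ((y:ℂ) + x)^(n+1)) y := by
  have h1 := hasDerivAt_cpow_real (s := s) hy
  have hne : ((y:ℂ) + x) ≠ 0 := by
    have : ((y + x : ℝ) : ℂ) ≠ 0 := by exact_mod_cast (by positivity : y + x ≠ 0)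
    push_cast at this; exact this
  have h2 : HasDerivAt (fun y : ℝ => (y:ℂ) + x) 1 y := by
    have : HasDerivAt (fun y : ℝ => (y:ℂ)) 1 y := by exact_mod_cast (hasDerivAt_id y).ofReal_comp
    exact this.add_const _
  have h3 := h2.pow n
  have h4 := h1.div h3 (pow_ne_zero n hne)
  refine h4.congr_deriv ?_
  simp only [Pi.pow_apply, mul_one]
  rcases Nat.eq_zero_or_pos n with h | h
  · subst h; simp
  · obtain ⟨m, rfl⟩ : ∃ m, n = m + 1 := ⟨n - 1, by omega⟩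
    simp only [Nat.add_sub_cancel]
    field_simp
    ring

lemma ph0_hasDerivAt {s : ℂ} {x y : ℝ} (hx : 0 < x) (hy : 0 < y) : HasDerivAt (ph0 s x) (ph1 s x y) y := by
  unfold ph0 ph1
  have h1 := (hasDerivAt_cpow_div (s := s) hx hy 1).const_mul 2
  refine (h1.congr_deriv ?_).congr_of_eventuallyEq (Eventually.of_forall fun y => ?_)
  · push_cast; ring
  · simp only [pow_one]

lemma ph1_hasDerivAt {s : ℂ} {x y : ℝ} (hx : 0 < x) (hy : 0 < y) : HasDerivAt (ph1 s x) (ph2 s x y) y := by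
  unfold ph1 ph2
  have h1 := (((hasDerivAt_cpow_div (s := s-1) hx hy 1).const_mul s).sub (hasDerivAt_cpow_div (s := s) hx hy 2)).const_mul 2
  refine (h1.congr_deriv ?_).congr_of_eventuallyEq (Eventually.of_forall fun y => ?_)
  · rw [show s - 1 - 1 = s - 2 by ring]
    push_cast; ring
  · simp only [pow_one, Pi.sub_apply]; ring

lemma ph2_hasDerivAt {s : ℂ} {x y : ℝ} (hx : 0 < x) (hy : 0 < y) : HasDerivAt (ph2 s x) (ph3 s x y) y := by
  unfold ph2 ph3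
  have h1 := ((((hasDerivAt_cpow_div (s := s-2) hx hy 1).const_mul (s * (s-1))).sub
    ((hasDerivAt_cpow_div (s := s-1) hx hy 2).const_mul (2 * s))).add
    ((hasDerivAt_cpow_div (s := s) hx hy 3).const_mul 2)).const_mul 2
  refine (h1.congr_deriv ?_).congr_of_eventuallyEq (Eventually.of_forall fun y => ?_)
  · rw [show s - 1 - 1 = s - 2 by ring, show s - 2 - 1 = s - 3 by ring]
    push_cast; ring
  · simp only [pow_one, Pi.sub_apply, Pi.add_apply]; ring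

lemma ph3_continuousAt {s : ℂ} {x y : ℝ} (hx : 0 < x) (hy : 0 < y) : ContinuousAt (ph3 s x) y := by
  unfold ph3
  have h : ∀ (r : ℂ) (n : ℕ), ContinuousAt (fun y : ℝ => (y:ℂ)^r / ((y:ℂ) + x)^n) y :=
    fun r n => (hasDerivAt_cpow_div (s := r) hx hy n).continuousAt
  have h1 := ((((h (s-3) 1).const_mul (s * (s-1) * (s-2))).sub ((h (s-2) 2).const_mul (3 * s * (s-1)))).add
    ((h (s-1) 3).const_mul (6 * s))).sub ((h s 4).const_mul 6) |>.const_mul 2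
  refine h1.congr (Eventually.of_forall fun y => ?_)
  simp only [pow_one, Pi.sub_apply, Pi.add_apply]
  ring

/-- real majorant of `‖ph3‖` -/
noncomputable def mj (s : ℂ) (x y : ℝ) : ℝ := 2 * (‖s * (s-1) * (s-2)‖ * (y^(s.re-3) / (y + x))
  + 3 * ‖s * (s-1)‖ * (y^(s.re-2) / (y + x)^2) + 6 * ‖s‖ * (y^(s.re-1) / (y + x)^3)
  + 6 * (y^s.re / (y + x)^4))

lemma norm_ph3_le {s : ℂ} {x y : ℝ} (hx : 0 < x) (hy : 0 < y) : ‖ph3 s x y‖ ≤ mj s x y := by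
  unfold ph3 mj
  have hn : ∀ (r : ℂ) (n : ℕ), ‖(y:ℂ)^r / ((y:ℂ) + x)^n‖ = y^r.re / (y + x)^n := by
    intro r n
    rw [norm_div, norm_pow, norm_cpow_eq_rpow_re_of_pos hy]
    congr 2
    rw [← Complex.ofReal_add, Complex.norm_real, Real.norm_of_nonneg (by positivity)]
  have e1 := hn (s-3) 1
  have e2 := hn (s-2) 2
  have e3 := hn (s-1) 3
  have e4 := hn s 4
  simp only [sub_re, pow_one] at e1 e2 e3
  have r3 : (3:ℂ).re = 3 := by norm_num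
  have r2 : (2:ℂ).re = 2 := by norm_num
  rw [r3] at e1
  rw [r2] at e2
  rw [one_re] at e3
  have h1 : ‖s * (s-1) * (s-2) * (y:ℂ)^(s-3) / ((y:ℂ) + x)‖ = ‖s * (s-1) * (s-2)‖ * (y^(s.re-3) / (y + x)) := by
    rw [mul_div_assoc, norm_mul, e1]
  have h2 : ‖3 * s * (s-1) * (y:ℂ)^(s-2) / ((y:ℂ) + x)^2‖ = 3 * ‖s * (s-1)‖ * (y^(s.re-2) / (y + x)^2) := by
    rw [mul_div_assoc, norm_mul, e2, mul_assoc, norm_mul]; norm_num
  have h3 : ‖6 * s * (y:ℂ)^(s-1) / ((y:ℂ) + x)^3‖ = 6 * ‖s‖ * (y^(s.re-1) / (y + x)^3) := by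
    rw [mul_div_assoc, norm_mul, e3, norm_mul]; norm_num
  have h4 : ‖6 * (y:ℂ)^s / ((y:ℂ) + x)^4‖ = 6 * (y^s.re / (y + x)^4) := by
    rw [mul_div_assoc, norm_mul, e4]; norm_num
  rw [norm_mul]
  have : ‖(2:ℂ)‖ = 2 := by norm_num
  rw [this]
  apply mul_le_mul_of_nonneg_left _ (by norm_num)
  calc _ ≤ ‖s * (s-1) * (s-2) * (y:ℂ)^(s-3) / ((y:ℂ) + x) - 3 * s * (s-1) * (y:ℂ)^(s-2) / ((y:ℂ) + x)^2
        + 6 * s * (y:ℂ)^(s-1) / ((y:ℂ) + x)^3‖ + ‖6 * (y:ℂ)^s / ((y:ℂ) + x)^4‖ := norm_sub_le _ _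
    _ ≤ (‖s * (s-1) * (s-2) * (y:ℂ)^(s-3) / ((y:ℂ) + x) - 3 * s * (s-1) * (y:ℂ)^(s-2) / ((y:ℂ) + x)^2‖
        + ‖6 * s * (y:ℂ)^(s-1) / ((y:ℂ) + x)^3‖) + ‖6 * (y:ℂ)^s / ((y:ℂ) + x)^4‖ := by
          gcongr; exact norm_add_le _ _
    _ ≤ ((‖s * (s-1) * (s-2) * (y:ℂ)^(s-3) / ((y:ℂ) + x)‖ + ‖3 * s * (s-1) * (y:ℂ)^(s-2) / ((y:ℂ) + x)^2‖)
        + ‖6 * s * (y:ℂ)^(s-1) / ((y:ℂ) + x)^3‖) + ‖6 * (y:ℂ)^s / ((y:ℂ) + x)^4‖ := by
          gcongr; exact norm_sub_le _ _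
    _ = _ := by rw [h1, h2, h3, h4]

end Pool.Agent.Hhelper92.Ortho
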