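import Pool.Agent.Hhelper92.Ortho.EMsum

open Complex MeasureTheory Set Filter Topology
open scoped Real ComplexConjugate

namespace Pool.Agent.Hhelper92.Ortho

variable {c : ℕ → ℝ}

lemma YY_decay (hc : IsOrtho c) : ∃ K, 0 ≤ K ∧ ∀ y, 0 < y → |YY c y| ≤ K * y^(-(4/5:ℝ)) := by
  obtain ⟨K, hK0, hK⟩ := EE_decay hc
  exact boot hc hK (by norm_num) (by norm_num) (by norm_num) le_rfl

lemma ph1_alt {s : ℂ} {x y : ℝ} (hx : 0 < x) (hy : 0 < y) :
    ph1 s x y = ((2 * x / (y + x)^2 : ℝ) : ℂ) * (y:ℂ)^(s-1) + ((2 * y / (y + x) : ℝ) : ℂ) * ((s-1) * (y:ℂ)^(s-2)) := by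
  unfold ph1
  have hyc : (y:ℂ) ≠ 0 := by exact_mod_cast hy.ne'
  have hne : ((y:ℂ) + x) ≠ 0 := by
    have : ((y + x : ℝ) : ℂ) ≠ 0 := by exact_mod_cast (by positivity : y + x ≠ 0)
    push_cast at this; exact this
  have h1 : (y:ℂ)^(s-1) = (y:ℂ) * (y:ℂ)^(s-2) := by
    rw [show s - 1 = (s - 2) + 1 by ring, Complex.cpow_add _ _ hyc, Complex.cpow_one]; ring
  have h2 : (y:ℂ)^s = (y:ℂ)^2 * (y:ℂ)^(s-2) := by
    rw [show s = (s - 2) + 1 + 1 by ring, Complex.cpow_add _ _ hyc, Complex.cpow_add _ _ hyc, Complex.cpow_one,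
      show s - 2 + 1 + 1 - 2 = s - 2 by ring]
    ring
  rw [h1, h2]
  push_cast
  generalize (y:ℂ)^(s-2) = Z
  field_simp
  ring

lemma Sg1_eq {s : ℂ} (n : ℕ) {y : ℝ} (hy : 0 < y) :
    Sg ph1 c s n y = (FF' c n y : ℂ) * (y:ℂ)^(s-1) + (FF c n y : ℂ) * ((s-1) * (y:ℂ)^(s-2)) := by
  unfold Sg FF FF'
  push_cast
  rw [Finset.sum_mul, Finset.sum_mul, ← Finset.sum_add_distrib]
  apply Finset.sum_congr rfl
  intro k _
  rw [ph1_alt (xx_pos k) hy]
  push_cast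
  ring

lemma tendsto_xx : Tendsto xx atTop atTop := by
  unfold xx
  exact tendsto_atTop_add_const_right _ _ tendsto_natCast_atTop_atTop

lemma Sg1_tendsto (hc : IsOrtho c) {s : ℂ} (hs : s.re < 9/5) :
    Tendsto (fun m => Sg ph1 c s (m+1) (xx (m+1))) atTop (𝓝 0) := by
  obtain ⟨K1, hK1, h1⟩ := YY_decay hc
  obtain ⟨K2, hK2, h2⟩ := c_decay hc
  have hlim : Tendsto (fun m : ℕ => ((K1 + K2) + K2 * ‖s - 1‖) * (xx (m+1))⁻¹) atTop (𝓝 0) := by
    have h3 : Tendsto (fun m : ℕ => (xx (m+1))⁻¹) atTop (𝓝 0) :=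
      tendsto_inv_atTop_zero.comp (tendsto_xx.comp (tendsto_add_atTop_nat 1))
    simpa using h3.const_mul ((K1 + K2) + K2 * ‖s - 1‖)
  apply squeeze_zero_norm _ hlim
  intro m
  set x := xx (m+1) with hxdef
  have hx0 : 0 < x := xx_pos _
  have hx1 : 1 ≤ x := by rw [hxdef, xx_succ]; linarith [xx_pos m]
  rw [Sg1_eq _ hx0]
  have hFF : FF c (m+1) x = - c (m+1) := FF_xx_pred hc m
  have hFF' : |FF' c (m+1) x| ≤ (K1 + K2) * x^(-(9/5:ℝ)) := by
    have e1 : FF' c (m+1+1) x = FF' c (m+1) x + c (m+1) * (2 * x / (x + x)^2) := by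
      unfold FF'; rw [Finset.sum_range_succ]
    have e2 := YY_eq_FF (c := c) (n := m+1) (u := x) le_rfl (by rw [xx_succ]; linarith)
    have e3 : 2 * x / (x + x)^2 = 1 / (2 * x) := by field_simp; ring
    rw [e3] at e1
    have e4 : FF' c (m+1) x = YY c x / x - c (m+1) * (1 / (2 * x)) := by
      rw [e2, mul_div_cancel_left₀ _ hx0.ne', e1]; ring
    rw [e4]
    have e5 := h1 x hx0
    have e6 := h2 (m+1)
    rw [← hxdef] at e6
    have e7 : |YY c x / x| ≤ K1 * x^(-(9/5:ℝ)) := by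
      rw [abs_div, abs_of_pos hx0, div_le_iff₀ hx0]
      refine e5.trans (le_of_eq ?_)
      rw [mul_assoc]
      congr 1
      nth_rewrite 3 [← Real.rpow_one x]
      rw [← Real.rpow_add hx0]; norm_num
    have e8 : |c (m+1) * (1 / (2 * x))| ≤ K2 * x^(-(9/5:ℝ)) := by
      rw [abs_mul, abs_of_pos (by positivity : 0 < 1 / (2 * x))]
      have : 1 / (2 * x) ≤ 1 := by rw [div_le_one (by positivity)]; linarith
      calc |c (m+1)| * (1 / (2 * x)) ≤ |c (m+1)| * 1 := mul_le_mul_of_nonneg_left this (abs_nonneg _)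
        _ ≤ _ := by rw [mul_one]; exact e6
    have := abs_sub (YY c x / x) (c (m+1) * (1 / (2 * x)))
    linarith
  refine (norm_add_le _ _).trans ?_
  have hp1 : x^(-(9/5:ℝ)) * x^(s.re - 1) ≤ x⁻¹ := by
    rw [← Real.rpow_add hx0, ← Real.rpow_neg_one]
    exact Real.rpow_le_rpow_of_exponent_le hx1 (by linarith)
  have hp2 : x^(-(9/5:ℝ)) * x^(s.re - 2) ≤ x⁻¹ := by
    rw [← Real.rpow_add hx0, ← Real.rpow_neg_one]
    exact Real.rpow_le_rpow_of_exponent_le hx1 (by linarith)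
  have f1 : ‖(FF' c (m+1) x : ℂ) * (x:ℂ)^(s-1)‖ ≤ (K1 + K2) * x⁻¹ := by
    rw [norm_mul, Complex.norm_real, Real.norm_eq_abs, norm_cpow_eq_rpow_re_of_pos hx0, sub_re, one_re]
    calc _ ≤ ((K1 + K2) * x^(-(9/5:ℝ))) * x^(s.re - 1) := mul_le_mul_of_nonneg_right hFF' (by positivity)
      _ = (K1 + K2) * (x^(-(9/5:ℝ)) * x^(s.re - 1)) := by ring
      _ ≤ _ := mul_le_mul_of_nonneg_left hp1 (by positivity)
  have f2 : ‖(FF c (m+1) x : ℂ) * ((s-1) * (x:ℂ)^(s-2))‖ ≤ K2 * ‖s - 1‖ * x⁻¹ := by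
    have r2 : (2:ℂ).re = 2 := by norm_num
    rw [norm_mul, norm_mul, Complex.norm_real, Real.norm_eq_abs, norm_cpow_eq_rpow_re_of_pos hx0, sub_re, r2, hFF, abs_neg]
    have e6 := h2 (m+1)
    rw [← hxdef] at e6
    calc _ ≤ (K2 * x^(-(9/5:ℝ))) * (‖s - 1‖ * x^(s.re - 2)) := mul_le_mul_of_nonneg_right e6 (by positivity)
      _ = K2 * ‖s - 1‖ * (x^(-(9/5:ℝ)) * x^(s.re - 2)) := by ring
      _ ≤ _ := mul_le_mul_of_nonneg_left hp2 (by positivity)
  rw [add_mul]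
  exact add_le_add f1 f2

lemma Est_tendsto (hc : IsOrtho c) {s : ℂ} (hs : s.re < 9/5) :
    Tendsto (fun m : ℕ => ∫ y in (xx 0)..(xx (m+1)), (EE c y : ℂ) * (y:ℂ)^(s-1)) atTop (𝓝 (Est c s)) := by
  have hconv := Est_conv hc hs
  have hx0 : (0:ℝ) < xx 0 := xx_pos 0
  have h1 : Est c s = ∫ y in Ioi (xx 0), (EE c y : ℂ) * (y:ℂ)^(s-1) := by
    unfold Est mellin
    have hsub : Ioi (xx 0) ⊆ Ioi (0:ℝ) := Ioi_subset_Ioi hx0.le
    have h2 : ∫ y in Ioi (0:ℝ), (y:ℂ)^(s-1) • (EE c y : ℂ) = ∫ y in Ioi (xx 0), (y:ℂ)^(s-1) • (EE c y : ℂ) := by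
      symm
      have hz : ∀ᵐ y : ℝ, y ≠ xx 0 := by rw [ae_iff]; simp
      rw [← integral_indicator measurableSet_Ioi, ← integral_indicator measurableSet_Ioi]
      apply integral_congr_ae
      filter_upwards [hz] with y hy
      by_cases h3 : y ∈ Ioi (xx 0)
      · rw [indicator_of_mem h3, indicator_of_mem (hsub h3)]
      · rw [indicator_of_notMem h3]
        by_cases h4 : y ∈ Ioi (0:ℝ)
        · rw [indicator_of_mem h4]
          have h5 : y < 1/2 := by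
            have : y ≤ xx 0 := not_lt.mp h3
            have h6 : xx 0 = 1/2 := by unfold xx; simp
            rw [← h6]
            exact lt_of_le_of_ne this hy
          rw [(EE_good hc).zero y h5]; simp
        · rw [indicator_of_notMem h4]
    rw [h2]
    apply setIntegral_congr_fun measurableSet_Ioi
    intro y _
    simp only [smul_eq_mul]; ring
  rw [h1]
  apply intervalIntegral_tendsto_integral_Ioi
  · have h2 : IntegrableOn (fun y : ℝ => (y:ℂ)^(s-1) • (EE c y : ℂ)) (Ioi (xx 0)) :=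
      hconv.mono_set (Ioi_subset_Ioi hx0.le)
    refine h2.congr_fun (fun y _ => ?_) measurableSet_Ioi
    simp only [smul_eq_mul]; ring
  · exact tendsto_xx.comp (tendsto_add_atTop_nat 1)

theorem em_limit (hc : IsOrtho c) {s : ℂ} (hs : s.re < 9/5) {B : ℝ} (hB0 : 0 ≤ B)
    (hB : ∀ Z : ℝ, 1 ≤ Z → ∫ u in (1:ℝ)..Z, mj s 1 u ≤ B) :
    ‖Est c s - (xx 0 : ℂ)^(s-1) + (1/2) * Dser c (s-1) - ((s - 1/2)/12) * Dser c (s-2)‖
      ≤ (B / 120) * ∑' k, |c k| * (xx k)^(s.re - 3) := by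
  have hsum : Summable fun k => |c k| * (xx k)^(s.re - 3) := summable_c_lt hc (by linarith)
  have t1 := Est_tendsto hc hs
  have t2 : Tendsto (fun m : ℕ => ∑ k ∈ Finset.range (m+2), (c k : ℂ) * (xx k : ℂ)^(s-1)) atTop (𝓝 (Dser c (s-1))) :=
    (Dser_hasSum hc (z := s - 1) (by simp; linarith)).tendsto_sum_nat.comp (tendsto_add_atTop_nat 2)
  have t3 := Sg1_tendsto hc hs
  have t4 : Tendsto (fun m : ℕ => ∑ k ∈ Finset.range (m+1), (c k : ℂ) * (xx k : ℂ)^(s-2)) atTop (𝓝 (Dser c (s-2))) :=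
    (Dser_hasSum hc (z := s - 2) (by simp; linarith)).tendsto_sum_nat.comp (tendsto_add_atTop_nat 1)
  have t5 := ((((t1.sub_const ((xx 0 : ℂ)^(s-1))).add (t2.const_mul (1/2))).add (t3.const_mul (1/12))).sub
    (t4.const_mul ((s - 1/2)/12))).norm
  rw [mul_zero, add_zero] at t5
  apply le_of_tendsto t5
  refine Eventually.of_forall fun m => ?_
  have h1 : (∫ y in (xx 0)..(xx (m+1)), (EE c y : ℂ) * (y:ℂ)^(s-1)) - (xx 0 : ℂ)^(s-1)
      + (1/2) * ∑ k ∈ Finset.range (m+2), (c k : ℂ) * (xx k : ℂ)^(s-1) + (1/12) * Sg ph1 c s (m+1) (xx (m+1))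
      - ((s - 1/2)/12) * ∑ k ∈ Finset.range (m+1), (c k : ℂ) * (xx k : ℂ)^(s-2)
      = - ∑ n ∈ Finset.range (m+1), Rem c s n := by
    rw [em_sum hc hs m]; ring
  rw [h1, norm_neg]
  refine (Rem_sum_bound s (m+1)).trans ?_
  have h2 : ∑ k ∈ Finset.range (m+1), |c k| * ∫ y in (xx k)..(xx (m+1)), mj s (xx k) y
      ≤ ∑ k ∈ Finset.range (m+1), B * (|c k| * (xx k)^(s.re - 3)) := by
    apply Finset.sum_le_sum
    intro k hk
    have h3 := mj_int_bound hB (xx_pos k) (X := xx (m+1)) (xx_le_xx (Finset.mem_range.mp hk).le)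
    calc _ ≤ |c k| * ((xx k)^(s.re - 3) * B) := mul_le_mul_of_nonneg_left h3 (abs_nonneg _)
      _ = _ := by ring
  have h3 : ∑ k ∈ Finset.range (m+1), B * (|c k| * (xx k)^(s.re - 3)) ≤ B * ∑' k, |c k| * (xx k)^(s.re - 3) := by
    rw [← Finset.mul_sum]
    apply mul_le_mul_of_nonneg_left _ hB0
    apply hsum.sum_le_tsum
    intro k _
    have := xx_pos k
    positivity
  calc _ ≤ (1/120) * (B * ∑' k, |c k| * (xx k)^(s.re - 3)) := by
        apply mul_le_mul_of_nonneg_left (h2.trans h3) (by norm_num)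
    _ = _ := by ring

end Pool.Agent.Hhelper92.Ortho
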