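import Pool.Agent.Hhelper92.Ortho.EMac

open Complex MeasureTheory Set Filter Topology
open scoped Real ComplexConjugate

namespace Pool.Agent.Hhelper92.Ortho

variable {c : ℕ → ℝ}

noncomputable def Sg (ph : ℂ → ℝ → ℝ → ℂ) (c : ℕ → ℝ) (s : ℂ) (n : ℕ) (y : ℝ) : ℂ :=
  ∑ k ∈ Finset.range n, (c k : ℂ) * ph s (xx k) y

lemma Sg0_eq {s : ℂ} (n : ℕ) {y : ℝ} (hy : 0 < y) : Sg ph0 c s n y = (FF c n y : ℂ) * (y:ℂ)^(s-1) := by
  unfold Sg FF ph0
  push_cast
  rw [Finset.sum_mul]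
  apply Finset.sum_congr rfl
  intro k _
  have hyc : (y:ℂ) ≠ 0 := by exact_mod_cast hy.ne'
  have h1 : (y:ℂ)^s = (y:ℂ) * (y:ℂ)^(s-1) := by
    rw [Complex.cpow_sub _ _ hyc, Complex.cpow_one]
    field_simp
  rw [h1]
  ring

lemma Sg_hasDerivAt {ph ph' : ℂ → ℝ → ℝ → ℂ} {s : ℂ} {n : ℕ} {y : ℝ} (hy : 0 < y)
    (h : ∀ x : ℝ, 0 < x → HasDerivAt (ph s x) (ph' s x y) y) :
    HasDerivAt (Sg ph c s n) (Sg ph' c s n y) y := by
  unfold Sg
  apply HasDerivAt.fun_sum
  intro k _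
  exact (h _ (xx_pos k)).const_mul _

lemma xx_succ (n : ℕ) : xx (n+1) = xx n + 1 := by unfold xx; push_cast; ring

noncomputable def Rem (c : ℕ → ℝ) (s : ℂ) (n : ℕ) : ℂ :=
  ∫ y in (xx n)..(xx n + 1), (PP (y - xx n) : ℂ) * Sg ph3 c s (n+1) y

lemma em_step (s : ℂ) (n : ℕ) :
    ∫ y in (xx n)..(xx (n+1)), (EE c y : ℂ) * (y:ℂ)^(s-1)
      = (1/2) * (Sg ph0 c s (n+1) (xx n) + Sg ph0 c s (n+1) (xx (n+1)))
        - (1/12) * (Sg ph1 c s (n+1) (xx (n+1)) - Sg ph1 c s (n+1) (xx n)) - Rem c s n := by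
  have hx := xx_pos n
  have h1 : ∫ y in (xx n)..(xx (n+1)), (EE c y : ℂ) * (y:ℂ)^(s-1) = ∫ y in (xx n)..(xx (n+1)), Sg ph0 c s (n+1) y := by
    apply intervalIntegral.integral_congr_ae
    have h2 : ∀ᵐ y : ℝ, y ≠ xx (n+1) := by
      rw [ae_iff]; simp
    filter_upwards [h2] with y hy1 hy2
    rw [uIoc_of_le (by rw [xx_succ]; linarith)] at hy2
    have hy3 : y < xx (n+1) := lt_of_le_of_ne hy2.2 hy1
    rw [Sg0_eq _ (hx.trans hy2.1), EE_eq_FF hy2.1.le hy3]
  rw [h1, xx_succ]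
  unfold Rem
  apply em_unit (f2 := Sg ph2 c s (n+1))
  · intro y hy
    have : 0 < y := hx.trans_le hy.1
    exact Sg_hasDerivAt this (fun x hx => ph0_hasDerivAt hx this)
  · intro y hy
    have : 0 < y := hx.trans_le hy.1
    exact Sg_hasDerivAt this (fun x hx => ph1_hasDerivAt hx this)
  · intro y hy
    have : 0 < y := hx.trans_le hy.1
    exact Sg_hasDerivAt this (fun x hx => ph2_hasDerivAt hx this)
  · intro y hy
    have : 0 < y := hx.trans_le hy.1
    apply ContinuousAt.continuousWithinAt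
    unfold Sg
    apply tendsto_finsetSum
    intro k _
    exact (ph3_continuousAt (xx_pos k) this).const_mul _

lemma Sg0_self (hc : IsOrtho c) {s : ℂ} {n : ℕ} (hn : 1 ≤ n) : Sg ph0 c s (n+1) (xx n) = 0 := by
  rw [Sg0_eq _ (xx_pos n), FF_xx hc hn]; simp

lemma FF_xx_pred (hc : IsOrtho c) (n : ℕ) : FF c (n+1) (xx (n+1)) = - c (n+1) := by
  have hxp := xx_pos (n+1)
  have h2 := FF_xx hc (N := n+1) (by omega)
  unfold FF at h2 ⊢
  rw [Finset.sum_range_succ] at h2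
  have h3 : 2 * xx (n+1) / (xx (n+1) + xx (n+1)) = 1 := by field_simp; norm_num
  rw [h3] at h2
  linarith

lemma Sg0_next (hc : IsOrtho c) {s : ℂ} (n : ℕ) :
    Sg ph0 c s (n+1) (xx (n+1)) = - ((c (n+1) : ℂ) * (xx (n+1) : ℂ)^(s-1)) := by
  rw [Sg0_eq _ (xx_pos _), FF_xx_pred hc]; push_cast; ring

lemma Sg0_zero (hc : IsOrtho c) {s : ℂ} : Sg ph0 c s 1 (xx 0) = (xx 0 : ℂ)^(s-1) := by
  rw [Sg0_eq _ (xx_pos _)]
  have : FF c 1 (xx 0) = 1 := by
    unfold FF xx
    simp [hc.zero]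
    norm_num
  rw [this]; simp

lemma ph1_self {s : ℂ} {x : ℝ} (hx : 0 < x) : ph1 s x x = (s - 1/2) * (x:ℂ)^(s-2) := by
  unfold ph1
  have hxc : (x:ℂ) ≠ 0 := by exact_mod_cast hx.ne'
  have h1 : (x:ℂ)^(s-1) = (x:ℂ) * (x:ℂ)^(s-2) := by
    rw [show s - 1 = (s - 2) + 1 by ring, Complex.cpow_add _ _ hxc, Complex.cpow_one]; ring
  have h2 : (x:ℂ)^s = (x:ℂ)^2 * (x:ℂ)^(s-2) := by
    rw [show s = (s - 2) + 1 + 1 by ring, Complex.cpow_add _ _ hxc, Complex.cpow_add _ _ hxc, Complex.cpow_one,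
      show s - 2 + 1 + 1 - 2 = s - 2 by ring]
    ring
  rw [h1, h2]
  have h3 : ((x:ℂ) + x) ≠ 0 := by
    rw [← two_mul]; exact mul_ne_zero two_ne_zero hxc
  field_simp
  ring

lemma EEpow_intervalIntegrable (hc : IsOrtho c) {s : ℂ} (hs : s.re < 9/5) {a b : ℝ} (ha : 0 < a) (hb : 0 < b) :
    IntervalIntegrable (fun y => (EE c y : ℂ) * (y:ℂ)^(s-1)) volume a b := by
  have h := Est_conv hc hs
  unfold MellinConvergent at h
  rw [intervalIntegrable_iff]
  have h2 : IntegrableOn (fun y : ℝ => (y:ℂ)^(s-1) • (EE c y : ℂ)) (uIoc a b) := by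
    apply h.mono_set
    intro y hy
    rw [uIoc] at hy
    exact (lt_min ha hb).trans hy.1
  refine h2.congr_fun (fun y _ => ?_) measurableSet_uIoc
  simp only [smul_eq_mul]; ring

theorem em_sum (hc : IsOrtho c) {s : ℂ} (hs : s.re < 9/5) (m : ℕ) :
    ∫ y in (xx 0)..(xx (m+1)), (EE c y : ℂ) * (y:ℂ)^(s-1)
      = (xx 0 : ℂ)^(s-1) - (1/2) * ∑ k ∈ Finset.range (m+2), (c k : ℂ) * (xx k : ℂ)^(s-1)
        - (1/12) * Sg ph1 c s (m+1) (xx (m+1))
        + ((s - 1/2)/12) * ∑ k ∈ Finset.range (m+1), (c k : ℂ) * (xx k : ℂ)^(s-2)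
        - ∑ n ∈ Finset.range (m+1), Rem c s n := by
  induction m with
  | zero =>
    rw [em_step, Sg0_zero hc, Sg0_next hc]
    simp only [zero_add, Finset.sum_range_succ, Finset.sum_range_zero]
    have h1 : Sg ph1 c s 1 (xx 0) = (s - 1/2) * (xx 0 : ℂ)^(s-2) := by
      unfold Sg
      rw [Finset.sum_range_one, ph1_self (xx_pos 0), hc.zero]; push_cast; ring
    rw [h1, hc.zero]
    push_cast
    ring
  | succ m ih =>
    have hx := xx_pos 0
    have hx1 := xx_pos (m+1)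
    have hx2 := xx_pos (m+1+1)
    rw [← intervalIntegral.integral_add_adjacent_intervals (b := xx (m+1))
      (EEpow_intervalIntegrable hc hs hx hx1) (EEpow_intervalIntegrable hc hs hx1 hx2)]
    rw [ih, em_step, Sg0_self hc (by omega), Sg0_next hc]
    have h1 : Sg ph1 c s (m+1+1) (xx (m+1)) = Sg ph1 c s (m+1) (xx (m+1))
        + (c (m+1) : ℂ) * ((s - 1/2) * (xx (m+1) : ℂ)^(s-2)) := by
      unfold Sg
      rw [Finset.sum_range_succ _ (m+1), ph1_self hx1]
    rw [h1]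
    rw [Finset.sum_range_succ _ (m+1+1)]
    rw [Finset.sum_range_succ (fun k => (c k : ℂ) * (xx k : ℂ)^(s-2)) (m+1)]
    rw [Finset.sum_range_succ (fun n => Rem c s n) (m+1)]
    ring

/-! ### the remainder -/

lemma mj_continuousAt {s : ℂ} {x y : ℝ} (hx : 0 < x) (hy : 0 < y) : ContinuousAt (mj s x) y := by
  unfold mj
  have h : ∀ (r : ℝ) (n : ℕ), ContinuousAt (fun y : ℝ => y^r / (y + x)^n) y := by
    intro r n
    apply ContinuousAt.div
    · exact Real.continuousAt_rpow_const _ _ (Or.inl hy.ne')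
    · fun_prop
    · positivity
  have h1 := (((((h (s.re-3) 1).const_mul ‖s * (s-1) * (s-2)‖).add ((h (s.re-2) 2).const_mul (3 * ‖s * (s-1)‖))).add
    ((h (s.re-1) 3).const_mul (6 * ‖s‖))).add ((h s.re 4).const_mul 6)).const_mul 2
  refine h1.congr (Eventually.of_forall fun y => ?_)
  simp only [pow_one, Pi.add_apply]

lemma mj_intervalIntegrable {s : ℂ} {x a b : ℝ} (hx : 0 < x) (ha : 0 < a) (hab : a ≤ b) :
    IntervalIntegrable (mj s x) volume a b := by
  apply ContinuousOn.intervalIntegrable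
  rw [uIcc_of_le hab]
  intro y hy
  exact (mj_continuousAt hx (ha.trans_le hy.1)).continuousWithinAt

lemma mj_nonneg {s : ℂ} {x y : ℝ} (hx : 0 < x) (hy : 0 < y) : 0 ≤ mj s x y := by
  unfold mj; positivity

lemma Rem_bound (s : ℂ) (n : ℕ) :
    ‖Rem c s n‖ ≤ (1/120) * ∑ k ∈ Finset.range (n+1), |c k| * ∫ y in (xx n)..(xx (n+1)), mj s (xx k) y := by
  have hx := xx_pos n
  unfold Rem
  have h1 : ∫ y in (xx n)..(xx n + 1), ∑ k ∈ Finset.range (n+1), |c k| * mj s (xx k) y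
      = ∑ k ∈ Finset.range (n+1), |c k| * ∫ y in (xx n)..(xx (n+1)), mj s (xx k) y := by
    rw [intervalIntegral.integral_finsetSum]
    · apply Finset.sum_congr rfl
      intro k _
      rw [intervalIntegral.integral_const_mul, xx_succ]
    · intro k _
      exact (mj_intervalIntegrable (xx_pos k) hx (by linarith)).const_mul _
  rw [← h1]
  apply em_rem_bound
  · intro y hy
    have hy0 : 0 < y := hx.trans_le hy.1
    unfold Sg
    refine (norm_sum_le _ _).trans ?_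
    apply Finset.sum_le_sum
    intro k _
    rw [norm_mul, Complex.norm_real, Real.norm_eq_abs]
    exact mul_le_mul_of_nonneg_left (norm_ph3_le (xx_pos k) hy0) (abs_nonneg _)
  · apply ContinuousOn.intervalIntegrable
    rw [uIcc_of_le (by linarith)]
    intro y hy
    have hy0 : 0 < y := hx.trans_le hy.1
    apply ContinuousAt.continuousWithinAt
    apply tendsto_finsetSum
    intro k _
    exact (mj_continuousAt (xx_pos k) hy0).const_mul _

lemma xx_le_xx {a b : ℕ} (h : a ≤ b) : xx a ≤ xx b := by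
  unfold xx
  have : (a:ℝ) ≤ b := by exact_mod_cast h
  linarith

lemma Rem_sum_bound (s : ℂ) (M : ℕ) :
    ‖∑ n ∈ Finset.range M, Rem c s n‖ ≤ (1/120) * ∑ k ∈ Finset.range M, |c k| * ∫ y in (xx k)..(xx M), mj s (xx k) y := by
  induction M with
  | zero => simp
  | succ M ih =>
    rw [Finset.sum_range_succ]
    refine (norm_add_le _ _).trans ?_
    have h1 : ∑ k ∈ Finset.range (M+1), |c k| * ∫ y in (xx k)..(xx (M+1)), mj s (xx k) y
        = ∑ k ∈ Finset.range M, |c k| * (∫ y in (xx k)..(xx M), mj s (xx k) y)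
          + ∑ k ∈ Finset.range (M+1), |c k| * ∫ y in (xx M)..(xx (M+1)), mj s (xx k) y := by
      rw [Finset.sum_range_succ, Finset.sum_range_succ _ M, ← add_assoc]
      congr 1
      rw [← Finset.sum_add_distrib]
      apply Finset.sum_congr rfl
      intro k hk
      have hk' : k ≤ M := (Finset.mem_range.mp hk).le
      rw [← mul_add]
      congr 1
      rw [intervalIntegral.integral_add_adjacent_intervals]
      · exact mj_intervalIntegrable (xx_pos k) (xx_pos k) (xx_le_xx hk')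
      · exact mj_intervalIntegrable (xx_pos k) (xx_pos M) (xx_le_xx (by omega))
    rw [h1, mul_add]
    exact add_le_add ih (Rem_bound s M)

lemma mj_scale {s : ℂ} {x y : ℝ} (hx : 0 < x) (hy : 0 < y) : mj s x y = x^(s.re - 4) * mj s 1 (y / x) := by
  unfold mj
  have h : ∀ (r : ℝ) (n : ℕ), y^r / (y + x)^n = x^(r - n) * ((y/x)^r / (y/x + 1)^n) := by
    intro r n
    rw [Real.div_rpow hy.le hx.le, Real.rpow_sub hx, Real.rpow_natCast]
    have e1 : y / x + 1 = (y + x) / x := by field_simp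
    rw [e1, div_pow]
    have h1 : x^r ≠ 0 := by positivity
    have h2 : (y + x) ≠ 0 := by positivity
    field_simp
  have e1 := h (s.re - 3) 1
  have e2 := h (s.re - 2) 2
  have e3 := h (s.re - 1) 3
  have e4 := h s.re 4
  push_cast at e1 e2 e3 e4
  rw [show s.re - 3 - 1 = s.re - 4 by ring, pow_one, pow_one] at e1
  rw [show s.re - 2 - 2 = s.re - 4 by ring] at e2
  rw [show s.re - 1 - 3 = s.re - 4 by ring] at e3
  rw [e1, e2, e3, e4]
  ring

lemma mj_int_bound {s : ℂ} {B : ℝ} (hB : ∀ Z : ℝ, 1 ≤ Z → ∫ u in (1:ℝ)..Z, mj s 1 u ≤ B) {x X : ℝ}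
    (hx : 0 < x) (hX : x ≤ X) : ∫ y in x..X, mj s x y ≤ x^(s.re - 3) * B := by
  have h1 : ∫ y in x..X, mj s x y = ∫ y in x..X, x^(s.re - 4) * mj s 1 (y / x) := by
    apply intervalIntegral.integral_congr
    intro y hy
    rw [uIcc_of_le hX] at hy
    exact mj_scale hx (hx.trans_le hy.1)
  rw [h1, intervalIntegral.integral_const_mul, intervalIntegral.integral_comp_div _ hx.ne', div_self hx.ne', smul_eq_mul,
    ← mul_assoc]
  have h2 : x^(s.re - 4) * x = x^(s.re - 3) := by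
    rw [show s.re - 3 = (s.re - 4) + 1 by ring, Real.rpow_add hx, Real.rpow_one]
  rw [h2]
  apply mul_le_mul_of_nonneg_left _ (by positivity)
  apply hB
  rw [le_div_iff₀ hx]; linarith

end Pool.Agent.Hhelper92.Ortho
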