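import Pool.Agent.Hhelper92.Ortho.NB

open Complex MeasureTheory Set Filter Topology intervalIntegral
open scoped Real ComplexConjugate

namespace Pool.Agent.Hhelper92.Ortho

/-- `G(z) = (1-z)(2-z) g*(z)`, analytic for `Re z < 3`. -/
noncomputable def G (z : ℂ) : ℂ := (1 - z) * (2 - z) + (3 - z) / 2 + 12 * J 4 (2 - z)

lemma J2_rel {z : ℂ} (hz : z.re < 2) : (1 - z) * J 2 (2 - z) = 1/4 - 2 * J 3 (2 - z) := by
  have hv : -1 < (1 - z).re := by simp; linarith
  have h1 := J_split 1 hv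
  have h2 := J_ibp 1 hv
  have h3 := J_ibp 2 hv
  rw [show (1 - z + 1) = 2 - z by ring] at h1 h2 h3
  norm_num at h1 h2 h3
  linear_combination h2 - h3 - (2 - z) * h1

lemma J3_rel {z : ℂ} (hz : z.re < 2) : (-z) * J 3 (2 - z) = 1/8 - 3 * J 4 (2 - z) := by
  have hv : -1 < (1 - z).re := by simp; linarith
  have h1 := J_split 2 hv
  have h2 := J_ibp 2 hv
  have h3 := J_ibp 3 hv
  rw [show (1 - z + 1) = 2 - z by ring] at h1 h2 h3
  norm_num at h1 h2 h3
  linear_combination h2 - h3 - (2 - z) * h1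

lemma gStar_formula {z : ℂ} (hz : z.re < 2) (h0 : z ≠ 0) (h1 : z ≠ 1) :
    (1 - z) * (2 - z) * gStar z = G z := by
  have hv : -1 < (1 - z).re := by simp; linarith
  have e1 := nb_add_one (-z)
  have e2 := nb_add_one (1 - z)
  rw [show (-z + 1) = 1 - z by ring] at e1
  rw [show (1 - z + 1) = 2 - z by ring] at e2
  have e3 : nb (2 - z) = J 1 (1 - z) := by
    have := nb_eq_J (w := 2 - z) (by simp; linarith)
    rw [this]; congr 1; ring
  have e4 := J_ibp 1 hv
  rw [show (1 - z + 1) = 2 - z by ring] at e4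
  norm_num at e4
  have e5 := J2_rel hz
  have e6 := J3_rel hz
  have hn1 : (1 - z) ≠ 0 := sub_ne_zero.mpr (Ne.symm h1)
  rw [gStar_eq]
  have e7 : nb (-z) = - (1 / z) - 1 / (1 - z) + J 1 (1 - z) := by
    rw [← e3]
    have : (1:ℂ) / (-z) = - (1 / z) := by rw [one_div_neg_eq_neg_one_div]
    rw [this] at e1
    linear_combination e1 - e2
  rw [e7]
  unfold G
  have e8 : (1 - z) * (2 - z) * (-2 * z * (-(1 / z) - 1 / (1 - z) + J 1 (1 - z)))
      = 2 * (1 - z) * (2 - z) + 2 * z * (2 - z) - 2 * z * (1 - z) * ((2 - z) * J 1 (1 - z)) := by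
    field_simp
    ring
  rw [e8]
  linear_combination (-2 * z * (1 - z)) * e4 - 2 * z * e5 - 4 * e6

lemma G_differentiableAt {z : ℂ} (hz : z.re < 3) : DifferentiableAt ℂ G z := by
  unfold G
  have h : DifferentiableAt ℂ (J 4) (2 - z) := J_differentiableAt 4 (by simp; linarith)
  have h2 : DifferentiableAt ℂ (fun z => J 4 (2 - z)) z := by
    exact DifferentiableAt.comp z h (by fun_prop)
  fun_prop

lemma G_conj (z : ℂ) : G (conj z) = conj (G z) := by
  unfold G
  have h2 : conj (2:ℂ) = 2 := map_ofNat _ 2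
  have h3 : conj (3:ℂ) = 3 := map_ofNat _ 3
  have h12 : conj (12:ℂ) = 12 := map_ofNat _ 12
  have : (2 - conj z) = conj (2 - z) := by rw [map_sub, h2]
  rw [this, J_conj]
  simp only [map_add, map_mul, map_sub, map_one, map_div₀, h2, h3, h12]

/-- direct formula for `Re z < 0` -/
lemma gStar_neg {z : ℂ} (hz : z.re < 0) : gStar z = 1 + 2 * J 2 (-z) := by
  rw [gStar_eq]
  have h1 : nb (-z) = J 1 (-z - 1) := nb_eq_J (by simp; linarith)
  have h2 := J_ibp 1 (v := -z - 1) (by simp; linarith)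
  rw [show (-z - 1 + 1) = -z by ring] at h2
  norm_num at h2
  rw [h1]
  linear_combination 2 * h2

lemma gStar_neg_ne_zero {z : ℂ} (hz : z.re < 0) : gStar z ≠ 0 := by
  rw [gStar_neg hz]
  intro h
  have h1 := J2_norm_lt (v := -z) (by simp; linarith)
  have h2 : J 2 (-z) = -(1/2) := by linear_combination h / 2
  rw [h2] at h1
  norm_num at h1

lemma G_ne_zero_of_neg {z : ℂ} (hz : z.re < 0) : G z ≠ 0 := by
  have h0 : z ≠ 0 := by intro h; rw [h] at hz; simp at hz
  have h1 : z ≠ 1 := by intro h; rw [h] at hz; simp at hz; linarith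
  rw [← gStar_formula (by linarith) h0 h1]
  refine mul_ne_zero (mul_ne_zero ?_ ?_) (gStar_neg_ne_zero hz)
  · exact sub_ne_zero.mpr (Ne.symm h1)
  · intro h
    have : z = 2 := by linear_combination -h
    rw [this] at hz; simp at hz; linarith

/-! ### the region `Re z ≥ 0`: reflection -/

/-- `S(z) = -(sin πz)(1+2J₂(1+z))/(2π(1+z))` -/
noncomputable def S (z : ℂ) : ℂ := -(Complex.sin (π * z)) * (1 + 2 * J 2 (1 + z)) / (2 * π * (1 + z))

lemma gStar_S {z : ℂ} (hz : -1 < z.re) (hz' : z ∈ integerComplement) :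
    gStar z * Complex.sin (π * z) = 2 * π * z * (1 - S z) := by
  have hz'' : -z ∈ integerComplement := by
    rintro ⟨n, hn⟩
    apply hz'
    exact ⟨-n, by push_cast; rw [hn]; ring⟩
  have h1 := nb_reflection hz''
  rw [show (1 - -z) = 1 + z by ring] at h1
  have h2 : nb (1 + z) = J 1 z := by
    have := nb_eq_J (w := 1 + z) (by simp; linarith)
    rw [this]; congr 1; ring
  have h3 := J_ibp 1 hz
  rw [show z + 1 = 1 + z by ring] at h3
  norm_num at h3
  have hs : Complex.sin (π * z) ≠ 0 := by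
    intro h
    rw [Complex.sin_eq_zero_iff] at h
    obtain ⟨k, hk⟩ := h
    apply hz'
    refine ⟨k, ?_⟩
    have hpi : (π:ℂ) ≠ 0 := by exact_mod_cast Real.pi_ne_zero
    apply mul_left_cancel₀ hpi
    rw [hk]; ring
  have hne : 1 + z ≠ 0 := by
    intro h
    have : (1 + z).re = 0 := by rw [h]; simp
    simp at this; linarith
  have hpi : (π:ℂ) ≠ 0 := by exact_mod_cast Real.pi_ne_zero
  rw [gStar_eq]
  rw [h2] at h1
  have h4 : nb (-z) = - (π / Complex.sin (π * z)) - J 1 z := by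
    rw [show (π:ℂ) * (-z) = -(π * z) by ring, Complex.sin_neg, div_neg] at h1
    linear_combination h1
  rw [h4]
  unfold S
  have h5 : 1 + 2 * J 2 (1 + z) = 2 * ((1 + z) * J 1 z) := by rw [h3]; ring
  rw [h5]
  generalize Complex.sin (π * z) = s at *
  field_simp
  ring

end Pool.Agent.Hhelper92.Ortho
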