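import Mathlib

open Complex MeasureTheory Set Filter Topology intervalIntegral
open scoped Real ComplexConjugate

namespace Pool.Agent.Hhelper92.Ortho

/-- `J n v = ∫_0^1 t^v/(1+t)^n dt`. -/
noncomputable def J (n : ℕ) (v : ℂ) : ℂ := ∫ t in (0:ℝ)..1, (t:ℂ)^v / (1+(t:ℂ))^n

lemma one_add_ne {t : ℝ} (ht : 0 ≤ t) : (1 + (t:ℂ)) ≠ 0 := by
  have : (1 + (t:ℂ)) = ((1 + t : ℝ) : ℂ) := by push_cast; ring
  rw [this]; exact_mod_cast (by positivity : (1 + t) ≠ 0)

lemma J_intervalIntegrable (n : ℕ) {v : ℂ} (hv : -1 < v.re) :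
    IntervalIntegrable (fun t : ℝ => (t:ℂ)^v / (1+(t:ℂ))^n) volume 0 1 := by
  have h1 : IntervalIntegrable (fun t : ℝ => (t:ℂ)^v) volume 0 1 :=
    intervalIntegral.intervalIntegrable_cpow' hv
  have h2 : ContinuousOn (fun t : ℝ => ((1+(t:ℂ))^n)⁻¹) (uIcc 0 1) := by
    apply ContinuousOn.inv₀
    · fun_prop
    · intro t ht
      rw [uIcc_of_le zero_le_one] at ht
      exact pow_ne_zero _ (one_add_ne ht.1)
  simpa [div_eq_mul_inv] using h1.mul_continuousOn h2

lemma norm_one_add {t : ℝ} (ht : 0 ≤ t) : ‖(1 + (t:ℂ))‖ = 1 + t := by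
  have : (1 + (t:ℂ)) = ((1 + t : ℝ) : ℂ) := by push_cast; ring
  rw [this, Complex.norm_real, Real.norm_eq_abs, abs_of_nonneg (by positivity)]

lemma J_norm_le (n : ℕ) (v : ℂ) :
    ‖J n v‖ ≤ ∫ t in (0:ℝ)..1, t^v.re / (1+t)^n := by
  unfold J
  refine (intervalIntegral.norm_integral_le_integral_norm zero_le_one).trans (le_of_eq ?_)
  apply intervalIntegral.integral_congr_ae
  refine Eventually.of_forall fun t ht => ?_
  rw [uIoc_of_le zero_le_one] at ht
  rw [norm_div, norm_pow, norm_one_add ht.1.le, Complex.norm_cpow_eq_rpow_re_of_pos ht.1]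

lemma rJ_intervalIntegrable (n : ℕ) {a : ℝ} (ha : -1 < a) :
    IntervalIntegrable (fun t : ℝ => t^a / (1+t)^n) volume 0 1 := by
  have h1 : IntervalIntegrable (fun t : ℝ => t^a) volume 0 1 :=
    intervalIntegral.intervalIntegrable_rpow' ha
  have h2 : ContinuousOn (fun t : ℝ => ((1+t)^n)⁻¹) (uIcc 0 1) := by
    apply ContinuousOn.inv₀
    · fun_prop
    · intro t ht
      rw [uIcc_of_le zero_le_one] at ht
      have := ht.1
      positivity
  simpa [div_eq_mul_inv] using h1.mul_continuousOn h2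

lemma J_norm_le' (n : ℕ) {v : ℂ} (hv : -1 < v.re) :
    ‖J n v‖ ≤ 1 / (v.re + 1) := by
  refine (J_norm_le n v).trans ?_
  have h : ∫ t in (0:ℝ)..1, t^v.re / (1+t)^n ≤ ∫ t in (0:ℝ)..1, t^v.re := by
    apply intervalIntegral.integral_mono_on zero_le_one (rJ_intervalIntegrable n hv)
      (intervalIntegral.intervalIntegrable_rpow' hv)
    intro t ht
    have h0 : 0 ≤ t ^ v.re := Real.rpow_nonneg ht.1 _
    apply div_le_self h0
    exact one_le_pow₀ (by linarith [ht.1])
  refine h.trans (le_of_eq ?_)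
  rw [integral_rpow (Or.inl hv)]
  rw [Real.one_rpow, Real.zero_rpow (by linarith)]
  simp

/-- integration by parts -/
lemma J_ibp (n : ℕ) {v : ℂ} (hv : -1 < v.re) :
    (v+1) * J n v = 1/2^n + n * J (n+1) (v+1) := by
  have hv1 : -1 < (v+1).re := by simp; linarith
  have hv0 : 0 < (v+1).re := by simp; linarith
  have hne : v + 1 ≠ 0 := by
    intro h; rw [h] at hv0; simp at hv0
  have hne' : v ≠ -1 := by
    intro h; apply hne; rw [h]; ring
  have key : ∫ t in (0:ℝ)..1, ((v+1) * ((t:ℂ)^v / (1+(t:ℂ))^n) - n * ((t:ℂ)^(v+1) / (1+(t:ℂ))^(n+1)))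
      = (1:ℂ)^(v+1) / (1+((1:ℝ):ℂ))^n - ((0:ℝ):ℂ)^(v+1) / (1+((0:ℝ):ℂ))^n := by
    have h1 : ((1:ℝ):ℂ)^(v+1) = (1:ℂ)^(v+1) := by simp
    rw [← h1]
    refine intervalIntegral.integral_eq_sub_of_hasDerivAt_of_le (f := fun t : ℝ => (t:ℂ)^(v+1) / (1+(t:ℂ))^n)
      zero_le_one ?_ ?_ ?_
    · intro t ht
      apply ContinuousWithinAt.div
      · apply ContinuousAt.continuousWithinAt
        exact continuousAt_ofReal_cpow_const _ _ (Or.inl hv0)
      · fun_prop
      · exact pow_ne_zero _ (one_add_ne ht.1)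
    · intro t ht
      have ht0 : t ≠ 0 := ht.1.ne'
      have h1 : HasDerivAt (fun t : ℝ => (t:ℂ)^(v+1)) ((v+1) * (t:ℂ)^v) t := by
        have := hasDerivAt_ofReal_cpow_const ht0 hne
        refine this.congr_deriv ?_
        rw [add_sub_cancel_right]
      have h2 : HasDerivAt (fun t : ℝ => (1+(t:ℂ))^n) (n * (1+(t:ℂ))^(n-1)) t := by
        have h3 : HasDerivAt (fun t : ℝ => (1+(t:ℂ))) 1 t := by
          have := (Complex.ofRealCLM.hasDerivAt (x := t)).const_add 1
          simpa using this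
        have h5 := h3.pow n
        rw [mul_one] at h5
        exact h5
      have h4 := h1.div h2 (pow_ne_zero _ (one_add_ne ht.1.le))
      refine h4.congr_deriv ?_
      have hb : (1 + (t:ℂ)) ≠ 0 := one_add_ne ht.1.le
      have ht1 : (t:ℂ)^(v+1) = (t:ℂ)^v * t := by
        rw [Complex.cpow_add _ _ (by exact_mod_cast ht0), Complex.cpow_one]
      rcases n with _ | n
      · simp
      · simp only [Nat.add_sub_cancel]
        field_simp
        try ring
    · exact ((J_intervalIntegrable n hv).const_mul _).sub ((J_intervalIntegrable (n+1) hv1).const_mul _)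
  rw [intervalIntegral.integral_sub ((J_intervalIntegrable n hv).const_mul _)
    ((J_intervalIntegrable (n+1) hv1).const_mul _), intervalIntegral.integral_const_mul,
    intervalIntegral.integral_const_mul] at key
  rw [Complex.one_cpow] at key
  have h0 : ((0:ℝ):ℂ)^(v+1) = 0 := by
    rw [Complex.ofReal_zero, Complex.zero_cpow hne]
  rw [h0] at key
  have h2 : (1 + ((1:ℝ):ℂ)) = 2 := by push_cast; norm_num
  rw [h2] at key
  unfold J
  linear_combination key

lemma J_split (n : ℕ) {v : ℂ} (hv : -1 < v.re) :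
    J n v = J (n+1) v + J (n+1) (v+1) := by
  have hv1 : -1 < (v+1).re := by simp; linarith
  unfold J
  rw [← intervalIntegral.integral_add (J_intervalIntegrable (n+1) hv) (J_intervalIntegrable (n+1) hv1)]
  apply intervalIntegral.integral_congr_ae
  refine Eventually.of_forall fun t ht => ?_
  rw [uIoc_of_le zero_le_one] at ht
  have ht0 : (t:ℂ) ≠ 0 := by exact_mod_cast ht.1.ne'
  have hb : (1 + (t:ℂ)) ≠ 0 := one_add_ne ht.1.le
  rw [Complex.cpow_add _ _ ht0, Complex.cpow_one]
  field_simp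
  ring

lemma J_conj (n : ℕ) (v : ℂ) : J n (conj v) = conj (J n v) := by
  unfold J
  rw [intervalIntegral.integral_of_le zero_le_one, intervalIntegral.integral_of_le zero_le_one,
    ← integral_conj]
  apply setIntegral_congr_fun measurableSet_Ioc
  intro t ht
  simp only [map_div₀, map_pow, map_add, map_one, Complex.conj_ofReal]
  congr 1
  have h := Complex.cpow_conj (t:ℂ) v (by
    rw [Complex.arg_ofReal_of_nonneg ht.1.le]; exact Real.pi_pos.ne)
  rw [Complex.conj_ofReal] at h
  rw [h]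

/-- the Mellin kernel of `J` -/
noncomputable def Jf (n : ℕ) : ℝ → ℂ := (Ioc (0:ℝ) 1).indicator (fun t => ((1+(t:ℂ))^n)⁻¹)

lemma J_eq_mellin (n : ℕ) (v : ℂ) : J n v = mellin (Jf n) (v+1) := by
  unfold J mellin Jf
  rw [intervalIntegral.integral_of_le zero_le_one]
  rw [show (fun t : ℝ => (t:ℂ)^(v+1-1) • (Ioc (0:ℝ) 1).indicator (fun t => ((1+(t:ℂ))^n)⁻¹) t)
    = (Ioc (0:ℝ) 1).indicator (fun t => (t:ℂ)^v * ((1+(t:ℂ))^n)⁻¹) by
      ext t
      by_cases ht : t ∈ Ioc (0:ℝ) 1
      · simp [ht]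
      · simp [ht]]
  rw [setIntegral_indicator measurableSet_Ioc]
  rw [show Ioi (0:ℝ) ∩ Ioc 0 1 = Ioc 0 1 from by
    ext x; simp]
  rfl

lemma Jf_locInt (n : ℕ) : LocallyIntegrableOn (Jf n) (Ioi 0) := by
  apply IntegrableOn.locallyIntegrableOn
  unfold Jf
  rw [IntegrableOn]
  rw [integrable_indicator_iff measurableSet_Ioc]
  rw [IntegrableOn, Measure.restrict_restrict measurableSet_Ioc]
  rw [show Ioc (0:ℝ) 1 ∩ Ioi 0 = Ioc 0 1 from by
    ext x; simp]
  have h2 : ContinuousOn (fun t : ℝ => ((1+(t:ℂ))^n)⁻¹) (Icc 0 1) := by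
    apply ContinuousOn.inv₀
    · fun_prop
    · intro t ht
      exact pow_ne_zero _ (one_add_ne ht.1)
  exact (h2.integrableOn_Icc).mono_set Ioc_subset_Icc_self

lemma Jf_top (n : ℕ) (a : ℝ) : (Jf n) =O[atTop] fun x => x ^ (-a) := by
  have : (Jf n) =ᶠ[atTop] fun _ => 0 := by
    filter_upwards [eventually_gt_atTop 1] with t ht
    unfold Jf
    rw [indicator_of_notMem]
    intro h; linarith [h.2]
  exact this.trans_isBigO (Asymptotics.isBigO_zero _ _)

lemma Jf_norm_le (n : ℕ) (t : ℝ) : ‖Jf n t‖ ≤ 1 := by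
  unfold Jf
  by_cases ht : t ∈ Ioc (0:ℝ) 1
  · rw [indicator_of_mem ht, norm_inv, norm_pow, norm_one_add ht.1.le]
    apply inv_le_one_of_one_le₀
    exact one_le_pow₀ (by linarith [ht.1])
  · rw [indicator_of_notMem ht]; simp

lemma Jf_zero (n : ℕ) : (Jf n) =O[𝓝[>] 0] fun x => x ^ (-(0:ℝ)) := by
  apply Asymptotics.IsBigO.of_bound 1
  refine Eventually.of_forall fun t => ?_
  simpa using Jf_norm_le n t

lemma J_hasDerivAt (n : ℕ) {v : ℂ} (hv : -1 < v.re) :
    HasDerivAt (J n) (mellin (fun t => Real.log t • Jf n t) (v+1)) v := by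
  have h := (mellin_hasDerivAt_of_isBigO_rpow (Jf_locInt n) (Jf_top n (v.re+2)) (s := v+1)
    (by simp) (Jf_zero n) (by simp; linarith)).2
  have h2 : HasDerivAt (fun v : ℂ => v + 1) 1 v := (hasDerivAt_id v).add_const 1
  have h3 := HasDerivAt.comp v h h2
  rw [mul_one] at h3
  refine h3.congr_of_eventuallyEq ?_
  refine Eventually.of_forall fun w => ?_
  exact J_eq_mellin n w

lemma J_differentiableAt (n : ℕ) {v : ℂ} (hv : -1 < v.re) : DifferentiableAt ℂ (J n) v :=
  (J_hasDerivAt n hv).differentiableAt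

/-! ### numerical bounds -/

lemma int_t_sq : ∫ t in (0:ℝ)..1, t / (1+t)^2 = Real.log 2 - 1/2 := by
  have : ∫ t in (0:ℝ)..1, t / (1+t)^2 = (Real.log (1+1) + 1/(1+1)) - (Real.log (1+0) + 1/(1+0)) := by
    refine intervalIntegral.integral_eq_sub_of_hasDerivAt (f := fun t : ℝ => Real.log (1+t) + 1/(1+t)) ?_ ?_
    · intro t ht
      rw [uIcc_of_le zero_le_one] at ht
      have h0 : (1 + t) ≠ 0 := by linarith [ht.1]
      have h1 : HasDerivAt (fun t : ℝ => 1 + t) 1 t := (hasDerivAt_id t).const_add 1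
      have h2 := h1.log h0
      have h3 := h1.inv h0
      have h4 := h2.add h3
      refine (h4.congr_of_eventuallyEq (Eventually.of_forall fun s => ?_)).congr_deriv ?_
      · simp
      · field_simp
        ring
    · apply ContinuousOn.intervalIntegrable
      apply ContinuousOn.div (by fun_prop) (by fun_prop)
      intro t ht
      rw [uIcc_of_le zero_le_one] at ht
      have := ht.1
      positivity
  rw [this]
  norm_num
  ring

lemma rpow_le_self_of_one_le {t a : ℝ} (ht0 : 0 ≤ t) (ht1 : t ≤ 1) (ha : 1 ≤ a) : t^a ≤ t := by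
  rcases ht0.eq_or_lt with h | h
  · rw [← h, Real.zero_rpow (by linarith)]
  · calc t^a ≤ t^(1:ℝ) := Real.rpow_le_rpow_of_exponent_ge h ht1 ha
      _ = t := Real.rpow_one t

lemma J2_norm_le {v : ℂ} (hv : 1 ≤ v.re) : ‖J 2 v‖ ≤ Real.log 2 - 1/2 := by
  refine (J_norm_le 2 v).trans ?_
  rw [← int_t_sq]
  apply intervalIntegral.integral_mono_on zero_le_one (rJ_intervalIntegrable 2 (by linarith))
  · apply ContinuousOn.intervalIntegrable
    apply ContinuousOn.div (by fun_prop) (by fun_prop)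
    intro t ht
    rw [uIcc_of_le zero_le_one] at ht
    have := ht.1
    positivity
  · intro t ht
    apply div_le_div_of_nonneg_right (rpow_le_self_of_one_le ht.1 ht.2 hv)
    positivity

lemma int_inv_sq : ∫ t in (0:ℝ)..1, 1 / (1+t)^2 = 1/2 := by
  have : ∫ t in (0:ℝ)..1, 1 / (1+t)^2 = (- (1/(1+1))) - (- (1/(1+0))) := by
    refine intervalIntegral.integral_eq_sub_of_hasDerivAt (f := fun t : ℝ => - (1/(1+t))) ?_ ?_
    · intro t ht
      rw [uIcc_of_le zero_le_one] at ht
      have h0 : (1 + t) ≠ 0 := by linarith [ht.1]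
      have h1 : HasDerivAt (fun t : ℝ => 1 + t) 1 t := (hasDerivAt_id t).const_add 1
      have h3 := (h1.inv h0).neg
      refine (h3.congr_of_eventuallyEq (Eventually.of_forall fun s => ?_)).congr_deriv ?_
      · simp
      · field_simp
    · apply ContinuousOn.intervalIntegrable
      apply ContinuousOn.div (by fun_prop) (by fun_prop)
      intro t ht
      rw [uIcc_of_le zero_le_one] at ht
      have := ht.1
      positivity
  rw [this]
  norm_num

lemma J2_norm_lt {v : ℂ} (hv : 0 < v.re) : ‖J 2 v‖ < 1/2 := by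
  refine (J_norm_le 2 v).trans_lt ?_
  rw [← int_inv_sq]
  have hc : ContinuousOn (fun t : ℝ => t^v.re / (1+t)^2) (Icc 0 1) := by
    apply ContinuousOn.div
    · apply ContinuousOn.rpow_const (by fun_prop)
      intro t ht
      right; exact hv.le
    · fun_prop
    · intro t ht
      have := ht.1
      positivity
  have hc2 : ContinuousOn (fun t : ℝ => 1 / (1+t)^2) (Icc 0 1) := by
    apply ContinuousOn.div (by fun_prop) (by fun_prop)
    intro t ht
    have := ht.1
    positivity
  refine intervalIntegral.integral_lt_integral_of_continuousOn_of_le_of_exists_lt zero_lt_one hc hc2 ?_ ?_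
  · intro t ht
    have := ht.1
    apply div_le_div_of_nonneg_right _ (by positivity)
    exact Real.rpow_le_one ht.1.le ht.2 hv.le
  · refine ⟨1/2, ⟨by norm_num, by norm_num⟩, ?_⟩
    apply div_lt_div_of_pos_right _ (by positivity)
    exact Real.rpow_lt_one (by norm_num) (by norm_num) hv

lemma J2_deriv_norm_le {v : ℂ} (hv : 1 ≤ v.re) : ‖deriv (J 2) v‖ ≤ 1/4 := by
  rw [(J_hasDerivAt 2 (by linarith : -1 < v.re)).deriv]
  unfold mellin
  refine (MeasureTheory.norm_integral_le_integral_norm _).trans ?_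
  have h1 : ∫ t in Ioi (0:ℝ), ‖(t:ℂ)^(v+1-1) • (Real.log t • Jf 2 t)‖ ≤
      ∫ t in Ioi (0:ℝ), (Ioc (0:ℝ) 1).indicator (fun t => (1/4) * (- Real.log t)) t := by
    apply integral_mono_of_nonneg
    · exact Eventually.of_forall fun t => norm_nonneg _
    · have : IntegrableOn (fun t : ℝ => (1/4) * (- Real.log t)) (Ioc 0 1) := by
        have := (intervalIntegral.intervalIntegrable_log' (a := 0) (b := 1)).neg.const_mul (1/4)
        rw [intervalIntegrable_iff_integrableOn_Ioc_of_le zero_le_one] at this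
        exact this
      exact (this.integrable_indicator measurableSet_Ioc).integrableOn
    · filter_upwards [ae_restrict_mem measurableSet_Ioi] with t ht
      unfold Jf
      by_cases ht1 : t ∈ Ioc (0:ℝ) 1
      · rw [indicator_of_mem ht1, indicator_of_mem ht1]
        rw [norm_smul, norm_smul, Complex.norm_cpow_eq_rpow_re_of_pos ht1.1, norm_inv, norm_pow,
          norm_one_add ht1.1.le, Real.norm_eq_abs, abs_of_nonpos (Real.log_nonpos ht1.1.le ht1.2)]
        simp only [add_sub_cancel_right]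
        have h2 : t ^ v.re ≤ t := rpow_le_self_of_one_le ht1.1.le ht1.2 hv
        have h3 : 0 ≤ - Real.log t := by linarith [Real.log_nonpos ht1.1.le ht1.2]
        have h4 : t * ((1+t)^2)⁻¹ ≤ 1/4 := by
          rw [← div_eq_mul_inv, div_le_iff₀ (by have := ht1.1; positivity)]
          nlinarith [sq_nonneg (1 - t)]
        calc t ^ v.re * (-Real.log t * ((1 + t) ^ 2)⁻¹)
            ≤ t * (-Real.log t * ((1 + t) ^ 2)⁻¹) := by
              apply mul_le_mul_of_nonneg_right h2
              have := ht1.1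
              positivity
          _ = (t * ((1+t)^2)⁻¹) * (- Real.log t) := by ring
          _ ≤ 1/4 * (- Real.log t) := mul_le_mul_of_nonneg_right h4 h3
      · rw [indicator_of_notMem ht1, indicator_of_notMem ht1]; simp
  refine h1.trans (le_of_eq ?_)
  rw [setIntegral_indicator measurableSet_Ioc]
  rw [show Ioi (0:ℝ) ∩ Ioc 0 1 = Ioc 0 1 from by
    ext x; simp]
  rw [← intervalIntegral.integral_of_le zero_le_one, intervalIntegral.integral_const_mul,
    intervalIntegral.integral_neg, integral_log]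
  simp

end Pool.Agent.Hhelper92.Ortho
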