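import Pool.Agent.Hhelper92.Ortho.Rho

open Complex MeasureTheory Set Filter Topology
open scoped Real ComplexConjugate

namespace Pool.Agent.Hhelper92.Ortho

lemma norm_le_of_sq {z : ℂ} {r : ℝ} (hr : 0 ≤ r) (h : z.re^2 + z.im^2 ≤ r^2) : ‖z‖ ≤ r := by
  rw [Complex.norm_def, Real.sqrt_le_left hr, Complex.normSq_apply]
  nlinarith

lemma norm_ge_of_sq {z : ℂ} {r : ℝ} (h : r^2 ≤ z.re^2 + z.im^2) : r ≤ ‖z‖ := by
  rw [Complex.norm_def]
  apply Real.le_sqrt_of_sq_le
  rw [Complex.normSq_apply]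
  nlinarith

noncomputable def y0 : ℝ := Real.log (55/2) / π
noncomputable def z0 : ℂ := 4/3 + (y0:ℂ) * I

lemma log_bounds : 3.3138 < Real.log (55/2) ∧ Real.log (55/2) < 3.3148 := by
  have h1 := Real.abs_log_sub_add_sum_range_le (x := 9/64) (by rw [abs_of_pos] <;> norm_num) 3
  rw [abs_of_pos (by norm_num : (0:ℝ) < 9/64)] at h1
  have h2 : Real.log (55/2) = 5 * Real.log 2 + Real.log (1 - 9/64) := by
    have : (55/2 : ℝ) = 2^5 * (1 - 9/64) := by norm_num
    rw [this, Real.log_mul (by norm_num) (by norm_num), Real.log_pow]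
    norm_num
  have h3 := log2_lt
  have h4 := log2_gt
  rw [abs_le] at h1
  simp only [Finset.sum_range_succ, Finset.sum_range_zero] at h1
  rw [h2]
  norm_num at *
  constructor <;> linarith [h1.1, h1.2]

lemma y0_bounds : 1.0548 < y0 ∧ y0 < 1.0552 := by
  have h := log_bounds
  have hpi := Real.pi_pos
  have h1 := Real.pi_gt_d6
  have h2 := Real.pi_lt_d6
  unfold y0
  rw [lt_div_iff₀ hpi, div_lt_iff₀ hpi]
  norm_num at *
  constructor <;> linarith [h.1, h.2]

lemma z0_re : z0.re = 4/3 := by unfold z0; simp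
lemma z0_im : z0.im = y0 := by unfold z0; simp

lemma z0_mem : z0 ∈ Om := by
  have h := y0_bounds
  refine ⟨?_, ?_, ?_⟩
  · rw [z0_re]; norm_num
  · rw [z0_re]; norm_num
  · rw [z0_im]; norm_num at *; linarith

lemma neg_sin_z0 : -Complex.sin (π * z0) = ((√3/2 * (55/4 + 1/55) : ℝ) : ℂ) + ((1/2 * (55/4 - 1/55) : ℝ) : ℂ) * I := by
  have hpi : (π:ℝ) ≠ 0 := Real.pi_ne_zero
  have h1 : (π:ℂ) * z0 = ((4 * π / 3 : ℝ) : ℂ) + ((Real.log (55/2) : ℝ) : ℂ) * I := by
    unfold z0 y0
    push_cast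
    have : (π:ℂ) ≠ 0 := by exact_mod_cast hpi
    field_simp
  rw [h1, Complex.sin_add_mul_I]
  have h2 : Real.sin (4 * π / 3) = -(√3/2) := by
    rw [show 4 * π / 3 = π / 3 + π by ring, Real.sin_add_pi, Real.sin_pi_div_three]
  have h3 : Real.cos (4 * π / 3) = -(1/2) := by
    rw [show 4 * π / 3 = π / 3 + π by ring, Real.cos_add_pi, Real.cos_pi_div_three]
  have h4 : Real.cosh (Real.log (55/2)) = 55/4 + 1/55 := by
    rw [Real.cosh_eq, Real.exp_neg, Real.exp_log (by norm_num)]; norm_num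
  have h5 : Real.sinh (Real.log (55/2)) = 55/4 - 1/55 := by
    rw [Real.sinh_eq, Real.exp_neg, Real.exp_log (by norm_num)]; norm_num
  rw [← Complex.ofReal_sin, ← Complex.ofReal_cos, ← Complex.ofReal_cosh, ← Complex.ofReal_sinh, h2, h3, h4, h5]
  push_cast
  ring

lemma J4_norm {w : ℂ} (hw : 1 < w.re) : ‖J 4 w‖ ≤ 1 / (16 * (w.re - 1)) := by
  refine (J_norm_le 4 w).trans ?_
  have h1 : ∫ t in (0:ℝ)..1, t^w.re / (1+t)^4 ≤ ∫ t in (0:ℝ)..1, (1/16) * t^(w.re - 2) := by
    apply intervalIntegral.integral_mono_on_of_le_Ioo zero_le_one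
    · exact rJ_intervalIntegrable 4 (by linarith)
    · exact (intervalIntegral.intervalIntegrable_rpow' (by linarith)).const_mul _
    · intro t ht
      have ht0 := ht.1
      have h2 : t^w.re = t^(w.re - 2) * t^2 := by
        rw [Real.rpow_sub ht0]
        have : t^(2:ℝ) = t^2 := by exact_mod_cast Real.rpow_natCast t 2
        rw [this]
        field_simp
      rw [h2, div_le_iff₀ (by positivity)]
      have h3 : 0 ≤ t^(w.re - 2) := by positivity
      have h4 : 16 * t^2 ≤ (1+t)^4 := by nlinarith [sq_nonneg (1 - t), sq_nonneg ((1+t)^2 - 4*t), mul_nonneg ht0.le (sq_nonneg (1-t))]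
      nlinarith
  refine h1.trans (le_of_eq ?_)
  rw [intervalIntegral.integral_const_mul, integral_rpow (Or.inl (by linarith)), Real.one_rpow,
    Real.zero_rpow (by linarith)]
  rw [show w.re - 2 + 1 = w.re - 1 by ring]
  have : w.re - 1 ≠ 0 := by linarith
  field_simp
  ring

lemma J2_expand {v : ℂ} (hv : -1 < v.re) :
    (1 + 2 * J 2 v) * ((v+1) * (v+2)) = (v^2 + 7/2 * v + 7/2) + 12 * J 4 (v+2) := by
  have h1 := J_ibp 2 (v := v) hv
  have h2 := J_ibp 3 (v := v+1) (by simp; linarith)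
  rw [show v + 1 + 1 = v + 2 by ring] at h2
  norm_num at h1 h2
  linear_combination (2 * (v+2)) * h1 + 4 * h2

lemma S_z0_sub_one : ‖S z0 - 1‖ ≤ 0.065 := by
  have hpi := Real.pi_pos
  have hp1 := Real.pi_gt_d6
  have hp2 := Real.pi_lt_d6
  have hy := y0_bounds
  set y := y0 with hyd
  set v : ℂ := 1 + z0 with hv
  have hvre : v.re = 7/3 := by rw [hv]; simp [z0_re]; norm_num
  have hvim : v.im = y := by rw [hv]; simp [z0_im, hyd]
  have hveq : v = ((7/3 : ℝ) : ℂ) + (y : ℂ) * I := by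
    apply Complex.ext
    · rw [hvre]; simp
    · rw [hvim]; simp
  set A : ℝ := √3/2 * (55/4 + 1/55) with hA
  set B : ℝ := 1/2 * (55/4 - 1/55) with hB
  have hs3a : (1.73205:ℝ) < √3 := by
    apply Real.lt_sqrt_of_sq_lt; norm_num
  have hs3b : √3 < (1.7320509:ℝ) := by
    rw [Real.sqrt_lt' (by norm_num)]; norm_num
  have hAb : 11.9235 < A ∧ A < 11.9237 := by
    rw [hA]; norm_num at *; constructor <;> linarith
  have hBb : B = 3021/440 := by rw [hB]; norm_num
  set V : ℂ := v * ((v+1) * (v+2)) with hV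
  set N1 : ℂ := ((A:ℂ) + (B:ℂ) * I) * (v^2 + 7/2 * v + 7/2) - 2 * π * V with hN1
  have hy2a : 1.1126 < y^2 := by norm_num at *; nlinarith [hy.1]
  have hy2b : y^2 < 1.1135 := by norm_num at *; nlinarith [hy.1, hy.2]
  have hVre : V.re = 910/27 - 10 * y^2 := by
    rw [hV, hveq]
    simp only [mul_re, add_re, ofReal_re, I_re, mul_zero, ofReal_im, I_im, mul_one, sub_self, add_zero, add_im, mul_im,
      zero_add, one_re, one_im, zero_mul, re_ofNat, im_ofNat]
    ring
  have hVim : V.im = 97/3 * y - y * y^2 := by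
    rw [hV, hveq]
    simp only [mul_re, add_re, ofReal_re, I_re, mul_zero, ofReal_im, I_im, mul_one, sub_self, add_zero, add_im, mul_im,
      zero_add, one_re, one_im, zero_mul, re_ofNat, im_ofNat]
    ring
  have hQre : (v^2 + 7/2 * v + 7/2).re = 154/9 - y^2 := by
    rw [hveq]
    simp [pow_two, Complex.div_re, Complex.div_im, Complex.normSq_apply]
    ring
  have hQim : (v^2 + 7/2 * v + 7/2).im = 49/6 * y := by
    rw [hveq]
    simp [pow_two, Complex.div_re, Complex.div_im, Complex.normSq_apply]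
    ring
  have hN1re : N1.re = A * (154/9 - y^2) - B * (49/6 * y) - 2 * π * (910/27 - 10 * y^2) := by
    rw [hN1, sub_re, mul_re, hQre, hQim, mul_re, hVre]
    simp
  have hN1im : N1.im = A * (49/6 * y) + B * (154/9 - y^2) - 2 * π * (97/3 * y - y * y^2) := by
    rw [hN1, sub_im, mul_im, hQre, hQim, mul_im, hVim]
    simp
  have hre : -10.5 ≤ N1.re ∧ N1.re ≤ -9.9 := by
    rw [hN1re, hBb]
    norm_num at *
    constructor <;> nlinarith [hAb.1, hAb.2, hy.1, hy.2]
  have him : 5 ≤ N1.im ∧ N1.im ≤ 6.2 := by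
    have e1 : y * y^2 ≤ 1.0552 * 1.1135 := by
      apply mul_le_mul hy.2.le hy2b.le (by positivity) (by norm_num)
    have e2 : 1.0548 * 1.1126 ≤ y * y^2 := by
      apply mul_le_mul hy.1.le hy2a.le (by norm_num) (by norm_num at *; linarith [hy.1])
    have f1 : 97/3 * y - y * y^2 ≤ 97/3 * 1.0552 - 1.0548 * 1.1126 := by linarith [hy.2]
    have f2 : 97/3 * 1.0548 - 1.0552 * 1.1135 ≤ 97/3 * y - y * y^2 := by linarith [hy.1]
    rw [hN1im, hBb]
    have g1 : 2 * π * (97/3 * y - y * y^2) ≤ 2 * 3.141593 * (97/3 * 1.0552 - 1.0548 * 1.1126) := by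
      apply mul_le_mul (by linarith) f1 _ (by norm_num)
      refine le_trans ?_ f2; norm_num
    have g2 : 2 * 3.141592 * (97/3 * 1.0548 - 1.0552 * 1.1135) ≤ 2 * π * (97/3 * y - y * y^2) := by
      apply mul_le_mul (by linarith) f2 (by norm_num) (by positivity)
    have g3 : A * (49/6 * y) ≤ 11.9237 * (49/6 * 1.0552) := by
      apply mul_le_mul hAb.2.le (by linarith [hy.2]) _ (by norm_num)
      norm_num at *; linarith [hy.1]
    have g4 : 11.9235 * (49/6 * 1.0548) ≤ A * (49/6 * y) := by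
      apply mul_le_mul hAb.1.le (by linarith [hy.1]) (by norm_num) (by norm_num at *; linarith [hAb.1])
    norm_num at *
    constructor <;> linarith
  have hN1n : ‖N1‖ ≤ 12.2 := by
    apply norm_le_of_sq (by norm_num)
    norm_num at *
    nlinarith [hre.1, hre.2, him.1, him.2]
  have hVn : 39.5 ≤ ‖V‖ := by
    apply norm_ge_of_sq
    have e1 : 22.5 ≤ V.re := by rw [hVre]; norm_num at *; linarith
    have e2 : 32.7 ≤ V.im := by
      rw [hVim]
      have : y * y^2 ≤ 1.0552 * 1.1135 := by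
        apply mul_le_mul hy.2.le hy2b.le (by positivity) (by norm_num)
      norm_num at *; linarith [hy.1]
    norm_num at *
    nlinarith
  have hJ4 : ‖J 4 (v+2)‖ ≤ 3/160 := by
    have h1 := J4_norm (w := v + 2) (by simp [hvre]; norm_num)
    have h2 : (v+2).re = 13/3 := by simp [hvre]; norm_num
    rw [h2] at h1
    refine h1.trans ?_
    norm_num
  have hABn : ‖((A:ℂ) + (B:ℂ) * I)‖ ≤ 13.8 := by
    apply norm_le_of_sq (by norm_num)
    simp only [add_re, ofReal_re, mul_re, I_re, mul_zero, ofReal_im, I_im, mul_one, sub_self, add_zero, add_im, mul_im,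
      zero_add]
    rw [hBb]
    norm_num at *
    nlinarith [hAb.1, hAb.2]
  have hexp := J2_expand (v := v) (by rw [hvre]; norm_num)
  have hSz : S z0 = ((A:ℂ) + (B:ℂ) * I) * (1 + 2 * J 2 v) / (2 * π * v) := by
    unfold S
    rw [neg_sin_z0]
  have hv0 : v ≠ 0 := by intro h; rw [h] at hvre; norm_num at hvre
  have hv1 : v + 1 ≠ 0 := by
    intro h
    have := congrArg Complex.re h
    simp [hvre] at this; norm_num at this
  have hv2 : v + 2 ≠ 0 := by
    intro h
    have := congrArg Complex.re h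
    simp [hvre] at this; norm_num at this
  have hpi' : (π:ℂ) ≠ 0 := by exact_mod_cast Real.pi_ne_zero
  have hkey : S z0 - 1 = (N1 + ((A:ℂ) + (B:ℂ) * I) * (12 * J 4 (v+2))) / (2 * π * V) := by
    have hV0 : V ≠ 0 := mul_ne_zero hv0 (mul_ne_zero hv1 hv2)
    rw [hSz, eq_div_iff (mul_ne_zero (mul_ne_zero two_ne_zero hpi') hV0)]
    have e1 : ((A:ℂ) + (B:ℂ) * I) * (1 + 2 * J 2 v) / (2 * π * v) * (2 * π * V)
        = ((A:ℂ) + (B:ℂ) * I) * ((1 + 2 * J 2 v) * ((v+1) * (v+2))) := by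
      rw [hV]; field_simp
    rw [sub_mul, e1, hexp, hN1]
    ring
  rw [hkey, norm_div, norm_mul, norm_mul, Complex.norm_real, Real.norm_of_nonneg hpi.le]
  have e2 : ‖(2:ℂ)‖ = 2 := by norm_num
  rw [e2, div_le_iff₀ (by positivity)]
  have e3 : ‖N1 + ((A:ℂ) + (B:ℂ) * I) * (12 * J 4 (v+2))‖ ≤ 12.2 + 13.8 * (12 * (3/160)) := by
    refine (norm_add_le _ _).trans ?_
    rw [norm_mul, norm_mul]
    have e12 : ‖(12:ℂ)‖ = 12 := by norm_num
    rw [e12]
    apply add_le_add hN1n
    apply mul_le_mul hABn _ (by positivity) (by norm_num)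
    exact mul_le_mul_of_nonneg_left hJ4 (by norm_num)
  refine e3.trans ?_
  have e4 : 2 * 3.141592 * 39.5 ≤ 2 * π * ‖V‖ := by
    apply mul_le_mul (by linarith) hVn (by norm_num) (by positivity)
  norm_num at *
  linarith

lemma Phi_z0 : ‖Phi z0 - z0‖ ≤ 0.0224 := by
  have hpi := Real.pi_pos
  have hp1 := Real.pi_gt_d6
  have hp2 := Real.pi_lt_d6
  have hpi' : (π:ℂ) ≠ 0 := by exact_mod_cast Real.pi_ne_zero
  set Y := (-(π * I * z0) + Lam z0 - (Real.log (4 * π) : ℝ) - π / 2 * I) with hY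
  have hP : Phi z0 - z0 = (-I / π) * (Y + 2 * π * I) := by
    rw [hY]; unfold Phi
    field_simp
    ring_nf
    rw [Complex.I_sq]
    ring
  have hS := S_log z0_mem
  rw [← hY] at hS
  have him2 : Y.im = -(π * z0.re) + (Lam z0).im - π / 2 := by
    rw [hY]; simp
  rw [z0_re] at him2
  have hb := Lam_im_bounds z0_mem
  set u := Y + 2 * π * I with hu
  have huim : u.im = Y.im + 2 * π := by rw [hu]; simp
  have hexp : Complex.exp u = S z0 := by
    rw [hu, Complex.exp_add, hS]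
    have : Complex.exp (2 * π * I) = 1 := Complex.exp_two_pi_mul_I
    rw [this, mul_one]
  have hlog : Complex.log (S z0) = u := by
    rw [← hexp]
    apply Complex.log_exp
    · rw [huim, him2]; norm_num at *; linarith [hb.1]
    · rw [huim, him2]; norm_num at *; linarith [hb.2]
  have hSb := S_z0_sub_one
  have hS1 : S z0 = 1 + (S z0 - 1) := by ring
  have hl := Complex.norm_log_one_add_le (z := S z0 - 1) (by norm_num at *; linarith)
  rw [← hS1, hlog] at hl
  have h0 := norm_nonneg (S z0 - 1)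
  have h3 : (1 - ‖S z0 - 1‖)⁻¹ ≤ 1.07 := by
    rw [inv_le_comm₀ (by norm_num at *; linarith) (by norm_num)]
    norm_num at *
    linarith
  have h4 : ‖S z0 - 1‖ ^ 2 ≤ 0.065^2 := pow_le_pow_left₀ h0 hSb 2
  have h5 : ‖S z0 - 1‖ ^ 2 * (1 - ‖S z0 - 1‖)⁻¹ ≤ 0.065^2 * 1.07 := by
    apply mul_le_mul h4 h3 _ (by norm_num)
    exact inv_nonneg.mpr (by norm_num at *; linarith)
  rw [hP, norm_mul, norm_div, norm_neg, Complex.norm_I, Complex.norm_real, Real.norm_of_nonneg hpi.le,
    div_mul_eq_mul_div, one_mul, div_le_iff₀ hpi]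
  norm_num at *
  nlinarith

lemma rho_loc : ‖rho - z0‖ ≤ 0.053 := by
  have h1 := rho_near z0_mem
  have h2 := Phi_z0
  refine h1.trans ?_
  rw [div_le_iff₀ (by norm_num)]
  norm_num at *
  linarith

end Pool.Agent.Hhelper92.Ortho
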