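import Pool.Agent.Hhelper92.Ortho.Num
import Pool.Agent.Hhelper92.Ortho.Loc

open Complex MeasureTheory Set Filter Topology
open scoped Real ComplexConjugate

namespace Pool.Agent.Hhelper92.Ortho

variable {c : ℕ → ℝ}

/-! ### bounds for `rho` -/

noncomputable def p0 : ℂ := ((4/3 : ℝ) : ℂ) + ((211/200 : ℝ) : ℂ) * I

lemma rho_p0 : ‖rho - p0‖ ≤ 0.054 := by
  have h1 := rho_loc
  have hy := y0_bounds
  have h2 : ‖z0 - p0‖ ≤ 0.0003 := by
    apply norm_le_of_sq (by norm_num)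
    have e1 : (z0 - p0).re = 0 := by rw [sub_re, z0_re]; unfold p0; simp
    have e2 : (z0 - p0).im = y0 - 211/200 := by rw [sub_im, z0_im]; unfold p0; simp
    rw [e1, e2]
    norm_num at *
    nlinarith [hy.1, hy.2]
  have h3 : rho - p0 = (rho - z0) + (z0 - p0) := by ring
  rw [h3]
  refine (norm_add_le _ _).trans ?_
  norm_num at *
  linarith

lemma p0_shift (x : ℝ) {r : ℝ} (hr : 0 ≤ r) (h : (4/3 - x)^2 + (211/200)^2 ≤ r^2) : ‖p0 - x‖ ≤ r := by
  apply norm_le_of_sq hr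
  have e1 : (p0 - x).re = 4/3 - x := by unfold p0; simp
  have e2 : (p0 - x).im = 211/200 := by unfold p0; simp
  rw [e1, e2]; exact h

lemma rho_shift (x : ℝ) {r : ℝ} (hr : 0 ≤ r) (h : (4/3 - x)^2 + (211/200)^2 ≤ r^2) : ‖rho - x‖ ≤ r + 0.054 := by
  have h1 := p0_shift x hr h
  have h2 := rho_p0
  have h3 : rho - x = (rho - p0) + (p0 - x) := by ring
  rw [h3]
  refine (norm_add_le _ _).trans ?_
  linarith

lemma n0 : ‖rho‖ ≤ 1.755 := by
  have := rho_shift 0 (r := 1.701) (by norm_num) (by norm_num)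
  rw [ofReal_zero, sub_zero] at this
  norm_num at *; linarith
lemma n1 : ‖rho - 1‖ ≤ 1.161 := by
  have := rho_shift 1 (r := 1.107) (by norm_num) (by norm_num)
  rw [ofReal_one] at this
  norm_num at *; linarith
lemma n2 : ‖rho - 2‖ ≤ 1.303 := by
  have := rho_shift 2 (r := 1.249) (by norm_num) (by norm_num)
  norm_num at *; linarith
lemma n3 : ‖rho - 3‖ ≤ 2.028 := by
  have := rho_shift 3 (r := 1.974) (by norm_num) (by norm_num)
  norm_num at *; linarith
lemma n4 : ‖rho - 4‖ ≤ 2.923 := by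
  have := rho_shift 4 (r := 2.869) (by norm_num) (by norm_num)
  norm_num at *; linarith
lemma nm1 : ‖rho + 1‖ ≤ 2.616 := by
  have := rho_shift (-1) (r := 2.562) (by norm_num) (by norm_num)
  rw [ofReal_neg, ofReal_one, sub_neg_eq_add] at this
  norm_num at *; linarith
lemma n52 : ‖rho - 5/2‖ ≤ 1.628 := by
  have := rho_shift (5/2) (r := 1.574) (by norm_num) (by norm_num)
  norm_num at *; linarith

lemma rho_re_le : rho.re ≤ 7/5 := by
  have h1 := rho_p0
  have h2 := abs_re_le_norm (rho - p0)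
  have h3 : (rho - p0).re = rho.re - 4/3 := by unfold p0; simp
  rw [h3] at h2
  have h4 := le_abs_self (rho.re - 4/3)
  norm_num at *; linarith

lemma nsq : ‖(rho - 1)^2 + 1‖ ≤ 0.83 := by
  have h1 : (rho - 1)^2 + 1 = ((p0 - 1)^2 + 1) + (rho - p0) * ((rho - 1) + (p0 - 1)) := by ring
  have h2 : ‖(p0 - 1)^2 + 1‖ ≤ 0.704 := by
    apply norm_le_of_sq (by norm_num)
    have e1 : ((p0 - 1)^2 + 1).re = (1/3)^2 - (211/200)^2 + 1 := by
      unfold p0; simp [pow_two]; norm_num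
    have e2 : ((p0 - 1)^2 + 1).im = 2 * (1/3) * (211/200) := by
      unfold p0; simp [pow_two]; norm_num
    rw [e1, e2]; norm_num
  have h3 : ‖(rho - p0) * ((rho - 1) + (p0 - 1))‖ ≤ 0.054 * (1.161 + 1.107) := by
    rw [norm_mul]
    apply mul_le_mul rho_p0 _ (norm_nonneg _) (by norm_num)
    refine (norm_add_le _ _).trans ?_
    apply add_le_add n1
    have := p0_shift 1 (r := 1.107) (by norm_num) (by norm_num)
    rwa [ofReal_one] at this
  rw [h1]
  refine (norm_add_le _ _).trans ?_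
  norm_num at *; linarith

lemma q_lower : 1.53 ≤ ‖1 + 5/12 * rho + rho^3/12‖ := by
  have hp : ‖p0‖ ≤ 1.701 := by
    have := p0_shift 0 (r := 1.701) (by norm_num) (by norm_num)
    rwa [ofReal_zero, sub_zero] at this
  have h1 : 1 + 5/12 * p0 + p0^3/12 = (1 + 5/12 * rho + rho^3/12) - (rho - p0) * (5/12 + (rho^2 + rho * p0 + p0^2)/12) := by ring
  have h2 : 1.6 ≤ ‖1 + 5/12 * p0 + p0^3/12‖ := by
    apply norm_ge_of_sq
    have e0 : p0^3 = (((4/3)^3 - 3 * (4/3) * (211/200)^2 : ℝ) : ℂ) + ((3 * (4/3)^2 * (211/200) - (211/200)^3 : ℝ) : ℂ) * I := by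
      unfold p0
      apply Complex.ext
      · simp [pow_succ]; norm_num
      · simp [pow_succ]; norm_num
    have e1 : (1 + 5/12 * p0 + p0^3/12) = ((1 + 5/12 * (4/3) + ((4/3)^3 - 3 * (4/3) * (211/200)^2)/12 : ℝ) : ℂ)
        + ((5/12 * (211/200) + (3 * (4/3)^2 * (211/200) - (211/200)^3)/12 : ℝ) : ℂ) * I := by
      rw [e0]; unfold p0; push_cast; ring
    rw [e1]
    simp only [add_re, ofReal_re, mul_re, I_re, mul_zero, ofReal_im, I_im, mul_one, sub_self, add_zero, add_im, mul_im,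
      zero_add]
    norm_num
  have h3 : ‖(rho - p0) * (5/12 + (rho^2 + rho * p0 + p0^2)/12)‖ ≤ 0.054 * (5/12 + (1.755^2 + 1.755 * 1.701 + 1.701^2)/12) := by
    rw [norm_mul]
    apply mul_le_mul rho_p0 _ (norm_nonneg _) (by norm_num)
    refine (norm_add_le _ _).trans ?_
    apply add_le_add
    · norm_num
    · rw [norm_div]
      have : ‖(12:ℂ)‖ = 12 := by norm_num
      rw [this]
      apply div_le_div_of_nonneg_right _ (by norm_num)
      have hn0 := n0
      have h0 := norm_nonneg rho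
      have h0' := norm_nonneg p0
      refine norm_add₃_le.trans ?_
      rw [norm_pow, norm_mul, norm_pow]
      gcongr
  have h4 := norm_sub_le (1 + 5/12 * rho + rho^3/12) ((rho - p0) * (5/12 + (rho^2 + rho * p0 + p0^2)/12))
  rw [← h1] at h4
  norm_num at *; linarith

/-! ### the sums `T_j` -/

noncomputable def TT (c : ℕ → ℝ) (e : ℝ) : ℝ := ∑' k, |c k| * (xx k)^e

lemma term_bound (k : ℕ) : |c (k+1)| * (xx (k+1))^(-(3/2:ℝ))
    ≤ (7/10) * (c (k+1) ^ 2 / (2 * xx (k+1))) + (5/7) * (1 / (k+1) - 1 / (k+2)) := by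
  have hx := xx_pos (k+1)
  set x := xx (k+1) with hxd
  set w := x^(-(1/2:ℝ)) with hw
  have hw0 : 0 < w := by positivity
  have hw2 : w^2 = 1 / x := by
    rw [hw, ← Real.rpow_natCast, ← Real.rpow_mul hx.le]
    norm_num
    rw [Real.rpow_neg_one]
  have hw3 : x^(-(3/2:ℝ)) = w^3 := by
    rw [hw, ← Real.rpow_natCast, ← Real.rpow_mul hx.le]
    norm_num
  have hw4 : (1 / x^2) = w^4 := by
    have : w^4 = (w^2)^2 := by ring
    rw [this, hw2]; ring
  have h1 : 1 / x^2 ≤ 1 / ((k:ℝ)+1) - 1 / (k+2) := by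
    have hk : (0:ℝ) ≤ k := by positivity
    have e1 : 1 / ((k:ℝ)+1) - 1 / (k+2) = 1 / ((k+1) * (k+2)) := by field_simp; ring
    rw [e1]
    apply one_div_le_one_div_of_le (by positivity)
    rw [hxd]; unfold xx; push_cast; nlinarith
  rw [hw4] at h1
  rw [hw3]
  have h2 : c (k+1) ^ 2 / (2 * x) = |c (k+1)|^2 * w^2 / 2 := by
    rw [hw2, sq_abs]; field_simp
  rw [h2]
  have h3 : |c (k+1)| * w^3 ≤ (7/10) * (|c (k+1)|^2 * w^2 / 2) + (5/7) * w^4 := by
    have h4 : 0 ≤ w^2 * (7 * |c (k+1)| - 10 * w)^2 := by positivity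
    nlinarith
  linarith

lemma tele_hasSum : HasSum (fun k : ℕ => (1 / ((k:ℝ)+1) - 1 / (k+2))) 1 := by
  rw [hasSum_iff_tendsto_nat_of_nonneg]
  · have h : ∀ n : ℕ, ∑ k ∈ Finset.range n, (1 / ((k:ℝ)+1) - 1 / (k+2)) = 1 - 1 / (n+1) := by
      intro n
      induction n with
      | zero => simp
      | succ n ih => rw [Finset.sum_range_succ, ih]; push_cast; ring
    simp_rw [h]
    have := (tendsto_one_div_add_atTop_nhds_zero_nat (𝕜 := ℝ)).const_sub 1
    simpa using this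
  · intro k
    have e1 : 1 / ((k:ℝ)+1) - 1 / (k+2) = 1 / ((k+1) * (k+2)) := by field_simp; ring
    rw [e1]; positivity

lemma tail_summable (hc : IsOrtho c) : Summable fun k => |c (k+1)| * (xx (k+1))^(-(3/2:ℝ)) :=
  (summable_nat_add_iff 1).mpr (summable_c_lt hc (a := -(3/2)) (by norm_num))

lemma tail_le (hc : IsOrtho c) : ∑' k, |c (k+1)| * (xx (k+1))^(-(3/2:ℝ)) ≤ 99/70 := by
  have h1 := (energy_summable hc).mul_left (7/10)
  have h2 := tele_hasSum.summable.mul_left (5/7)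
  have h3 := (tail_summable hc).tsum_le_tsum (fun k => term_bound k) (h1.add h2)
  rw [h1.tsum_add h2, tsum_mul_left, tsum_mul_left, tele_hasSum.tsum_eq] at h3
  have h4 := energy_tsum hc
  linarith

lemma TT_le (hc : IsOrtho c) (j : ℕ) {e : ℝ} (he : e ≤ -(3/2) - j) :
    TT c e ≤ (1/2:ℝ)^e + (2/3)^j * (99/70) := by
  have hs : Summable fun k => |c k| * (xx k)^e := summable_c_lt hc (by
    have : (0:ℝ) ≤ j := by positivity
    linarith)
  unfold TT
  rw [hs.tsum_eq_zero_add]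
  apply add_le_add
  · rw [hc.zero]; unfold xx; simp
  · refine le_trans ?_ (mul_le_mul_of_nonneg_left (tail_le hc) (by positivity))
    rw [← tsum_mul_left]
    apply ((summable_nat_add_iff 1).mpr hs).tsum_le_tsum _ ((tail_summable hc).mul_left _)
    intro k
    have hx := xx_pos (k+1)
    have hx32 : 3/2 ≤ xx (k+1) := by
      have := xx_ge_half k
      rw [xx_succ]; linarith
    have h1 : (xx (k+1))^e ≤ (2/3)^j * (xx (k+1))^(-(3/2:ℝ)) := by
      calc (xx (k+1))^e ≤ (xx (k+1))^(-(j:ℝ) + -(3/2)) :=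
            Real.rpow_le_rpow_of_exponent_le (by linarith) (by linarith)
        _ = (xx (k+1))^(-(j:ℝ)) * (xx (k+1))^(-(3/2:ℝ)) := Real.rpow_add hx _ _
        _ ≤ (2/3)^j * (xx (k+1))^(-(3/2:ℝ)) := by
            apply mul_le_mul_of_nonneg_right _ (by positivity)
            have h2 : ((2:ℝ)/3)^j = (3/2:ℝ)^(-(j:ℝ)) := by
              rw [Real.rpow_neg (by norm_num), Real.rpow_natCast, ← inv_pow]
              norm_num
            rw [h2]
            apply Real.rpow_le_rpow_of_nonpos (by norm_num) hx32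
            have : (0:ℝ) ≤ j := by positivity
            linarith
    calc |c (k+1)| * (xx (k+1))^e ≤ |c (k+1)| * ((2/3)^j * (xx (k+1))^(-(3/2:ℝ))) :=
          mul_le_mul_of_nonneg_left h1 (abs_nonneg _)
      _ = _ := by ring

lemma TT_nonneg (e : ℝ) : 0 ≤ TT c e := by
  unfold TT
  apply tsum_nonneg
  intro k
  have := xx_pos k
  positivity

lemma D_norm_le (hc : IsOrtho c) {z : ℂ} (hz : z.re < 4/5) : ‖Dser c z‖ ≤ TT c z.re := by
  unfold Dser TT
  have h := norm_tsum_le_tsum_norm (f := fun k => (c k : ℂ) * (xx k : ℂ)^z) (by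
    simp_rw [norm_cx]; exact summable_c_lt hc hz)
  simp_rw [norm_cx] at h
  exact h

end Pool.Agent.Hhelper92.Ortho
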