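import Pool.Agent.Hhelper92.Ortho.Kappa

open Complex MeasureTheory Set Filter Topology
open scoped Real ComplexConjugate

namespace Pool.Agent.Hhelper92.Ortho

variable {c : ℕ → ℝ}

lemma LL_bounds : (0 ≤ LL 1 0 ∧ LL 1 0 ≤ 0.4614) ∧ (0 ≤ LL 2 0 ∧ LL 2 0 ≤ 0.3159) ∧ (0 ≤ LL 3 0 ∧ LL 3 0 ≤ 0.225) ∧
    (0 ≤ LL 4 0 ∧ LL 4 0 ≤ 0.1667) ∧ (0 ≤ LL 1 1 ∧ LL 1 1 ≤ 0.2387) ∧ (0 ≤ LL 2 1 ∧ LL 2 1 ≤ 0.1455) ∧
    (0 ≤ LL 3 1 ∧ LL 3 1 ≤ 0.0909) ∧ (0 ≤ LL 4 1 ∧ LL 4 1 ≤ 0.0584) ∧ (0 ≤ LL 1 2 ∧ LL 1 2 ≤ 0.1614) ∧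
    (0 ≤ LL 2 2 ∧ LL 2 2 ≤ 0.0932) ∧ (0 ≤ LL 3 2 ∧ LL 3 2 ≤ 0.0546) ∧ (0 ≤ LL 4 2 ∧ LL 4 2 ≤ 0.0326) := by
  obtain ⟨h11, h12, h13, h20, h21, h22, h23, h30, h31, h32, h33, h40, h41, h42, h43⟩ := iJ_vals
  have h10 := iJ_10
  have l1 := log2_lt
  have l2 := log2_gt
  unfold LL
  simp only [zero_add, Nat.reduceAdd, h10, h11, h12, h13, h20, h21, h22, h23, h30, h31, h32, h33, h40, h41, h42, h43]
  norm_num at l1 l2
  refine ⟨⟨?_, ?_⟩, ⟨?_, ?_⟩, ⟨?_, ?_⟩, ⟨?_, ?_⟩, ⟨?_, ?_⟩, ⟨?_, ?_⟩, ⟨?_, ?_⟩, ⟨?_, ?_⟩, ⟨?_, ?_⟩, ⟨?_, ?_⟩, ⟨?_, ?_⟩,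
    ⟨?_, ?_⟩⟩ <;> norm_num <;> linarith

lemma Bd_le {s : ℂ} {j : ℕ} {A1 A2 A3 L1 L2 L3 L4 : ℝ} (h1 : ‖s‖ ≤ A1) (h2 : ‖s - 1‖ ≤ A2) (h3 : ‖s - 2‖ ≤ A3)
    (l1 : 0 ≤ LL 1 j ∧ LL 1 j ≤ L1) (l2 : 0 ≤ LL 2 j ∧ LL 2 j ≤ L2) (l3 : 0 ≤ LL 3 j ∧ LL 3 j ≤ L3)
    (l4 : 0 ≤ LL 4 j ∧ LL 4 j ≤ L4) :
    Bd s j ≤ 2 * (A1 * A2 * A3 * L1 + 3 * (A1 * A2) * L2 + 6 * A1 * L3 + 6 * L4) := by
  have a1 := (norm_nonneg s).trans h1
  have a2 := (norm_nonneg (s-1)).trans h2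
  have a3 := (norm_nonneg (s-2)).trans h3
  have b1 := l1.1.trans l1.2
  have b2 := l2.1.trans l2.2
  have b3 := l3.1.trans l3.2
  unfold Bd
  rw [norm_mul, norm_mul]
  have e1 := l1.1
  have e2 := l2.1
  have e3 := l3.1
  have f1 := l1.2
  have f2 := l2.2
  have f3 := l3.2
  have f4 := l4.2
  gcongr

lemma Bd_nonneg (s : ℂ) {j : ℕ} (l1 : 0 ≤ LL 1 j) (l2 : 0 ≤ LL 2 j) (l3 : 0 ≤ LL 3 j) (l4 : 0 ≤ LL 4 j) : 0 ≤ Bd s j := by
  unfold Bd; positivity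

lemma Bd0 : Bd rho 0 ≤ 13.1 := by
  obtain ⟨l1, l2, l3, l4, -⟩ := LL_bounds
  refine (Bd_le n0 n1 n2 l1 l2 l3 l4).trans ?_
  norm_num

lemma Bd1 : Bd (rho - 1) 1 ≤ 4.78 := by
  obtain ⟨-, -, -, -, l1, l2, l3, l4, -⟩ := LL_bounds
  have h1 : ‖rho - 1 - 1‖ ≤ 1.303 := by rw [show rho - 1 - 1 = rho - 2 by ring]; exact n2
  have h2 : ‖rho - 1 - 2‖ ≤ 2.028 := by rw [show rho - 1 - 2 = rho - 3 by ring]; exact n3
  refine (Bd_le n1 h1 h2 l1 l2 l3 l4).trans ?_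
  norm_num

lemma Bd2 : Bd (rho - 2) 2 ≤ 5.25 := by
  obtain ⟨-, -, -, -, -, -, -, -, l1, l2, l3, l4⟩ := LL_bounds
  have h1 : ‖rho - 2 - 1‖ ≤ 2.028 := by rw [show rho - 2 - 1 = rho - 3 by ring]; exact n3
  have h2 : ‖rho - 2 - 2‖ ≤ 2.923 := by rw [show rho - 2 - 2 = rho - 4 by ring]; exact n4
  refine (Bd_le n2 h1 h2 l1 l2 l3 l4).trans ?_
  norm_num

noncomputable def PPa : ℝ := (1/2:ℝ)^rho.re

lemma PPa_pos : 0 < PPa := by unfold PPa; positivity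

lemma PPa_ge : 1 ≤ 2.64 * PPa := by
  have h1 : (1/2:ℝ)^(7/5:ℝ) ≤ PPa := by
    unfold PPa
    exact Real.rpow_le_rpow_of_exponent_ge (by norm_num) (by norm_num) rho_re_le
  have h2 : (1/2.64:ℝ) ≤ (1/2:ℝ)^(7/5:ℝ) := by
    have h3 : ((1/2.64:ℝ))^5 ≤ ((1/2:ℝ)^(7/5:ℝ))^5 := by
      rw [← Real.rpow_natCast ((1/2:ℝ)^(7/5:ℝ)), ← Real.rpow_mul (by norm_num)]
      have : (7/5:ℝ) * ((5:ℕ):ℝ) = ((7:ℕ):ℝ) := by norm_num
      rw [this, Real.rpow_natCast]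
      norm_num
    exact le_of_pow_le_pow_left₀ (by norm_num) (by positivity) h3
  have h3 := h2.trans h1
  norm_num at *
  linarith

lemma half_rpow_sub (n : ℕ) : (1/2:ℝ)^(rho.re - n) = 2^n * PPa := by
  unfold PPa
  rw [Real.rpow_sub (by norm_num), Real.rpow_natCast]
  rw [one_div, inv_pow]
  field_simp

lemma TT0 (hc : IsOrtho c) : TT c (rho.re - 3) ≤ 11.74 * PPa := by
  have h := TT_le hc 0 (e := rho.re - 3) (by have := rho_re_le; push_cast; linarith)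
  have h2 := half_rpow_sub 3
  push_cast at h2
  rw [h2] at h
  have h3 := PPa_ge
  norm_num at *; linarith

lemma TT1 (hc : IsOrtho c) : TT c (rho.re - 4) ≤ 18.49 * PPa := by
  have h := TT_le hc 1 (e := rho.re - 4) (by have := rho_re_le; push_cast; linarith)
  have h2 := half_rpow_sub 4
  push_cast at h2
  rw [h2] at h
  have h3 := PPa_ge
  norm_num at *; linarith

lemma TT2 (hc : IsOrtho c) : TT c (rho.re - 5) ≤ 33.67 * PPa := by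
  have h := TT_le hc 2 (e := rho.re - 5) (by have := rho_re_le; push_cast; linarith)
  have h2 := half_rpow_sub 5
  push_cast at h2
  rw [h2] at h
  have h3 := PPa_ge
  norm_num at *; linarith

theorem Est_rho_ne (hc : IsOrtho c) : Est c rho ≠ 0 := by
  intro hE
  have hP := PPa_pos
  obtain ⟨l10, l20, l30, l40, l11, l21, l31, l41, l12, l22, l32, l42⟩ := LL_bounds
  have hre := rho_re_le
  have r2 : (2:ℂ).re = 2 := by norm_num
  have r3 : (3:ℂ).re = 3 := by norm_num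
  have r4 : (4:ℂ).re = 4 := by norm_num
  -- three instances of the summation formula
  have X0 := em_limit hc (s := rho) (by linarith) (Bd_nonneg rho l10.1 l20.1 l30.1 l40.1)
    (fun Z hZ => mj_integral_le (j := 0) (by push_cast; linarith) hZ)
  have X1 := em_limit hc (s := rho - 1) (by rw [sub_re, one_re]; linarith) (Bd_nonneg (rho-1) l11.1 l21.1 l31.1 l41.1)
    (fun Z hZ => mj_integral_le (j := 1) (by rw [sub_re, one_re]; push_cast; linarith) hZ)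
  have X2 := em_limit hc (s := rho - 2) (by rw [sub_re, r2]; linarith) (Bd_nonneg (rho-2) l12.1 l22.1 l32.1 l42.1)
    (fun Z hZ => mj_integral_le (j := 2) (by rw [sub_re, r2]; push_cast; linarith) hZ)
  change _ ≤ _ * TT c _ at X0
  change _ ≤ _ * TT c _ at X1
  change _ ≤ _ * TT c _ at X2
  rw [sub_re, one_re] at X1
  rw [sub_re, r2] at X2
  rw [show rho.re - 1 - 3 = rho.re - 4 by ring, show rho - 1 - 1 = rho - 2 by ring, show rho - 1 - 2 = rho - 3 by ring] at X1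
  rw [show rho.re - 2 - 3 = rho.re - 5 by ring, show rho - 2 - 1 = rho - 3 by ring, show rho - 2 - 2 = rho - 4 by ring] at X2
  rw [hE] at X0
  rw [Est_rho_sub_one hc] at X1
  rw [Est_rho_sub_two hc] at X2
  set W0 := 0 - (xx 0 : ℂ)^(rho-1) + (1/2) * Dser c (rho-1) - ((rho - 1/2)/12) * Dser c (rho-2) with hW0
  set W1 := -(2 / rho) * Dser c (rho-1) - (xx 0 : ℂ)^(rho-2) + (1/2) * Dser c (rho-2) - ((rho - 1 - 1/2)/12) * Dser c (rho-3) with hW1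
  set W2 := 2 / (rho * (1 - rho)) * Dser c (rho-2) - (xx 0 : ℂ)^(rho-3) + (1/2) * Dser c (rho-3) - ((rho - 2 - 1/2)/12) * Dser c (rho-4) with hW2
  have hx0 : ((xx 0 : ℝ) : ℂ) = 1/2 := by unfold xx; simp
  have hh0 : (1/2 : ℂ) ≠ 0 := by norm_num
  have hx2 : (xx 0 : ℂ)^(rho-2) = 2 * (xx 0 : ℂ)^(rho-1) := by
    rw [hx0, show rho - 1 = (rho - 2) + 1 by ring, Complex.cpow_add _ _ hh0, Complex.cpow_one]; ring
  have hx3 : (xx 0 : ℂ)^(rho-3) = 4 * (xx 0 : ℂ)^(rho-1) := by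
    rw [hx0, show rho - 1 = (rho - 3) + 1 + 1 by ring, Complex.cpow_add _ _ hh0, Complex.cpow_add _ _ hh0, Complex.cpow_one]
    ring
  have hr0 := rho_ne_zero
  have hr1 := one_sub_rho_ne
  have hid : (xx 0 : ℂ)^(rho-1) * (1 + 5/12 * rho + rho^3/12)
      = -(W0 + rho/4 * W1 + rho * (rho - 1) * (rho + 1)/48 * W2)
        + rho * ((rho - 1)^2 + 1)/96 * Dser c (rho-3)
        - rho * (rho - 1) * (rho + 1) * (rho - 5/2)/576 * Dser c (rho-4) := by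
    rw [hW0, hW1, hW2, hx2, hx3]
    field_simp
    ring
  have hn : ‖(xx 0 : ℂ)^(rho-1)‖ = 2 * PPa := by
    rw [norm_cpow_eq_rpow_re_of_pos (xx_pos 0), sub_re, one_re]
    have := half_rpow_sub 1
    have hx : xx 0 = 1/2 := by unfold xx; simp
    rw [hx]
    push_cast at this
    rw [this]; ring
  have hD3 : ‖Dser c (rho-3)‖ ≤ 11.74 * PPa := by
    have h := D_norm_le hc (z := rho - 3) (by rw [sub_re, r3]; linarith)
    rw [sub_re, r3] at h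
    exact h.trans (TT0 hc)
  have hD4 : ‖Dser c (rho-4)‖ ≤ 18.49 * PPa := by
    have h := D_norm_le hc (z := rho - 4) (by rw [sub_re, r4]; linarith)
    rw [sub_re, r4] at h
    exact h.trans (TT1 hc)
  have hW0n : ‖W0‖ ≤ 13.1/120 * (11.74 * PPa) := by
    refine X0.trans ?_
    apply mul_le_mul _ (TT0 hc) (TT_nonneg _) (by norm_num)
    exact div_le_div_of_nonneg_right Bd0 (by norm_num)
  have hW1n : ‖W1‖ ≤ 4.78/120 * (18.49 * PPa) := by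
    refine X1.trans ?_
    apply mul_le_mul _ (TT1 hc) (TT_nonneg _) (by norm_num)
    exact div_le_div_of_nonneg_right Bd1 (by norm_num)
  have hW2n : ‖W2‖ ≤ 5.25/120 * (33.67 * PPa) := by
    refine X2.trans ?_
    apply mul_le_mul _ (TT2 hc) (TT_nonneg _) (by norm_num)
    exact div_le_div_of_nonneg_right Bd2 (by norm_num)
  have hb1 : ‖rho/4‖ ≤ 1.755/4 := by
    rw [norm_div]
    have : ‖(4:ℂ)‖ = 4 := by norm_num
    rw [this]
    exact div_le_div_of_nonneg_right n0 (by norm_num)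
  have hb2 : ‖rho * (rho - 1) * (rho + 1)/48‖ ≤ 1.755 * 1.161 * 2.616/48 := by
    rw [norm_div, norm_mul, norm_mul]
    have : ‖(48:ℂ)‖ = 48 := by norm_num
    rw [this]
    have h1 := n0
    have h2 := n1
    have h3 := nm1
    gcongr
  have he1 : ‖rho * ((rho - 1)^2 + 1)/96‖ ≤ 1.755 * 0.83/96 := by
    rw [norm_div, norm_mul]
    have : ‖(96:ℂ)‖ = 96 := by norm_num
    rw [this]
    have h1 := n0
    have h2 := nsq
    gcongr
  have he2 : ‖rho * (rho - 1) * (rho + 1) * (rho - 5/2)/576‖ ≤ 1.755 * 1.161 * 2.616 * 1.628/576 := by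
    rw [norm_div, norm_mul, norm_mul, norm_mul]
    have : ‖(576:ℂ)‖ = 576 := by norm_num
    rw [this]
    have h1 := n0
    have h2 := n1
    have h3 := nm1
    have h4 := n52
    gcongr
  have hL : 2 * PPa * 1.53 ≤ ‖(xx 0 : ℂ)^(rho-1) * (1 + 5/12 * rho + rho^3/12)‖ := by
    rw [norm_mul, hn]
    exact mul_le_mul_of_nonneg_left q_lower (by positivity)
  rw [hid] at hL
  have k1 : ‖W0 + rho/4 * W1 + rho * (rho - 1) * (rho + 1)/48 * W2‖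
      ≤ 13.1/120 * (11.74 * PPa) + 1.755/4 * (4.78/120 * (18.49 * PPa))
        + 1.755 * 1.161 * 2.616/48 * (5.25/120 * (33.67 * PPa)) := by
    refine norm_add₃_le.trans ?_
    rw [norm_mul, norm_mul]
    apply add_le_add
    · apply add_le_add hW0n
      apply mul_le_mul hb1 hW1n (norm_nonneg _) (by norm_num)
    · apply mul_le_mul hb2 hW2n (norm_nonneg _) (by norm_num)
  have k2 : ‖rho * ((rho - 1)^2 + 1)/96 * Dser c (rho-3)‖ ≤ 1.755 * 0.83/96 * (11.74 * PPa) := by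
    rw [norm_mul]
    exact mul_le_mul he1 hD3 (norm_nonneg _) (by norm_num)
  have k3 : ‖rho * (rho - 1) * (rho + 1) * (rho - 5/2)/576 * Dser c (rho-4)‖
      ≤ 1.755 * 1.161 * 2.616 * 1.628/576 * (18.49 * PPa) := by
    rw [norm_mul]
    exact mul_le_mul he2 hD4 (norm_nonneg _) (by norm_num)
  have k4 := norm_sub_le (-(W0 + rho/4 * W1 + rho * (rho - 1) * (rho + 1)/48 * W2)
        + rho * ((rho - 1)^2 + 1)/96 * Dser c (rho-3)) (rho * (rho - 1) * (rho + 1) * (rho - 5/2)/576 * Dser c (rho-4))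
  have k5 := norm_add_le (-(W0 + rho/4 * W1 + rho * (rho - 1) * (rho + 1)/48 * W2))
        (rho * ((rho - 1)^2 + 1)/96 * Dser c (rho-3))
  rw [norm_neg] at k5
  have k6 : 2 * PPa * 1.53 ≤ 13.1/120 * (11.74 * PPa) + 1.755/4 * (4.78/120 * (18.49 * PPa))
        + 1.755 * 1.161 * 2.616/48 * (5.25/120 * (33.67 * PPa)) + 1.755 * 0.83/96 * (11.74 * PPa)
        + 1.755 * 1.161 * 2.616 * 1.628/576 * (18.49 * PPa) := by
    linarith
  norm_num at k6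
  linarith

end Pool.Agent.Hhelper92.Ortho
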