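import Pool.Agent.Hhelper92.Ortho.Trans

open Complex MeasureTheory Set Filter Topology
open scoped Real ComplexConjugate

namespace Pool.Agent.Hhelper92.Ortho

noncomputable def fE (u : ℝ) : ℝ := if 1 ≤ u then 2 * u / (u + 1) else 0
noncomputable def fY (u : ℝ) : ℝ := if 1 ≤ u then 2 * u / (1 + u)^2 else 0

lemma fE_ker : Ker fE where
  meas := by
    unfold fE
    apply Measurable.ite measurableSet_Ici
    · fun_prop
    · fun_prop
  zero := by intro u hu; unfold fE; rw [if_neg (not_le.mpr hu)]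
  bdd := by
    refine ⟨2, fun u => ?_⟩
    unfold fE
    split_ifs with h
    · rw [abs_of_nonneg (by positivity), div_le_iff₀ (by positivity)]
      linarith
    · simp

lemma fY_ker : Ker fY where
  meas := by
    unfold fY
    apply Measurable.ite measurableSet_Ici
    · fun_prop
    · fun_prop
  zero := by intro u hu; unfold fY; rw [if_neg (not_le.mpr hu)]
  bdd := by
    refine ⟨2, fun u => ?_⟩
    unfold fY
    split_ifs with h
    · rw [abs_of_nonneg (by positivity), div_le_iff₀ (by positivity)]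
      nlinarith
    · simp

lemma mellin_fE {z : ℂ} (hz : z.re < 0) : mellin (fun u => (fE u : ℂ)) z = 2 * J 1 (-z - 1) := by
  have h1 := mellin_comp_inv (fun u => (fE u : ℂ)) (-z)
  rw [neg_neg] at h1
  rw [← h1]
  unfold mellin J
  rw [intervalIntegral.integral_of_le zero_le_one, ← integral_const_mul]
  have : ∫ t in Ioi (0:ℝ), (t:ℂ)^(-z-1) • (fE t⁻¹ : ℂ)
      = ∫ t in Ioi (0:ℝ), (Ioc (0:ℝ) 1).indicator (fun t => 2 * ((t:ℂ)^(-z-1) / (1+(t:ℂ))^1)) t := by
    apply setIntegral_congr_fun measurableSet_Ioi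
    intro t ht
    have ht' : 0 < t := ht
    simp only
    by_cases h : t ≤ 1
    · rw [indicator_of_mem (show t ∈ Ioc (0:ℝ) 1 from ⟨ht', h⟩)]
      have h2 : 1 ≤ t⁻¹ := (one_le_inv₀ ht').mpr h
      unfold fE
      rw [if_pos h2]
      have h3 : (t:ℂ) ≠ 0 := by exact_mod_cast ht'.ne'
      have h4 : (1 + (t:ℂ)) ≠ 0 := one_add_ne ht'.le
      have h5 : ((2 * t⁻¹ / (t⁻¹ + 1) : ℝ) : ℂ) = 2 / (1 + t) := by
        push_cast
        field_simp
      rw [h5, smul_eq_mul, pow_one]
      ring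
    · have h2 : ¬ (1 ≤ t⁻¹) := by
        rw [one_le_inv₀ ht']; exact h
      rw [indicator_of_notMem (by intro hh; exact h hh.2)]
      unfold fE
      rw [if_neg h2]; simp
  rw [this, setIntegral_indicator measurableSet_Ioc]
  rw [show Ioi (0:ℝ) ∩ Ioc 0 1 = Ioc 0 1 from by ext x; simp]

lemma mellin_fY {z : ℂ} (hz : z.re < 0) : mellin (fun u => (fY u : ℂ)) z = 2 * J 2 (-z) := by
  have h1 := mellin_comp_inv (fun u => (fY u : ℂ)) (-z)
  rw [neg_neg] at h1
  rw [← h1]
  unfold mellin J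
  rw [intervalIntegral.integral_of_le zero_le_one, ← integral_const_mul]
  have : ∫ t in Ioi (0:ℝ), (t:ℂ)^(-z-1) • (fY t⁻¹ : ℂ)
      = ∫ t in Ioi (0:ℝ), (Ioc (0:ℝ) 1).indicator (fun t => 2 * ((t:ℂ)^(-z) / (1+(t:ℂ))^2)) t := by
    apply setIntegral_congr_fun measurableSet_Ioi
    intro t ht
    have ht' : 0 < t := ht
    simp only
    by_cases h : t ≤ 1
    · rw [indicator_of_mem (show t ∈ Ioc (0:ℝ) 1 from ⟨ht', h⟩)]
      have h2 : 1 ≤ t⁻¹ := (one_le_inv₀ ht').mpr h
      unfold fY
      rw [if_pos h2]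
      have h3 : (t:ℂ) ≠ 0 := by exact_mod_cast ht'.ne'
      have h4 : (1 + (t:ℂ)) ≠ 0 := one_add_ne ht'.le
      have h5 : ((2 * t⁻¹ / (1 + t⁻¹)^2 : ℝ) : ℂ) = 2 * t / (1 + t)^2 := by
        have h6 : ((t:ℂ) + 1) ≠ 0 := by rw [add_comm]; exact h4
        push_cast
        field_simp
        ring
      have h7 : (t:ℂ)^(-z) = (t:ℂ)^(-z-1) * t := by
        rw [show -z = (-z-1) + 1 by ring, Complex.cpow_add _ _ h3, Complex.cpow_one]
        simp
      rw [h5, h7, smul_eq_mul]
      ring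
    · have h2 : ¬ (1 ≤ t⁻¹) := by
        rw [one_le_inv₀ ht']; exact h
      rw [indicator_of_notMem (by intro hh; exact h hh.2)]
      unfold fY
      rw [if_neg h2]; simp
  rw [this, setIntegral_indicator measurableSet_Ioc]
  rw [show Ioi (0:ℝ) ∩ Ioc 0 1 = Ioc 0 1 from by ext x; simp]

/-! ### the averaging operator -/

noncomputable def Qop (g : ℝ → ℝ) (y : ℝ) : ℝ := ∫ v in (0:ℝ)..1, v^2 * g (v * y)

structure Good (g : ℝ → ℝ) : Prop where
  meas : Measurable g
  zero : ∀ y < 1/2, g y = 0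
  bdd : ∃ K, 0 ≤ K ∧ ∀ y, 0 ≤ y → |g y| ≤ K * y^2

lemma good_mellinConvergent {g : ℝ → ℝ} (hg : Good g) {z : ℂ} (hz : z.re < -2) :
    MellinConvergent (fun u => (g u : ℂ)) z := by
  obtain ⟨K, hK0, hK⟩ := hg.bdd
  apply mellinConvergent_of_isBigO_rpow (a := -2) (b := z.re - 1)
  · exact locInt_of_bound hg.meas hK
  · apply Asymptotics.IsBigO.of_bound K
    filter_upwards [eventually_ge_atTop 0] with t ht
    rw [Complex.norm_real, Real.norm_eq_abs, neg_neg, Real.norm_of_nonneg (by positivity)]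
    refine (hK t ht).trans (le_of_eq ?_)
    norm_num
  · exact hz
  · exact isBigO_zero_of_vanish hg.zero _
  · linarith

lemma Qop_fubini {g : ℝ → ℝ} (hg : Good g) {z : ℂ} (hz : z.re < -2) :
    Integrable (fun p : ℝ × ℝ => (p.1:ℂ)^(z-1) * ((p.2^2 * g (p.2 * p.1) : ℝ) : ℂ))
      ((volume.restrict (Ioi (0:ℝ))).prod (volume.restrict (Ioc (0:ℝ) 1))) := by
  have hconv := good_mellinConvergent hg hz
  have hmeas : Measurable (fun p : ℝ × ℝ => (p.1:ℂ)^(z-1) * ((p.2^2 * g (p.2 * p.1) : ℝ) : ℂ)) := by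
    apply Measurable.mul
    · exact (Complex.measurable_ofReal.comp measurable_fst).pow_const _
    · apply Complex.measurable_ofReal.comp
      apply Measurable.mul (by fun_prop)
      exact hg.meas.comp (by fun_prop)
  rw [integrable_prod_iff' hmeas.aestronglyMeasurable]
  have hn : ∀ v ∈ Ioc (0:ℝ) 1, ∫ t in Ioi (0:ℝ), ‖(t:ℂ)^(z-1) * ((v^2 * g (v * t) : ℝ) : ℂ)‖
      = v^2 * v^(-z.re) * ∫ t in Ioi (0:ℝ), ‖(t:ℂ)^(z-1) • (g t : ℂ)‖ := by
    intro v hv
    have h1 := norm_integral_scale (fun u => (g u : ℂ)) z hv.1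
    rw [mul_assoc, ← h1, ← integral_const_mul]
    apply setIntegral_congr_fun measurableSet_Ioi
    intro t _
    simp only [norm_smul, norm_mul, Complex.norm_real, Real.norm_eq_abs, abs_mul]
    rw [abs_of_nonneg (by positivity : 0 ≤ v^2)]
    ring
  constructor
  · filter_upwards [ae_restrict_mem measurableSet_Ioc] with v hv
    have h1 : MellinConvergent (fun t => (g (v * t) : ℂ)) z :=
      (MellinConvergent.comp_mul_left (f := fun u => (g u : ℂ)) hv.1).mpr hconv
    have h2 := h1.const_smul ((v^2 : ℝ) : ℂ)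
    refine (integrable_congr ?_).mp h2
    refine Eventually.of_forall fun t => ?_
    simp only [smul_eq_mul]
    push_cast
    ring
  · have : Integrable (fun v : ℝ => v^2 * v^(-z.re) * ∫ t in Ioi (0:ℝ), ‖(t:ℂ)^(z-1) • (g t : ℂ)‖)
        (volume.restrict (Ioc 0 1)) := by
      apply Integrable.mul_const
      have hc : ContinuousOn (fun v : ℝ => v^2 * v^(-z.re)) (Icc 0 1) := by
        apply ContinuousOn.mul (by fun_prop)
        apply ContinuousOn.rpow_const (by fun_prop)
        intro v _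
        right; linarith
      exact hc.integrableOn_Icc.mono_set Ioc_subset_Icc_self
    refine (integrable_congr ?_).mp this
    filter_upwards [ae_restrict_mem measurableSet_Ioc] with v hv
    exact (hn v hv).symm

lemma Qop_mellinConvergent {g : ℝ → ℝ} (hg : Good g) {z : ℂ} (hz : z.re < -2) :
    MellinConvergent (fun y => (Qop g y : ℂ)) z := by
  have h := (Qop_fubini hg hz).integral_prod_left
  refine (integrable_congr ?_).mp h
  refine Eventually.of_forall fun y => ?_
  simp only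
  rw [integral_const_mul, smul_eq_mul]
  congr 1
  unfold Qop
  rw [intervalIntegral.integral_of_le zero_le_one]
  exact integral_ofReal

theorem mellin_Qop {g : ℝ → ℝ} (hg : Good g) {z : ℂ} (hz : z.re < -2) :
    mellin (fun y => (Qop g y : ℂ)) z = mellin (fun y => (g y : ℂ)) z / (3 - z) := by
  have h := integral_integral_swap
    (f := fun (y v : ℝ) => (y:ℂ)^(z-1) * ((v^2 * g (v * y) : ℝ) : ℂ)) (Qop_fubini hg hz)
  have e1 : mellin (fun y => (Qop g y : ℂ)) z = ∫ y in Ioi (0:ℝ), ∫ v in Ioc (0:ℝ) 1,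
      (y:ℂ)^(z-1) * ((v^2 * g (v * y) : ℝ) : ℂ) := by
    unfold mellin
    apply setIntegral_congr_fun measurableSet_Ioi
    intro y _
    simp only
    rw [integral_const_mul, smul_eq_mul]
    congr 1
    unfold Qop
    rw [intervalIntegral.integral_of_le zero_le_one]
    exact integral_ofReal.symm
  rw [e1, h]
  have e2 : ∀ v ∈ Ioc (0:ℝ) 1, ∫ y in Ioi (0:ℝ), (y:ℂ)^(z-1) * ((v^2 * g (v * y) : ℝ) : ℂ)
      = (v:ℂ)^(2-z) * mellin (fun y => (g y : ℂ)) z := by
    intro v hv
    have h1 := mellin_comp_mul_left (fun u => (g u : ℂ)) z hv.1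
    have hv0 : (v:ℂ) ≠ 0 := by exact_mod_cast hv.1.ne'
    have h2 : (v:ℂ)^(2-z) = (v:ℂ)^2 * (v:ℂ)^(-z) := by
      rw [sub_eq_add_neg, Complex.cpow_add _ _ hv0]
      congr 1
      exact_mod_cast Complex.cpow_natCast (v:ℂ) 2
    rw [h2, mul_assoc, ← smul_eq_mul (a := (v:ℂ)^(-z)), ← h1]
    unfold mellin
    rw [← integral_const_mul]
    apply setIntegral_congr_fun measurableSet_Ioi
    intro t _
    simp only [smul_eq_mul]
    push_cast
    ring
  rw [setIntegral_congr_fun measurableSet_Ioc e2, integral_mul_const,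
    ← intervalIntegral.integral_of_le zero_le_one, integral_cpow (Or.inl (by simp; linarith))]
  have hne : (2 - z + 1) ≠ 0 := by
    intro h
    have : (2 - z + 1).re = 0 := by rw [h]; simp
    simp at this; linarith
  rw [Complex.ofReal_zero, Complex.zero_cpow hne, Complex.ofReal_one, Complex.one_cpow]
  rw [show 2 - z + 1 = 3 - z by ring]
  ring

lemma good_intervalIntegrable {g : ℝ → ℝ} (hg : Good g) (a b : ℝ) :
    IntervalIntegrable (fun w => w^2 * g w) volume a b := by
  obtain ⟨K, hK0, hK⟩ := hg.bdd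
  rw [intervalIntegrable_iff]
  have hfin : volume (uIoc a b) ≠ ⊤ := by rw [uIoc]; exact measure_Ioc_lt_top.ne
  refine Measure.integrableOn_of_bounded (M := (max |a| |b|)^2 * (K * (max |a| |b|)^2)) hfin ?_ ?_
  · exact ((measurable_id.pow_const 2).mul hg.meas).aestronglyMeasurable
  · filter_upwards [ae_restrict_mem measurableSet_uIoc] with w hw
    have hwb : |w| ≤ max |a| |b| := by
      rcases le_total a b with h | h
      · rw [uIoc_of_le h] at hw
        exact abs_le_max_abs_abs hw.1.le hw.2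
      · rw [uIoc_of_ge h] at hw
        rw [max_comm]
        exact abs_le_max_abs_abs hw.1.le hw.2
    rw [Real.norm_eq_abs, abs_mul, abs_of_nonneg (by positivity : 0 ≤ w^2), ← sq_abs w]
    rcases le_or_gt 0 w with hw0 | hw0
    · have h1 := hK w hw0
      have h2 : w^2 = |w|^2 := (sq_abs w).symm
      rw [h2] at h1
      have h3 : |w|^2 ≤ (max |a| |b|)^2 := pow_le_pow_left₀ (abs_nonneg w) hwb 2
      apply mul_le_mul h3 (h1.trans ?_) (abs_nonneg _) (by positivity)
      exact mul_le_mul_of_nonneg_left h3 hK0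
    · rw [hg.zero w (by linarith), abs_zero, mul_zero]
      positivity

lemma Qop_eq {g : ℝ → ℝ} {y : ℝ} (hy : 0 < y) :
    Qop g y = (y^3)⁻¹ * ∫ w in (0:ℝ)..y, w^2 * g w := by
  unfold Qop
  have h := intervalIntegral.integral_comp_mul_right (a := 0) (b := 1) (fun w => w^2 * g w) hy.ne'
  rw [zero_mul, one_mul, smul_eq_mul] at h
  have h2 : ∫ v in (0:ℝ)..1, (v * y)^2 * g (v * y) = y^2 * ∫ v in (0:ℝ)..1, v^2 * g (v * y) := by
    rw [← intervalIntegral.integral_const_mul]
    apply intervalIntegral.integral_congr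
    intro v _
    simp only
    ring
  rw [h2] at h
  have hy2 : y ≠ 0 := hy.ne'
  generalize ∫ v in (0:ℝ)..1, v^2 * g (v * y) = A at *
  field_simp
  field_simp at h
  linear_combination h

lemma Qop_continuousAt {g : ℝ → ℝ} (hg : Good g) {y : ℝ} (hy : 0 < y) : ContinuousAt (Qop g) y := by
  have h1 : Continuous fun y => ∫ w in (0:ℝ)..y, w^2 * g w :=
    intervalIntegral.continuous_primitive (fun a b => good_intervalIntegrable hg a b) 0
  have h2 : ContinuousAt (fun y : ℝ => (y^3)⁻¹ * ∫ w in (0:ℝ)..y, w^2 * g w) y := by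
    apply ContinuousAt.mul
    · apply ContinuousAt.inv₀ (by fun_prop)
      positivity
    · exact h1.continuousAt
  refine h2.congr ?_
  filter_upwards [Ioi_mem_nhds hy] with w hw
  exact (Qop_eq hw).symm

lemma Qop_bound {g : ℝ → ℝ} {K e : ℝ} (hg : ∀ y, 0 < y → |g y| ≤ K * y^(-e)) (he : e < 3)
    {y : ℝ} (hy : 0 < y) : |Qop g y| ≤ K / (3 - e) * y^(-e) := by
  unfold Qop
  have h1 : |∫ v in (0:ℝ)..1, v^2 * g (v * y)| ≤ ∫ v in (0:ℝ)..1, (K * y^(-e)) * v^(2-e) := by
    rw [← Real.norm_eq_abs]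
    apply intervalIntegral.norm_integral_le_of_norm_le zero_le_one
    · refine Eventually.of_forall fun v hv => ?_
      have hv0 : 0 < v := hv.1
      rw [Real.norm_eq_abs, abs_mul, abs_of_nonneg (by positivity : 0 ≤ v^2)]
      have h2 := hg (v * y) (mul_pos hv0 hy)
      rw [Real.mul_rpow hv0.le hy.le] at h2
      have h3 : v^(2-e) = v^2 * v^(-e) := by
        rw [sub_eq_add_neg, Real.rpow_add hv0]
        norm_num
      rw [h3]
      calc v^2 * |g (v*y)| ≤ v^2 * (K * (v^(-e) * y^(-e))) := by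
            apply mul_le_mul_of_nonneg_left h2; positivity
        _ = _ := by ring
    · apply IntervalIntegrable.const_mul
      exact intervalIntegral.intervalIntegrable_rpow' (by linarith)
  refine h1.trans (le_of_eq ?_)
  rw [intervalIntegral.integral_const_mul, integral_rpow (Or.inl (by linarith))]
  rw [Real.one_rpow, Real.zero_rpow (by linarith)]
  rw [show 2 - e + 1 = 3 - e by ring]
  ring

end Pool.Agent.Hhelper92.Ortho
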