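import Mathlib

open Complex MeasureTheory Set Filter Topology
open scoped Real ComplexConjugate

namespace Pool.Agent.Hhelper92.Ortho

lemma vert_integrable {h : ℂ → ℂ} {a C : ℝ}
    (hd : ∀ z : ℂ, z.re = a → ContinuousAt h z)
    (hC : ∀ z : ℂ, z.re = a → ‖h z‖ ≤ C / (1 + z.im^2)) :
    Integrable (fun t : ℝ => h (a + t * I)) := by
  have hi : Integrable (fun t : ℝ => C * (1 + t^2)⁻¹) := integrable_inv_one_add_sq.const_mul C
  refine hi.mono' ?_ ?_
  · apply Continuous.aestronglyMeasurable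
    rw [continuous_iff_continuousAt]
    intro t
    have h1 : ContinuousAt h (a + t * I) := hd _ (by simp)
    exact ContinuousAt.comp (f := fun t : ℝ => (a + t * I : ℂ)) h1 (by fun_prop)
  · refine Eventually.of_forall fun t => ?_
    have := hC (a + t * I) (by simp)
    simp only [add_im, ofReal_im, mul_im, ofReal_re, I_im, mul_one, I_re, mul_zero, add_zero, zero_add] at this
    rw [div_eq_mul_inv] at this
    exact this

theorem vertical_shift {h : ℂ → ℂ} {a b C : ℝ} (hab : a ≤ b)
    (hd : ∀ z : ℂ, a ≤ z.re → z.re ≤ b → DifferentiableAt ℂ h z)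
    (hC : ∀ z : ℂ, a ≤ z.re → z.re ≤ b → ‖h z‖ ≤ C / (1 + z.im^2)) :
    ∫ t : ℝ, h (a + t * I) = ∫ t : ℝ, h (b + t * I) := by
  have ia : Integrable (fun t : ℝ => h (a + t * I)) := by
    apply vert_integrable (C := C)
    · intro z hz; exact (hd z hz.ge (by rw [hz]; exact hab)).continuousAt
    · intro z hz; exact hC z hz.ge (by rw [hz]; exact hab)
  have ib : Integrable (fun t : ℝ => h (b + t * I)) := by
    apply vert_integrable (C := C)
    · intro z hz; exact (hd z (by rw [hz]; exact hab) hz.le).continuousAt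
    · intro z hz; exact hC z (by rw [hz]; exact hab) hz.le
  have ta : Tendsto (fun T : ℝ => ∫ t in (-T)..T, h (a + t * I)) atTop (𝓝 (∫ t : ℝ, h (a + t * I))) :=
    intervalIntegral_tendsto_integral ia tendsto_neg_atTop_atBot tendsto_id
  have tb : Tendsto (fun T : ℝ => ∫ t in (-T)..T, h (b + t * I)) atTop (𝓝 (∫ t : ℝ, h (b + t * I))) :=
    intervalIntegral_tendsto_integral ib tendsto_neg_atTop_atBot tendsto_id
  have hrect : ∀ T : ℝ, 0 ≤ T →
      (∫ x in a..b, h (x + (-T : ℝ) * I)) - (∫ x in a..b, h (x + (T : ℝ) * I))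
       + I • (∫ t in (-T)..T, h (b + t * I)) - I • (∫ t in (-T)..T, h (a + t * I)) = 0 := by
    intro T hT
    have := Complex.integral_boundary_rect_eq_zero_of_differentiableOn h (a + (-T : ℝ) * I) (b + (T : ℝ) * I) ?_
    · simpa using this
    · intro z hz
      rw [mem_reProdIm] at hz
      simp only [add_re, ofReal_re, mul_re, I_re, mul_zero, ofReal_im, I_im, mul_one, sub_self, add_zero] at hz
      rw [uIcc_of_le hab] at hz
      exact (hd z hz.1.1 hz.1.2).differentiableWithinAt
  have hside : ∀ s : ℝ → ℝ, (∀ T, s T ^ 2 = T ^ 2) →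
      Tendsto (fun T : ℝ => ∫ x in a..b, h (x + (s T : ℝ) * I)) atTop (𝓝 0) := by
    intro s hs
    rw [tendsto_zero_iff_norm_tendsto_zero]
    have hlim : Tendsto (fun T : ℝ => C / (1 + T^2) * |b - a|) atTop (𝓝 0) := by
      have : Tendsto (fun T : ℝ => C / (1 + T^2)) atTop (𝓝 0) := by
        apply Tendsto.div_atTop tendsto_const_nhds
        apply tendsto_atTop_add_const_left
        exact tendsto_pow_atTop (by norm_num)
      simpa using this.mul_const |b - a|
    refine squeeze_zero (fun T => norm_nonneg _) (fun T => ?_) hlim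
    apply intervalIntegral.norm_integral_le_of_norm_le_const
    intro x hx
    rw [uIoc_of_le hab] at hx
    have h1 := hC (x + (s T : ℝ) * I) (by simp; exact hx.1.le) (by simp; exact hx.2)
    simp only [add_im, ofReal_im, mul_im, ofReal_re, I_im, mul_one, I_re, mul_zero, add_zero, zero_add] at h1
    rw [hs T] at h1
    exact h1
  have s1 := hside (fun T => -T) (by intro T; ring)
  have s2 := hside (fun T => T) (by intro T; ring)
  have hlim := ((s1.sub s2).add (tb.const_smul I)).sub (ta.const_smul I)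
  have hz : Tendsto (fun T : ℝ => (∫ x in a..b, h (x + (-T : ℝ) * I)) - (∫ x in a..b, h (x + (T : ℝ) * I))
       + I • (∫ t in (-T)..T, h (b + t * I)) - I • (∫ t in (-T)..T, h (a + t * I))) atTop (𝓝 0) := by
    apply tendsto_const_nhds.congr'
    filter_upwards [eventually_ge_atTop 0] with T hT
    exact (hrect T hT).symm
  have := tendsto_nhds_unique hlim hz
  rw [sub_zero, zero_add, ← smul_sub, smul_eq_zero] at this
  have h2 := this.resolve_left I_ne_zero
  exact (sub_eq_zero.mp h2).symm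

/-- a continuous function on a vertical strip with decay `O(1/|Im z|^2)` is bounded by `C/(1+(Im z)^2)`. -/
lemma strip_decay {h : ℂ → ℂ} {a b C T : ℝ}
    (hc : ∀ z : ℂ, a ≤ z.re → z.re ≤ b → ContinuousAt h z)
    (hT : ∀ z : ℂ, a ≤ z.re → z.re ≤ b → T ≤ |z.im| → ‖h z‖ ≤ C / (z.im^2)) (hT1 : 1 ≤ T) :
    ∃ C', 0 ≤ C' ∧ ∀ z : ℂ, a ≤ z.re → z.re ≤ b → ‖h z‖ ≤ C' / (1 + z.im^2) := by
  have hcomp : IsCompact (Icc a b ×ℂ Icc (-T) T) := isCompact_Icc.reProdIm isCompact_Icc
  have hcont : ContinuousOn h (Icc a b ×ℂ Icc (-T) T) := by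
    intro z hz
    rw [mem_reProdIm] at hz
    exact (hc z hz.1.1 hz.1.2).continuousWithinAt
  obtain ⟨M, hM⟩ := hcomp.exists_bound_of_continuousOn hcont
  refine ⟨max (|M| * (1 + T^2)) (2 * |C|), by positivity, ?_⟩
  intro z h1 h2
  have hpos : 0 < 1 + z.im^2 := by positivity
  rcases le_or_gt T |z.im| with h3 | h3
  · refine (hT z h1 h2 h3).trans ?_
    have hz1 : 1 ≤ z.im^2 := by
      rw [← sq_abs]; nlinarith
    rw [div_le_div_iff₀ (by positivity) hpos]
    calc C * (1 + z.im^2) ≤ |C| * (2 * z.im^2) := by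
          apply mul_le_mul (le_abs_self C) (by linarith) hpos.le (abs_nonneg C)
      _ = 2 * |C| * z.im^2 := by ring
      _ ≤ _ := by
          apply mul_le_mul_of_nonneg_right (le_max_right _ _); positivity
  · have h4 : z ∈ (Icc a b ×ℂ Icc (-T) T) := by
      rw [mem_reProdIm]
      exact ⟨⟨h1, h2⟩, (abs_le.mp h3.le)⟩
    refine (hM z h4).trans ?_
    rw [le_div_iff₀ hpos]
    have h5 : z.im^2 ≤ T^2 := by
      rw [← sq_abs z.im]
      exact pow_le_pow_left₀ (abs_nonneg _) h3.le 2
    calc M * (1 + z.im^2) ≤ |M| * (1 + T^2) := by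
          apply mul_le_mul (le_abs_self M) (by linarith) hpos.le (abs_nonneg M)
      _ ≤ _ := le_max_left _ _

end Pool.Agent.Hhelper92.Ortho
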