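import Pool.Agent.Hhelper92.Ortho.Rho
import Pool.Agent.Hhelper92.Ortho.Kern
import Pool.Agent.Hhelper92.Ortho.Shift

open Complex MeasureTheory Set Filter Topology
open scoped Real ComplexConjugate

namespace Pool.Agent.Hhelper92.Ortho

/-- numerator of `Mt` -/
noncomputable def Nn (z : ℂ) : ℂ := z / 4 - 7 / 4 - (12 * z + 6) * J 4 (2 - z)

/-- `Mt z = M z - 1/2 + 1/(4(3-z))`. -/
noncomputable def Mt (z : ℂ) : ℂ := Nn z / G z + 1 / (4 * (3 - z))

lemma J4_rel {z : ℂ} (hz : z.re < 3) : (3 - z) * J 4 (2 - z) = 1/16 + 4 * J 5 (3 - z) := by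
  have h := J_ibp 4 (v := 2 - z) (by simp; linarith)
  rw [show (2 - z + 1) = 3 - z by ring] at h
  norm_num at h
  linear_combination h

lemma Nn_differentiableAt {z : ℂ} (hz : z.re < 3) : DifferentiableAt ℂ Nn z := by
  unfold Nn
  have h : DifferentiableAt ℂ (J 4) (2 - z) := J_differentiableAt 4 (by simp; linarith)
  have h2 : DifferentiableAt ℂ (fun z => J 4 (2 - z)) z := by
    exact DifferentiableAt.comp z h (by fun_prop)
  fun_prop

lemma three_sub_ne {z : ℂ} (hz : z.re < 3) : (3 - z) ≠ 0 := by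
  intro h
  have : (3 - z).re = 0 := by rw [h]; simp
  simp at this; linarith

lemma Mt_eq {z : ℂ} (hz : z.re < 3) (hG : G z ≠ 0) :
    Mt z = (13/2 * z - 35/2 - 4 * (12 * z + 6) * (1/16 + 4 * J 5 (3 - z)) + 12 * J 4 (2 - z))
      / (4 * (3 - z) * G z) := by
  unfold Mt
  have h3 := three_sub_ne hz
  have h4 : Nn z / G z + 1 / (4 * (3 - z)) = (4 * (3 - z) * Nn z + G z) / (4 * (3 - z) * G z) := by
    field_simp
  rw [h4]
  congr 1
  unfold Nn
  have h5 := J4_rel hz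
  have h6 : G z = (1 - z) * (2 - z) + (3 - z) / 2 + 12 * J 4 (2 - z) := rfl
  rw [h6]
  linear_combination (-4 * (12 * z + 6)) * h5

lemma G_large {z : ℂ} (h2 : z.re ≤ 17/10) (h3 : 11 ≤ ‖z‖) : ‖z‖^2 / 2 ≤ ‖G z‖ := by
  have hJ : ‖J 4 (2 - z)‖ ≤ 1 := by
    refine (J_norm_le' 4 (v := 2 - z) (by simp; linarith)).trans ?_
    rw [div_le_one (by simp; linarith)]
    simp; linarith
  have h4 : G z = z^2 - (7/2 * z - (7/2 + 12 * J 4 (2 - z))) := by unfold G; ring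
  rw [h4]
  have h5 : ‖z^2‖ - ‖(7/2 * z - (7/2 + 12 * J 4 (2 - z)))‖ ≤ ‖z^2 - (7/2 * z - (7/2 + 12 * J 4 (2 - z)))‖ :=
    norm_sub_norm_le _ _
  have h6 : ‖(7/2 * z - (7/2 + 12 * J 4 (2 - z)))‖ ≤ 7/2 * ‖z‖ + (7/2 + 12) := by
    refine (norm_sub_le _ _).trans ?_
    apply add_le_add
    · rw [norm_mul]; norm_num
    · refine (norm_add_le _ _).trans ?_
      apply add_le_add
      · norm_num
      · rw [norm_mul]; norm_num; linarith
  rw [norm_pow] at h5
  nlinarith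

lemma Mt_large {z : ℂ} (h2 : z.re ≤ 17/10) (h3 : 11 ≤ |z.im|) :
    ‖Mt z‖ ≤ 100 / (z.im^2) := by
  have hz : |z.im| ≤ ‖z‖ := abs_im_le_norm z
  have hz11 : 11 ≤ ‖z‖ := h3.trans hz
  have hG := G_large h2 hz11
  have hG0 : G z ≠ 0 := by
    intro h; rw [h, norm_zero] at hG; nlinarith
  rw [Mt_eq (by linarith) hG0, norm_div, norm_mul, norm_mul]
  have h3' : |z.im| ≤ ‖3 - z‖ := by
    have := abs_im_le_norm (3 - z)
    simpa using this
  have hJ : ‖J 4 (2 - z)‖ ≤ 1 := by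
    refine (J_norm_le' 4 (v := 2 - z) (by simp; linarith)).trans ?_
    rw [div_le_one (by simp; linarith)]
    simp; linarith
  have hJ5 : ‖J 5 (3 - z)‖ ≤ 1/2 := by
    refine (J_norm_le' 5 (v := 3 - z) (by simp; linarith)).trans ?_
    rw [div_le_div_iff₀ (by simp; linarith) (by norm_num)]
    simp; linarith
  have hnum : ‖13/2 * z - 35/2 - 4 * (12 * z + 6) * (1/16 + 4 * J 5 (3 - z)) + 12 * J 4 (2 - z)‖
      ≤ 200 * ‖z‖ := by
    have e1 : ‖(13/2 * z : ℂ)‖ = 13/2 * ‖z‖ := by rw [norm_mul]; norm_num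
    have e2 : ‖(35/2 : ℂ)‖ = 35/2 := by norm_num
    have e3 : ‖(12 * z + 6 : ℂ)‖ ≤ 12 * ‖z‖ + 6 := by
      refine (norm_add_le _ _).trans ?_
      rw [norm_mul]; norm_num
    have e4 : ‖(1/16 + 4 * J 5 (3 - z) : ℂ)‖ ≤ 1/16 + 2 := by
      refine (norm_add_le _ _).trans ?_
      rw [norm_mul]; norm_num; linarith
    have e5 : ‖(4 * (12 * z + 6) * (1/16 + 4 * J 5 (3 - z)) : ℂ)‖ ≤ 4 * (12 * ‖z‖ + 6) * (1/16 + 2) := by
      rw [norm_mul, norm_mul]
      have : ‖(4:ℂ)‖ = 4 := by norm_num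
      rw [this]
      gcongr
    have e6 : ‖(12 * J 4 (2 - z) : ℂ)‖ ≤ 12 := by
      rw [norm_mul]; norm_num; linarith
    have e7 := norm_add_le (13/2 * z - 35/2 - 4 * (12 * z + 6) * (1/16 + 4 * J 5 (3 - z))) (12 * J 4 (2 - z))
    have e8 := norm_sub_le (13/2 * z - 35/2) (4 * (12 * z + 6) * (1/16 + 4 * J 5 (3 - z)))
    have e9 := norm_sub_le (13/2 * z) (35/2)
    nlinarith
  have him : 0 < |z.im| := by linarith
  have hzp : 0 < ‖z‖ := by linarith
  have e4 : ‖(4:ℂ)‖ = 4 := by norm_num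
  rw [e4]
  calc _ ≤ 200 * ‖z‖ / (4 * |z.im| * (‖z‖^2/2)) := by
        apply div_le_div₀ (by positivity) hnum (by positivity)
        gcongr
    _ = 100 / (|z.im| * ‖z‖) := by field_simp; ring
    _ ≤ 100 / (z.im^2) := by
        rw [← sq_abs, sq]
        apply div_le_div_of_nonneg_left (by norm_num) (by positivity)
        gcongr

lemma Mt_differentiableAt {z : ℂ} (hz : z.re < 3) (hG : G z ≠ 0) : DifferentiableAt ℂ Mt z := by
  unfold Mt
  have h1 := Nn_differentiableAt hz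
  have h2 := G_differentiableAt hz
  have h3 : DifferentiableAt ℂ (fun z => 1 / (4 * (3 - z)) : ℂ → ℂ) z := by
    apply DifferentiableAt.div (by fun_prop) (by fun_prop)
    exact mul_ne_zero (by norm_num) (three_sub_ne hz)
  exact (h1.div h2 hG).add h3

lemma G_ne_of_re_le {z : ℂ} (hz : z.re ≤ 4/5) : G z ≠ 0 := by
  intro h
  rw [G_zero_iff (by linarith)] at h
  have h1 := rho_strict.1
  rcases h with h | h
  · rw [h] at hz; norm_num at h1; linarith
  · rw [h] at hz; simp at hz; norm_num at h1; linarith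

lemma Mt_decay : ∃ C, 0 ≤ C ∧ ∀ z : ℂ, -3 ≤ z.re → z.re ≤ 4/5 → ‖Mt z‖ ≤ C / (1 + z.im^2) := by
  apply strip_decay (C := 100) (T := 11)
  · intro z h1 h2
    exact (Mt_differentiableAt (by linarith) (G_ne_of_re_le h2)).continuousAt
  · intro z h1 h2 h3
    exact Mt_large (by linarith) h3
  · norm_num

end Pool.Agent.Hhelper92.Ortho
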