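import Pool.Agent.Hhelper92.Ortho.JInt

open Complex MeasureTheory Set Filter Topology intervalIntegral
open scoped Real ComplexConjugate

namespace Pool.Agent.Hhelper92.Ortho

/-- Nielsen's beta function `β(w) = ∑ (-1)^j/(w+j)`, summed in pairs. -/
noncomputable def nb (w : ℂ) : ℂ := ∑' j : ℕ, (1 / (w + 2 * j) - 1 / (w + 2 * j + 1))

/-- `g*(z) = 2 z ∑_{j≥0} (-1)^j/(z-j)`, summed in pairs. -/
noncomputable def gStar (z : ℂ) : ℂ :=
  2 * z * ∑' j : ℕ, (1 / (z - 2 * j) - 1 / (z - (2 * j + 1)))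

lemma gStar_eq (z : ℂ) : gStar z = -2 * z * nb (-z) := by
  unfold gStar nb
  rw [show (-2 * z * ∑' j : ℕ, (1 / (-z + 2 * (j:ℂ)) - 1 / (-z + 2 * j + 1)))
    = 2 * z * (-(∑' j : ℕ, (1 / (-z + 2 * (j:ℂ)) - 1 / (-z + 2 * j + 1)))) by ring]
  rw [← tsum_neg]
  congr 1
  apply tsum_congr
  intro j
  rw [show (-z + 2 * (j:ℂ)) = -(z - 2 * j) by ring, show (-(z - 2 * (j:ℂ)) + 1) = -(z - (2 * j + 1)) by ring]
  rw [one_div_neg_eq_neg_one_div, one_div_neg_eq_neg_one_div]
  ring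

/-- the summand -/
noncomputable def nbt (w : ℂ) (j : ℕ) : ℂ := 1 / (w + 2 * j) - 1 / (w + 2 * j + 1)

lemma nbt_summable (w : ℂ) : Summable (nbt w) := by
  apply summable_of_isBigO_nat (g := fun n : ℕ => 1 / ((n:ℝ))^2)
  · exact Real.summable_one_div_nat_pow.mpr (by norm_num)
  · apply Asymptotics.IsBigO.of_bound 1
    filter_upwards [eventually_ge_atTop (⌈‖w‖⌉₊ + 1)] with n hn
    have hn1 : ‖w‖ + 1 ≤ n := by
      have h1 := Nat.le_ceil ‖w‖
      have h2 : ((⌈‖w‖⌉₊ + 1 : ℕ) : ℝ) ≤ n := by exact_mod_cast hn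
      push_cast at h2
      linarith
    have hnpos : (0:ℝ) < n := by linarith [norm_nonneg w]
    have h2 : ‖(2 * (n:ℂ))‖ = 2 * n := by simp
    have ha : (n:ℝ) ≤ ‖w + 2 * n‖ := by
      have := norm_sub_norm_le (2 * (n:ℂ)) (-w)
      rw [norm_neg, h2, sub_neg_eq_add, add_comm (2 * (n:ℂ)) w] at this
      linarith
    have hb : (n:ℝ) ≤ ‖w + 2 * n + 1‖ := by
      have := norm_sub_norm_le (2 * (n:ℂ)) (-(w+1))
      rw [norm_neg, h2, sub_neg_eq_add, show 2 * (n:ℂ) + (w + 1) = w + 2 * n + 1 by ring] at this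
      have h3 : ‖w + 1‖ ≤ ‖w‖ + 1 := by simpa using norm_add_le w 1
      linarith
    have ha0 : w + 2 * n ≠ 0 := by
      intro h; rw [h, norm_zero] at ha; linarith
    have hb0 : w + 2 * n + 1 ≠ 0 := by
      intro h; rw [h, norm_zero] at hb; linarith
    have : nbt w n = 1 / ((w + 2 * n) * (w + 2 * n + 1)) := by
      unfold nbt; field_simp; ring
    rw [this, norm_div, norm_mul, norm_one]
    rw [Real.norm_of_nonneg (by positivity), one_mul]
    apply one_div_le_one_div_of_le (by positivity)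
    nlinarith

lemma nb_eq (w : ℂ) : nb w = ∑' j, nbt w j := rfl

/-- integral representation -/
lemma nb_eq_J {w : ℂ} (hw : 0 < w.re) : nb w = J 1 (w - 1) := by
  have hint : ∀ j : ℕ, ∫ t in Ioc (0:ℝ) 1, ((t:ℂ)^(w-1+2*j) - (t:ℂ)^(w-1+2*j+1)) = nbt w j := by
    intro j
    rw [← intervalIntegral.integral_of_le zero_le_one]
    have hre : 0 < (w + 2 * (j:ℂ)).re := by simp; positivity
    have h1 : -1 < (w-1+2*(j:ℂ)).re := by simp at hre ⊢; linarith
    have h2 : -1 < (w-1+2*(j:ℂ)+1).re := by simp at hre ⊢; linarith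
    rw [intervalIntegral.integral_sub (intervalIntegral.intervalIntegrable_cpow' h1)
      (intervalIntegral.intervalIntegrable_cpow' h2)]
    rw [integral_cpow (Or.inl h1), integral_cpow (Or.inl h2)]
    have e1 : w - 1 + 2 * (j:ℂ) + 1 = w + 2 * j := by ring
    have e2 : w + 2 * (j:ℂ) + 1 = w + 2 * j + 1 := rfl
    have n1 : w + 2 * (j:ℂ) ≠ 0 := by intro h; rw [h] at hre; simp at hre
    have n2 : w + 2 * (j:ℂ) + 1 ≠ 0 := by
      intro h
      have : (w + 2 * (j:ℂ) + 1).re = 0 := by rw [h]; simp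
      simp at this hre; linarith
    rw [e1]
    unfold nbt
    simp only [Complex.ofReal_one, Complex.one_cpow, Complex.ofReal_zero]
    rw [Complex.zero_cpow n1, Complex.zero_cpow n2]
    ring
  have hnorm : ∀ j : ℕ, ∫ t in Ioc (0:ℝ) 1, ‖((t:ℂ)^(w-1+2*j) - (t:ℂ)^(w-1+2*j+1))‖
      = (nbt (w.re:ℂ) j).re := by
    intro j
    have hre : 0 < w.re + 2 * (j:ℝ) := by positivity
    have e0 : ∫ t in Ioc (0:ℝ) 1, ‖((t:ℂ)^(w-1+2*j) - (t:ℂ)^(w-1+2*j+1))‖
        = ∫ t in Ioc (0:ℝ) 1, (t^(w.re - 1 + 2 * j) - t^(w.re - 1 + 2 * j + 1)) := by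
      apply setIntegral_congr_fun measurableSet_Ioc
      intro t ht
      have ht0 : (t:ℂ) ≠ 0 := by exact_mod_cast ht.1.ne'
      simp only
      rw [Complex.cpow_add _ 1 ht0, Complex.cpow_one, Real.rpow_add_one ht.1.ne']
      rw [show (t:ℂ)^(w-1+2*(j:ℂ)) - (t:ℂ)^(w-1+2*(j:ℂ)) * t = (t:ℂ)^(w-1+2*(j:ℂ)) * ((1 - t : ℝ) : ℂ) by
        push_cast; ring]
      rw [norm_mul, Complex.norm_cpow_eq_rpow_re_of_pos ht.1, Complex.norm_real, Real.norm_eq_abs,
        abs_of_nonneg (by linarith [ht.2])]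
      simp
      ring
    rw [e0, ← intervalIntegral.integral_of_le zero_le_one]
    have h1 : -1 < w.re - 1 + 2 * (j:ℝ) := by linarith
    have h2 : -1 < w.re - 1 + 2 * (j:ℝ) + 1 := by linarith
    rw [intervalIntegral.integral_sub (intervalIntegral.intervalIntegrable_rpow' h1)
      (intervalIntegral.intervalIntegrable_rpow' h2)]
    rw [integral_rpow (Or.inl h1), integral_rpow (Or.inl h2)]
    rw [Real.one_rpow, Real.one_rpow, Real.zero_rpow (by linarith), Real.zero_rpow (by linarith)]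
    have : nbt (w.re:ℂ) j = ((1 / (w.re + 2 * j) - 1 / (w.re + 2 * j + 1) : ℝ) : ℂ) := by
      unfold nbt; push_cast; ring
    rw [this, Complex.ofReal_re]
    rw [show w.re - 1 + 2 * (j:ℝ) + 1 = w.re + 2 * j by ring]
    ring
  have hInt : ∀ j : ℕ, Integrable (fun t : ℝ => ((t:ℂ)^(w-1+2*(j:ℂ)) - (t:ℂ)^(w-1+2*(j:ℂ)+1)))
      (volume.restrict (Ioc 0 1)) := by
    intro j
    have hre : 0 < (w + 2 * (j:ℂ)).re := by simp; positivity
    have h1 : -1 < (w-1+2*(j:ℂ)).re := by simp at hre ⊢; linarith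
    have h2 : -1 < (w-1+2*(j:ℂ)+1).re := by simp at hre ⊢; linarith
    have := (intervalIntegral.intervalIntegrable_cpow' (a := 0) (b := 1) h1).sub
      (intervalIntegral.intervalIntegrable_cpow' (a := 0) (b := 1) h2)
    rw [intervalIntegrable_iff_integrableOn_Ioc_of_le zero_le_one] at this
    exact this
  have hsum : Summable fun j : ℕ => ∫ t in Ioc (0:ℝ) 1, ‖((t:ℂ)^(w-1+2*(j:ℂ)) - (t:ℂ)^(w-1+2*(j:ℂ)+1))‖ := by
    simp_rw [hnorm]
    exact (Complex.hasSum_re (nbt_summable (w.re:ℂ)).hasSum).summable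
  have key := hasSum_integral_of_summable_integral_norm hInt hsum
  simp_rw [hint] at key
  rw [nb_eq, key.tsum_eq]
  unfold J
  rw [intervalIntegral.integral_of_le zero_le_one, integral_Ioc_eq_integral_Ioo, integral_Ioc_eq_integral_Ioo]
  apply setIntegral_congr_fun measurableSet_Ioo
  intro t ht
  simp only
  have ht0 : (t:ℂ) ≠ 0 := by exact_mod_cast ht.1.ne'
  have hb : (1 + (t:ℂ)) ≠ 0 := one_add_ne ht.1.le
  have hc : (1 - (t:ℂ)) ≠ 0 := by
    intro h
    have : (t:ℂ) = 1 := by linear_combination -h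
    have : t = 1 := by exact_mod_cast this
    linarith [ht.2]
  have e : ∀ j : ℕ, (t:ℂ)^(w-1+2*(j:ℂ)) - (t:ℂ)^(w-1+2*(j:ℂ)+1) = ((t:ℂ)^(w-1) * (1 - t)) * ((t:ℂ)^2)^j := by
    intro j
    rw [Complex.cpow_add _ 1 ht0, Complex.cpow_one, Complex.cpow_add _ _ ht0]
    have : (t:ℂ)^(2*(j:ℂ)) = ((t:ℂ)^2)^j := by
      rw [← pow_mul]
      exact_mod_cast Complex.cpow_natCast (t:ℂ) (2*j)
    rw [this]; ring
  simp_rw [e]
  rw [tsum_mul_left, tsum_geometric_of_norm_lt_one]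
  · have : (1 - (t:ℂ)^2) ≠ 0 := by
      rw [show (1 - (t:ℂ)^2) = (1 - t) * (1 + t) by ring]
      exact mul_ne_zero hc hb
    rw [pow_one]
    field_simp
    ring
  · rw [norm_pow, Complex.norm_real, Real.norm_eq_abs, abs_of_pos ht.1]
    exact pow_lt_one₀ ht.1.le ht.2 (by norm_num)

lemma nb_add_one (w : ℂ) : nb w + nb (w+1) = 1 / w := by
  rw [nb_eq, nb_eq, ← (nbt_summable w).tsum_add (nbt_summable (w+1))]
  have h : HasSum (fun j => nbt w j + nbt (w+1) j) (1 / w) := by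
    rw [((nbt_summable w).add (nbt_summable (w+1))).hasSum_iff_tendsto_nat]
    have e : ∀ n : ℕ, ∑ j ∈ Finset.range n, (nbt w j + nbt (w+1) j) = 1 / w - 1 / (w + 2 * n) := by
      intro n
      induction n with
      | zero => simp
      | succ n ih =>
        rw [Finset.sum_range_succ, ih]
        unfold nbt
        push_cast
        rw [show w + 1 + 2 * (n:ℂ) = w + 2 * n + 1 by ring, show w + 2 * (n:ℂ) + 1 + 1 = w + 2 * (n + 1) by ring]
        ring
    simp_rw [e]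
    have : Tendsto (fun n : ℕ => 1 / (w + 2 * (n:ℂ))) atTop (𝓝 0) := by
      rw [tendsto_zero_iff_norm_tendsto_zero]
      simp_rw [norm_div, norm_one]
      apply Tendsto.div_atTop tendsto_const_nhds
      apply tendsto_atTop_mono (f := fun n : ℕ => 2 * (n:ℝ) - ‖w‖)
      · intro n
        have := norm_sub_norm_le (2 * (n:ℂ)) (-w)
        rw [norm_neg, sub_neg_eq_add, add_comm (2 * (n:ℂ)) w] at this
        simpa using this
      · apply tendsto_atTop_add_const_right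
        exact (tendsto_natCast_atTop_atTop).const_mul_atTop (by norm_num)
    simpa using tendsto_const_nhds.sub this
  exact h.tsum_eq

lemma mem_intCompl {w : ℂ} (hw : w ∈ integerComplement) (n : ℤ) : w + n ≠ 0 := by
  intro h
  apply hw
  exact ⟨-n, by push_cast; linear_combination -h⟩

/-- reflection formula -/
lemma nb_reflection {w : ℂ} (hw : w ∈ integerComplement) :
    nb w + nb (1 - w) = π / Complex.sin (π * w) := by
  have h2 : w / 2 ∈ integerComplement := by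
    rintro ⟨n, hn⟩
    apply hw
    exact ⟨2 * n, by push_cast; rw [hn]; ring⟩
  have h3 : (w + 1) / 2 ∈ integerComplement := by
    rintro ⟨n, hn⟩
    apply hw
    exact ⟨2 * n - 1, by push_cast; rw [hn]; ring⟩
  have hne := mem_intCompl hw
  have hs : Complex.sin (π * w) ≠ 0 := by
    intro h
    rw [Complex.sin_eq_zero_iff] at h
    obtain ⟨k, hk⟩ := h
    apply hw
    refine ⟨k, ?_⟩
    have hpi : (π:ℂ) ≠ 0 := by exact_mod_cast Real.pi_ne_zero
    apply mul_left_cancel₀ hpi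
    rw [hk]; ring
  -- trigonometric identity
  have trig : π / Complex.sin (π * w) = (1/2) * (π * Complex.cot (π * (w / 2)) - π * Complex.cot (π * ((w + 1) / 2))) := by
    set x : ℂ := π * (w/2) with hx
    have e1 : (π:ℂ) * w = 2 * x := by rw [hx]; ring
    have e2 : (π:ℂ) * ((w + 1)/2) = x + π/2 := by rw [hx]; ring
    rw [e1, e2]
    rw [Complex.cot_eq_cos_div_sin, Complex.cot_eq_cos_div_sin, Complex.cos_add_pi_div_two, Complex.sin_add_pi_div_two]
    rw [e1, Complex.sin_two_mul] at hs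
    have hs1 : Complex.sin x ≠ 0 := fun h => hs (by rw [h]; ring)
    have hs2 : Complex.cos x ≠ 0 := fun h => hs (by rw [h]; ring)
    rw [Complex.sin_two_mul]
    have := Complex.sin_sq_add_cos_sq x
    field_simp
    linear_combination -this
  have c2' := cot_series_rep' h2
  have c3' := cot_series_rep' h3
  have s2 : Summable fun n : ℕ => (1 / (w/2 - (n + 1)) + 1 / (w/2 + (n + 1))) := by
    simpa [cotTerm] using summable_cotTerm h2
  have s3 : Summable fun n : ℕ => (1 / ((w+1)/2 - (n + 1)) + 1 / ((w+1)/2 + (n + 1))) := by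
    simpa [cotTerm] using summable_cotTerm h3
  have hw0 : w ≠ 0 := by simpa using hne 0
  have hw1 : w + 1 ≠ 0 := by simpa using hne 1
  have d2 : π * Complex.cot (π * (w / 2)) = 2 / w + ∑' n : ℕ, (1 / (w/2 - (n + 1)) + 1 / (w/2 + (n + 1))) := by
    rw [← c2']; field_simp; ring
  have d3 : π * Complex.cot (π * ((w+1) / 2)) = 2 / (w + 1) + ∑' n : ℕ, (1 / ((w+1)/2 - (n + 1)) + 1 / ((w+1)/2 + (n + 1))) := by
    rw [← c3']; field_simp; ring
  rw [trig, d2, d3]
  have hsub := s2.tsum_sub s3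
  have hA : nb w = nbt w 0 + ∑' n, nbt w (n+1) := by
    rw [nb_eq]; exact (nbt_summable w).tsum_eq_zero_add
  have sA : Summable (fun n => nbt w (n+1)) := (summable_nat_add_iff 1).mpr (nbt_summable w)
  have sB := nbt_summable (1 - w)
  have hAB : ∑' n, nbt w (n+1) + nb (1-w) = ∑' n : ℕ, (1/2) * ((1 / (w/2 - ((n:ℂ) + 1)) + 1 / (w/2 + ((n:ℂ) + 1)))
      - (1 / ((w+1)/2 - ((n:ℂ) + 1)) + 1 / ((w+1)/2 + ((n:ℂ) + 1)))) := by
    rw [nb_eq, ← sA.tsum_add sB]
    apply tsum_congr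
    intro n
    unfold nbt
    have e1 := hne (-(2*(n+1)) : ℤ)
    have e2 := hne ((2*(n+1)) : ℤ)
    have e3 := hne (-(2*n+1) : ℤ)
    have e4 := hne ((2*(n+1)+1) : ℤ)
    push_cast at e1 e2 e3 e4
    have f1 : w/2 - ((n:ℂ)+1) = (w + -(2*((n:ℂ)+1)))/2 := by ring
    have f2 : w/2 + ((n:ℂ)+1) = (w + (2*((n:ℂ)+1)))/2 := by ring
    have f3 : (w+1)/2 - ((n:ℂ)+1) = (w + -(2*(n:ℂ)+1))/2 := by ring
    have f4 : (w+1)/2 + ((n:ℂ)+1) = (w + (2*((n:ℂ)+1)+1))/2 := by ring
    rw [f1, f2, f3, f4]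
    push_cast
    have g1 : 1 - w + 2 * (n:ℂ) = -(w + -(2*(n:ℂ)+1)) := by ring
    have g2 : -(w + -(2*(n:ℂ)+1)) + 1 = -(w + -(2*((n:ℂ)+1))) := by ring
    have g3 : w + 2 * ((n:ℂ)+1) + 1 = w + (2*((n:ℂ)+1)+1) := by ring
    rw [g1, g2, g3]
    rw [one_div_neg_eq_neg_one_div, one_div_neg_eq_neg_one_div]
    rw [one_div_div, one_div_div, one_div_div, one_div_div]
    ring
  rw [tsum_mul_left, hsub] at hAB
  rw [hA, add_assoc, hAB]
  have h0 : nbt w 0 = 1 / w - 1 / (w + 1) := by unfold nbt; simp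
  rw [h0]
  ring

end Pool.Agent.Hhelper92.Ortho
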