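import Pool.Agent.Hhelper92.Ortho.EMlim

open Complex MeasureTheory Set Filter Topology
open scoped Real ComplexConjugate

namespace Pool.Agent.Hhelper92.Ortho

noncomputable def iJ (n m : ℕ) : ℝ := ∫ t in (0:ℝ)..1, t^m / (1+t)^n

lemma iJ_contOn (n m : ℕ) : ContinuousOn (fun t : ℝ => t^m / (1+t)^n) (Icc 0 1) := by
  intro t ht
  apply ContinuousAt.continuousWithinAt
  apply ContinuousAt.div (by fun_prop) (by fun_prop)
  have : 0 < 1 + t := by linarith [ht.1]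
  positivity

lemma iJ_int (n m : ℕ) : IntervalIntegrable (fun t : ℝ => t^m / (1+t)^n) volume 0 1 := by
  apply ContinuousOn.intervalIntegrable
  rw [uIcc_of_le zero_le_one]
  exact iJ_contOn n m

lemma iJ_split (n m : ℕ) : iJ n m = iJ (n+1) m + iJ (n+1) (m+1) := by
  unfold iJ
  rw [← intervalIntegral.integral_add (iJ_int _ _) (iJ_int _ _)]
  apply intervalIntegral.integral_congr
  intro t ht
  rw [uIcc_of_le zero_le_one] at ht
  have : (1 + t) ≠ 0 := by linarith [ht.1]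
  simp only
  field_simp
  ring

lemma iJ_zero (m : ℕ) : iJ 0 m = 1 / (m + 1) := by
  unfold iJ
  simp only [pow_zero, div_one]
  rw [integral_pow]; simp

lemma iJ_ibp (n : ℕ) : 1 / 2^n = iJ n 0 - n * iJ (n+1) 1 := by
  have h1 : ∀ t ∈ uIcc (0:ℝ) 1, HasDerivAt (fun t : ℝ => t / (1+t)^n) (t^0 / (1+t)^n - n * (t^1 / (1+t)^(n+1))) t := by
    intro t ht
    rw [uIcc_of_le zero_le_one] at ht
    have hne : (1 + t) ≠ 0 := by linarith [ht.1]
    have h2 : HasDerivAt (fun t : ℝ => (1 + t)) 1 t := (hasDerivAt_id t).const_add 1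
    have h3 := (hasDerivAt_id t).div (h2.pow n) (pow_ne_zero n hne)
    refine h3.congr_deriv ?_
    simp only [Pi.pow_apply, id_eq, mul_one, one_mul, pow_zero, pow_one]
    rcases Nat.eq_zero_or_pos n with h | h
    · subst h; simp
    · obtain ⟨m, rfl⟩ : ∃ m, n = m + 1 := ⟨n - 1, by omega⟩
      simp only [Nat.add_sub_cancel]
      field_simp
      ring
  have h2 := intervalIntegral.integral_eq_sub_of_hasDerivAt h1
    ((iJ_int n 0).sub ((iJ_int (n+1) 1).const_mul n))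
  rw [intervalIntegral.integral_sub (iJ_int n 0) ((iJ_int (n+1) 1).const_mul n),
    intervalIntegral.integral_const_mul] at h2
  unfold iJ
  rw [h2]
  norm_num

lemma iJ_10 : iJ 1 0 = Real.log 2 := by
  unfold iJ
  rw [← int_inv_one]
  simp

noncomputable def LL (n j : ℕ) : ℝ := (2/5) * iJ n j + (3/5) * iJ n (j+1)

/-- all the values needed -/
lemma iJ_vals : iJ 1 1 = 1 - Real.log 2 ∧ iJ 1 2 = Real.log 2 - 1/2 ∧ iJ 1 3 = 5/6 - Real.log 2 ∧
    iJ 2 0 = 1/2 ∧ iJ 2 1 = Real.log 2 - 1/2 ∧ iJ 2 2 = 3/2 - 2 * Real.log 2 ∧ iJ 2 3 = 3 * Real.log 2 - 2 ∧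
    iJ 3 0 = 3/8 ∧ iJ 3 1 = 1/8 ∧ iJ 3 2 = Real.log 2 - 5/8 ∧ iJ 3 3 = 17/8 - 3 * Real.log 2 ∧
    iJ 4 0 = 7/24 ∧ iJ 4 1 = 1/12 ∧ iJ 4 2 = 1/24 ∧ iJ 4 3 = Real.log 2 - 2/3 := by
  have z0 := iJ_zero 0
  have z1 := iJ_zero 1
  have z2 := iJ_zero 2
  have a0 := iJ_split 0 0
  have a1 := iJ_split 0 1
  have a2 := iJ_split 0 2
  have b0 := iJ_split 1 0
  have b1 := iJ_split 1 1
  have b2 := iJ_split 1 2
  have c0 := iJ_split 2 0
  have c1 := iJ_split 2 1
  have c2 := iJ_split 2 2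
  have d0 := iJ_split 3 0
  have d1 := iJ_split 3 1
  have d2 := iJ_split 3 2
  have p1 := iJ_ibp 1
  have p2 := iJ_ibp 2
  have p3 := iJ_ibp 3
  have l := iJ_10
  norm_num at z0 z1 z2 a0 a1 a2 b0 b1 b2 c0 c1 c2 d0 d1 d2 p1 p2 p3
  refine ⟨?_, ?_, ?_, ?_, ?_, ?_, ?_, ?_, ?_, ?_, ?_, ?_, ?_, ?_, ?_⟩ <;> linarith

lemma rpow_bound {t θ : ℝ} (ht0 : 0 < t) (ht1 : t ≤ 1) (hθ : 3/5 ≤ θ) : t^θ ≤ 2/5 + 3/5 * t := by
  have h1 : t^θ ≤ t^(3/5:ℝ) := Real.rpow_le_rpow_of_exponent_ge ht0 ht1 hθ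
  have h2 := Real.geom_mean_le_arith_mean2_weighted (w₁ := 2/5) (w₂ := 3/5) (p₁ := 1) (p₂ := t)
    (by norm_num) (by norm_num) (by norm_num) ht0.le (by norm_num)
  rw [Real.one_rpow, one_mul, mul_one] at h2
  linarith

noncomputable def gh (s : ℂ) (t : ℝ) : ℝ := 2 * (‖s * (s-1) * (s-2)‖ * (t^(2 - s.re) / (1+t)^1)
  + 3 * ‖s * (s-1)‖ * (t^(2 - s.re) / (1+t)^2) + 6 * ‖s‖ * (t^(2 - s.re) / (1+t)^3)
  + 6 * (t^(2 - s.re) / (1+t)^4))

lemma mj_gh {s : ℂ} {u : ℝ} (hu : 0 < u) : mj s 1 u = gh s u⁻¹ * (u^2)⁻¹ := by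
  unfold mj gh
  have h : ∀ (n : ℕ), n ≤ 4 → u^(s.re - 4 + n) / (u + 1)^n = (u⁻¹)^(2 - s.re) / (1 + u⁻¹)^n * (u^2)⁻¹ := by
    intro n hn
    have e1 : (u⁻¹)^(2 - s.re) = u^(s.re - 4) * u^2 := by
      rw [Real.inv_rpow hu.le, ← Real.rpow_neg hu.le]
      rw [show -(2 - s.re) = (s.re - 4) + 2 by ring, Real.rpow_add hu]
      congr 1
      exact_mod_cast Real.rpow_natCast u 2
    have e2 : 1 + u⁻¹ = (u + 1) / u := by field_simp
    rw [e1, e2, div_pow, Real.rpow_add hu, Real.rpow_natCast]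
    have : u + 1 ≠ 0 := by positivity
    field_simp
  have e1 := h 1 (by norm_num)
  have e2 := h 2 (by norm_num)
  have e3 := h 3 (by norm_num)
  have e4 := h 4 (by norm_num)
  push_cast at e1 e2 e3 e4
  rw [show s.re - 4 + 1 = s.re - 3 by ring, pow_one] at e1
  rw [show s.re - 4 + 2 = s.re - 2 by ring] at e2
  rw [show s.re - 4 + 3 = s.re - 1 by ring] at e3
  rw [show s.re - 4 + 4 = s.re by ring] at e4
  rw [e1, e2, e3, e4]
  ring

lemma gh_continuousOn {s : ℂ} {a : ℝ} (ha : 0 < a) : ContinuousOn (gh s) (Icc a 1) := by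
  intro t ht
  have ht0 : 0 < t := ha.trans_le ht.1
  apply ContinuousAt.continuousWithinAt
  unfold gh
  have h : ∀ (n : ℕ), ContinuousAt (fun t : ℝ => t^(2 - s.re) / (1+t)^n) t := by
    intro n
    apply ContinuousAt.div
    · exact Real.continuousAt_rpow_const _ _ (Or.inl ht0.ne')
    · fun_prop
    · positivity
  exact (((((h 1).const_mul ‖s * (s-1) * (s-2)‖).add ((h 2).const_mul (3 * ‖s * (s-1)‖))).add
    ((h 3).const_mul (6 * ‖s‖))).add ((h 4).const_mul 6)).const_mul 2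

noncomputable def hh (s : ℂ) (j : ℕ) (t : ℝ) : ℝ :=
  2 * (‖s * (s-1) * (s-2)‖ * ((2/5) * (t^j / (1+t)^1) + (3/5) * (t^(j+1) / (1+t)^1))
  + 3 * ‖s * (s-1)‖ * ((2/5) * (t^j / (1+t)^2) + (3/5) * (t^(j+1) / (1+t)^2))
  + 6 * ‖s‖ * ((2/5) * (t^j / (1+t)^3) + (3/5) * (t^(j+1) / (1+t)^3))
  + 6 * ((2/5) * (t^j / (1+t)^4) + (3/5) * (t^(j+1) / (1+t)^4)))

lemma gh_le_hh {s : ℂ} {j : ℕ} (hθ : 3/5 ≤ 2 - s.re - j) {t : ℝ} (ht0 : 0 < t) (ht1 : t ≤ 1) :
    gh s t ≤ hh s j t := by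
  unfold gh hh
  have h : ∀ n : ℕ, t^(2 - s.re) / (1+t)^n ≤ (2/5) * (t^j / (1+t)^n) + (3/5) * (t^(j+1) / (1+t)^n) := by
    intro n
    have h1 := rpow_bound ht0 ht1 hθ
    have h2 : t^(2 - s.re) = t^(2 - s.re - j) * t^j := by
      rw [← Real.rpow_natCast t j, ← Real.rpow_add ht0]; congr 1; ring
    have h3 : (2/5) * (t^j / (1+t)^n) + (3/5) * (t^(j+1) / (1+t)^n) = (2/5 + 3/5 * t) * t^j / (1+t)^n := by
      rw [pow_succ]; ring
    rw [h2, h3]
    gcongr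
  have e1 := h 1
  have e2 := h 2
  have e3 := h 3
  have e4 := h 4
  gcongr

lemma hh_contOn (s : ℂ) (j : ℕ) : ContinuousOn (hh s j) (Icc 0 1) := by
  unfold hh
  have h : ∀ n m : ℕ, ContinuousOn (fun t : ℝ => t^m / (1+t)^n) (Icc 0 1) := iJ_contOn
  have h2 : ∀ n : ℕ, ContinuousOn (fun t : ℝ => (2/5) * (t^j / (1+t)^n) + (3/5) * (t^(j+1) / (1+t)^n)) (Icc 0 1) :=
    fun n => (continuousOn_const.mul (h n j)).add (continuousOn_const.mul (h n (j+1)))
  exact continuousOn_const.mul ((((continuousOn_const.mul (h2 1)).add (continuousOn_const.mul (h2 2))).add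
    (continuousOn_const.mul (h2 3))).add (continuousOn_const.mul (h2 4)))

noncomputable def Bd (s : ℂ) (j : ℕ) : ℝ := 2 * (‖s * (s-1) * (s-2)‖ * LL 1 j
  + 3 * ‖s * (s-1)‖ * LL 2 j + 6 * ‖s‖ * LL 3 j + 6 * LL 4 j)

lemma hh_integral (s : ℂ) (j : ℕ) : ∫ t in (0:ℝ)..1, hh s j t = Bd s j := by
  have h2 : ∀ n : ℕ, IntervalIntegrable (fun t : ℝ => (2/5) * (t^j / (1+t)^n) + (3/5) * (t^(j+1) / (1+t)^n)) volume 0 1 :=
    fun n => ((iJ_int n j).const_mul _).add ((iJ_int n (j+1)).const_mul _)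
  have h3 : ∀ n : ℕ, ∫ t in (0:ℝ)..1, ((2/5) * (t^j / (1+t)^n) + (3/5) * (t^(j+1) / (1+t)^n)) = LL n j := by
    intro n
    rw [intervalIntegral.integral_add ((iJ_int n j).const_mul _) ((iJ_int n (j+1)).const_mul _),
      intervalIntegral.integral_const_mul, intervalIntegral.integral_const_mul]
    rfl
  unfold hh Bd
  rw [intervalIntegral.integral_const_mul,
    intervalIntegral.integral_add ((((h2 1).const_mul _).add ((h2 2).const_mul _)).add ((h2 3).const_mul _)) ((h2 4).const_mul _),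
    intervalIntegral.integral_add (((h2 1).const_mul _).add ((h2 2).const_mul _)) ((h2 3).const_mul _),
    intervalIntegral.integral_add ((h2 1).const_mul _) ((h2 2).const_mul _),
    intervalIntegral.integral_const_mul, intervalIntegral.integral_const_mul, intervalIntegral.integral_const_mul,
    intervalIntegral.integral_const_mul, h3, h3, h3, h3]

lemma hh_nonneg {s : ℂ} {j : ℕ} {t : ℝ} (ht : 0 ≤ t) : 0 ≤ hh s j t := by
  unfold hh; positivity

theorem mj_integral_le {s : ℂ} {j : ℕ} (hθ : 3/5 ≤ 2 - s.re - j) {Z : ℝ} (hZ : 1 ≤ Z) :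
    ∫ u in (1:ℝ)..Z, mj s 1 u ≤ Bd s j := by
  have hZ0 : 0 < Z := by linarith
  have hZi : 0 < Z⁻¹ := inv_pos.mpr hZ0
  have hZi1 : Z⁻¹ ≤ 1 := inv_le_one_of_one_le₀ hZ
  have h1 : ∫ u in (1:ℝ)..Z, mj s 1 u = ∫ t in Z⁻¹..1, gh s t := by
    have h2 := intervalIntegral.integral_comp_mul_deriv' (a := 1) (b := Z) (f := fun u => u⁻¹)
      (f' := fun u => -(u^2)⁻¹) (g := gh s) ?_ ?_ ?_
    · rw [inv_one] at h2
      rw [intervalIntegral.integral_symm 1 Z⁻¹, ← h2, ← intervalIntegral.integral_neg]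
      apply intervalIntegral.integral_congr
      intro u hu
      rw [uIcc_of_le hZ] at hu
      simp only [Function.comp_apply]
      rw [mj_gh (by linarith [hu.1])]
      ring
    · intro u hu
      rw [uIcc_of_le hZ] at hu
      exact hasDerivAt_inv (by linarith [hu.1])
    · intro u hu
      rw [uIcc_of_le hZ] at hu
      apply ContinuousAt.continuousWithinAt
      have : u ≠ 0 := by linarith [hu.1]
      apply ContinuousAt.neg
      apply ContinuousAt.inv₀ (by fun_prop)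
      positivity
    · apply (gh_continuousOn hZi).mono
      rintro t ⟨u, hu, rfl⟩
      rw [uIcc_of_le hZ] at hu
      have hu0 : 0 < u := by linarith [hu.1]
      exact ⟨inv_anti₀ hu0 hu.2, inv_le_one_of_one_le₀ hu.1⟩
  rw [h1, ← hh_integral]
  have hc := hh_contOn s j
  have i1 : IntervalIntegrable (hh s j) volume 0 Z⁻¹ := by
    apply ContinuousOn.intervalIntegrable
    rw [uIcc_of_le hZi.le]
    exact hc.mono (Icc_subset_Icc le_rfl hZi1)
  have i2 : IntervalIntegrable (hh s j) volume Z⁻¹ 1 := by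
    apply ContinuousOn.intervalIntegrable
    rw [uIcc_of_le hZi1]
    exact hc.mono (Icc_subset_Icc hZi.le le_rfl)
  rw [← intervalIntegral.integral_add_adjacent_intervals i1 i2]
  have h2 : 0 ≤ ∫ t in (0:ℝ)..Z⁻¹, hh s j t := by
    apply intervalIntegral.integral_nonneg hZi.le
    intro t ht
    exact hh_nonneg ht.1
  have h3 : ∫ t in Z⁻¹..1, gh s t ≤ ∫ t in Z⁻¹..1, hh s j t := by
    apply intervalIntegral.integral_mono_on hZi1 _ i2
    · intro t ht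
      exact gh_le_hh hθ (hZi.trans_le ht.1) ht.2
    · apply ContinuousOn.intervalIntegrable
      rw [uIcc_of_le hZi1]
      exact gh_continuousOn hZi
  linarith

end Pool.Agent.Hhelper92.Ortho
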