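import Pool.Agent.Hhelper92.Ortho.Decay

open Complex MeasureTheory Set Filter Topology
open scoped Real ComplexConjugate

namespace Pool.Agent.Hhelper92.Ortho

lemma remove_pole {F : ℂ → ℂ} {U : Set ℂ} {p r : ℂ} (hU : IsOpen U) (hp : p ∈ U)
    (hF : ∀ z ∈ U, z ≠ p → DifferentiableAt ℂ F z)
    (hr : Tendsto (fun z => (z - p) * F z) (𝓝[≠] p) (𝓝 r)) :
    ∃ φ : ℂ → ℂ, (∀ z ∈ U, DifferentiableAt ℂ φ z) ∧ ∀ z, z ≠ p → φ z = F z - r / (z - p) := by
  set f : ℂ → ℂ := fun z => F z - r / (z - p) with hf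
  have hfd : ∀ z ∈ U, z ≠ p → DifferentiableAt ℂ f z := by
    intro z hz hzp
    apply (hF z hz hzp).sub
    apply DifferentiableAt.div (by fun_prop) (by fun_prop)
    exact sub_ne_zero.mpr hzp
  have ho : (fun z => f z - f p) =o[𝓝[≠] p] fun z => (z - p)⁻¹ := by
    apply Asymptotics.isLittleO_of_tendsto'
    · filter_upwards [self_mem_nhdsWithin] with z hz h
      exfalso
      rw [inv_eq_zero, sub_eq_zero] at h
      exact hz h
    · have h1 : Tendsto (fun z => (z - p) * F z - r - (z - p) * f p) (𝓝[≠] p) (𝓝 (r - r - 0)) := by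
        apply Tendsto.sub
        · exact hr.sub tendsto_const_nhds
        · have : Tendsto (fun z => (z - p) * f p) (𝓝 p) (𝓝 ((p - p) * f p)) := by
            apply Continuous.tendsto (by fun_prop)
          rw [sub_self, zero_mul] at this
          exact this.mono_left nhdsWithin_le_nhds
      rw [sub_self, sub_zero] at h1
      apply h1.congr'
      filter_upwards [self_mem_nhdsWithin] with z hz
      have hz' : z - p ≠ 0 := sub_ne_zero.mpr hz
      rw [div_inv_eq_mul]
      simp only [hf]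
      field_simp
  have h := differentiableOn_update_limUnder_of_isLittleO (f := f) (hU.mem_nhds hp)
    (fun z hz => (hfd z hz.1 hz.2).differentiableWithinAt) ho
  refine ⟨Function.update f p (limUnder (𝓝[≠] p) f), fun z hz => ?_, fun z hz => ?_⟩
  · exact (h z hz).differentiableAt (hU.mem_nhds hz)
  · rw [Function.update_of_ne hz]

lemma tendsto_simple_pole {N G : ℂ → ℂ} {p : ℂ} {d : ℂ} (hN : ContinuousAt N p) (hG : HasDerivAt G d p)
    (h0 : G p = 0) (hd : d ≠ 0) :
    Tendsto (fun z => (z - p) * (N z / G z)) (𝓝[≠] p) (𝓝 (N p / d)) := by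
  have h1 := hG.tendsto_slope
  have h2 : Tendsto (fun z => N z / slope G p z) (𝓝[≠] p) (𝓝 (N p / d)) :=
    (hN.tendsto.mono_left nhdsWithin_le_nhds).div h1 hd
  apply h2.congr'
  filter_upwards [self_mem_nhdsWithin] with z hz
  have hz' : z - p ≠ 0 := sub_ne_zero.mpr hz
  rw [slope_def_field, h0, sub_zero]
  rw [div_div_eq_mul_div]
  ring

/-- the kernel whose Mellin transform is `1/(p-z) - 1/(3-z)` -/
noncomputable def gk (p : ℂ) (u : ℝ) : ℂ := ((max u 1 : ℝ) : ℂ)^(-p) - ((max u 1 : ℝ) : ℂ)^(-(3:ℂ))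

lemma gk_zero (p : ℂ) {u : ℝ} (hu : u ≤ 1) : gk p u = 0 := by
  unfold gk
  rw [max_eq_right hu]
  simp

lemma gk_cont (p : ℂ) : Continuous (gk p) := by
  unfold gk
  have h : Continuous fun u : ℝ => ((max u 1 : ℝ) : ℂ) := by fun_prop
  have hs : ∀ u : ℝ, ((max u 1 : ℝ) : ℂ) ∈ slitPlane := by
    intro u
    rw [ofReal_mem_slitPlane]
    have : 1 ≤ max u 1 := le_max_right _ _
    linarith
  apply Continuous.sub
  · exact h.cpow continuous_const hs
  · exact h.cpow continuous_const hs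

lemma gk_mellin {p z : ℂ} (hz : z.re < p.re) (hz3 : z.re < 3) :
    MellinConvergent (gk p) z ∧ mellin (gk p) z = 1 / (p - z) - 1 / (3 - z) := by
  have key : ∀ t ∈ Ioi (0:ℝ), (t:ℂ)^(z-1) • gk p t
      = (Ioi (1:ℝ)).indicator (fun t => (t:ℂ)^(z-1-p) - (t:ℂ)^(z-1-3)) t := by
    intro t ht
    have ht0 : (0:ℝ) < t := ht
    have htc : (t:ℂ) ≠ 0 := by exact_mod_cast ht0.ne'
    by_cases h : 1 < t
    · rw [indicator_of_mem (show t ∈ Ioi (1:ℝ) from h)]
      unfold gk
      rw [max_eq_left h.le, smul_eq_mul, mul_sub, ← Complex.cpow_add _ _ htc, ← Complex.cpow_add _ _ htc]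
      rfl
    · rw [indicator_of_notMem (show t ∉ Ioi (1:ℝ) from h), gk_zero p (not_lt.mp h), smul_zero]
  have i1 : IntegrableOn (fun t : ℝ => (t:ℂ)^(z-1-p)) (Ioi 1) :=
    integrableOn_Ioi_cpow_of_lt (by simp; linarith) one_pos
  have i2 : IntegrableOn (fun t : ℝ => (t:ℂ)^(z-1-3)) (Ioi 1) :=
    integrableOn_Ioi_cpow_of_lt (by simp; linarith) one_pos
  constructor
  · unfold MellinConvergent
    rw [integrableOn_congr_fun key measurableSet_Ioi]
    have : IntegrableOn (fun t : ℝ => (t:ℂ)^(z-1-p) - (t:ℂ)^(z-1-3)) (Ioi 1) := i1.sub i2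
    exact (integrable_indicator_iff measurableSet_Ioi).mpr this |>.integrableOn
  · unfold mellin
    rw [setIntegral_congr_fun measurableSet_Ioi key, setIntegral_indicator measurableSet_Ioi]
    rw [show Ioi (0:ℝ) ∩ Ioi 1 = Ioi 1 by
      ext x; simp only [mem_inter_iff, mem_Ioi]
      constructor
      · intro h; exact h.2
      · intro h; exact ⟨by linarith, h⟩]
    rw [integral_sub i1 i2, integral_Ioi_cpow_of_lt (by simp; linarith) one_pos,
      integral_Ioi_cpow_of_lt (by simp; linarith) one_pos]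
    rw [ofReal_one, one_cpow, one_cpow]
    have e1 : z - 1 - p + 1 = -(p - z) := by ring
    have e2 : z - 1 - 3 + 1 = -(3 - z) := by ring
    rw [e1, e2, neg_div_neg_eq, neg_div_neg_eq]

lemma norm_inv_sub_inv_le {p z : ℂ} {T : ℝ} (hT : 2 * |p.im| ≤ T) (hT1 : 1 ≤ T) (hz : T ≤ |z.im|) :
    ‖1 / (p - z) - 1 / (3 - z)‖ ≤ (2 * ‖p - 3‖) / z.im^2 := by
  have h1 : |z.im| / 2 ≤ ‖p - z‖ := by
    have h2 := abs_im_le_norm (p - z)
    have h3 : (p - z).im = p.im - z.im := by simp
    rw [h3] at h2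
    have h4 : |z.im| - |p.im| ≤ |p.im - z.im| := by
      have := abs_sub_abs_le_abs_sub z.im p.im
      rw [abs_sub_comm p.im]; exact this
    linarith
  have h2 : |z.im| ≤ ‖3 - z‖ := by
    have h2 := abs_im_le_norm (3 - z)
    simpa using h2
  have hpos : 0 < |z.im| := by linarith
  have hp1 : p - z ≠ 0 := by intro h; rw [h, norm_zero] at h1; linarith
  have hp2 : 3 - z ≠ 0 := by intro h; rw [h, norm_zero] at h2; linarith
  have h3 : 1 / (p - z) - 1 / (3 - z) = -(p - 3) / ((p - z) * (3 - z)) := by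
    field_simp
    ring
  rw [h3, norm_div, norm_neg, norm_mul]
  have h4 : z.im^2 / 2 ≤ ‖p - z‖ * ‖3 - z‖ := by
    calc z.im^2 / 2 = |z.im| / 2 * |z.im| := by rw [← sq_abs]; ring
      _ ≤ _ := by apply mul_le_mul h1 h2 (by positivity) (by positivity)
  have h5 : 0 < z.im^2 := by rw [← sq_abs]; positivity
  rw [div_le_div_iff₀ (by positivity) h5]
  have h6 := norm_nonneg (p - 3)
  nlinarith

end Pool.Agent.Hhelper92.Ortho
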