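import Pool.Agent.Hhelper92.Ortho.Zeros

open Complex MeasureTheory Set Filter Topology intervalIntegral
open scoped Real ComplexConjugate

namespace Pool.Agent.Hhelper92.Ortho

lemma Phi_re (z : ℂ) : (Phi z).re = 3/2 + (Lam z).im / π := by
  unfold Phi
  have hpi' : (π:ℂ) ≠ 0 := by exact_mod_cast Real.pi_ne_zero
  have : (3/2 + (I / π) * ((Real.log (4 * π) : ℝ) - Lam z)) =
    ((3/2 + (Lam z).im / π : ℝ) : ℂ) + (((Real.log (4 * π) - (Lam z).re) / π : ℝ) : ℂ) * I := by
    apply Complex.ext
    · simp [Complex.div_re, Complex.div_im]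
      field_simp
    · simp [Complex.div_re, Complex.div_im]
      field_simp
  rw [this]
  simp

lemma Phi_im (z : ℂ) : (Phi z).im = (Real.log (4 * π) - (Lam z).re) / π := by
  unfold Phi
  have hpi' : (π:ℂ) ≠ 0 := by exact_mod_cast Real.pi_ne_zero
  have : (3/2 + (I / π) * ((Real.log (4 * π) : ℝ) - Lam z)) =
    ((3/2 + (Lam z).im / π : ℝ) : ℂ) + (((Real.log (4 * π) - (Lam z).re) / π : ℝ) : ℂ) * I := by
    apply Complex.ext
    · simp [Complex.div_re, Complex.div_im]
      field_simp
    · simp [Complex.div_re, Complex.div_im]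
      field_simp
  rw [this]
  simp

lemma log_4pi_ge : 2.5 ≤ Real.log (4 * π) := by
  have hpi3 := Real.pi_gt_d4
  rw [Real.le_log_iff_exp_le (by positivity)]
  have h1 : Real.exp 2.5 = Real.exp 2 * Real.exp 0.5 := by rw [← Real.exp_add]; norm_num
  have h2 : Real.exp 0.5 ≤ 1.6488 := by
    have h3 : Real.exp 0.5 ^ 2 = Real.exp 1 := by
      rw [← Real.exp_nat_mul]; norm_num
    have h4 := Real.exp_one_lt_d9
    have h5 := Real.exp_pos 0.5
    by_contra hcon
    push Not at hcon
    nlinarith
  have h3 := exp_2_lt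
  have h4 := Real.exp_pos 0.5
  rw [h1]
  calc Real.exp 2 * Real.exp 0.5 ≤ 7.3890561 * 1.6488 := by
        apply mul_le_mul h3.le h2 h4.le (by norm_num)
    _ ≤ 4 * π := by norm_num; linarith

lemma Lam_re_le {z : ℂ} (hz : z ∈ Om) : (Lam z).re ≤ 0.25 := by
  unfold Lam
  simp only [Complex.sub_re, Complex.add_re, Complex.log_re]
  have h1 : Real.log ‖1 - qq z‖ ≤ 1/60 := by
    have hq := qq_norm_le hz.2.2
    have h2 : ‖1 - qq z‖ ≤ 1 + 1/60 := by
      have := norm_sub_le 1 (qq z)
      rw [norm_one] at this; linarith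
    have h3 : 0 < ‖1 - qq z‖ := norm_pos_iff.mpr (slitPlane_ne_zero (mem_slit_one_sub_qq hz.2.2))
    have := Real.log_le_sub_one_of_pos h3
    linarith
  have h2 : Real.log ‖1 + 2 * J 2 (1 + z)‖ ≤ 0.3863 := by
    have hq := twoJ_norm_le hz.1
    have h2 : ‖1 + 2 * J 2 (1 + z)‖ ≤ 1 + 0.3863 := by
      have := norm_add_le 1 (2 * J 2 (1 + z))
      rw [norm_one] at this; linarith
    have h3 : 0 < ‖1 + 2 * J 2 (1 + z)‖ := norm_pos_iff.mpr (slitPlane_ne_zero (mem_slit_J hz.1))
    have := Real.log_le_sub_one_of_pos h3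
    linarith
  have h3 : 0.16 ≤ Real.log ‖1 + z‖ := by
    have h := one_add_norm_ge hz
    have h4 : 0 < ‖1 + z‖ := by linarith
    have h5 := Real.one_sub_inv_le_log_of_pos h4
    have h6 : ‖1 + z‖⁻¹ ≤ 0.8334 := by
      rw [inv_le_comm₀ h4 (by norm_num)]
      norm_num at *
      linarith
    norm_num at *
    linarith
  norm_num at *
  linarith

lemma Phi_mapsTo : MapsTo Phi Om Om := by
  intro z hz
  have hpi := Real.pi_pos
  have hpi3 := Real.pi_gt_d4
  have hpi4 := Real.pi_lt_d4
  have h := Lam_im_bounds hz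
  have h2 := Lam_re_le hz
  have h3 := log_4pi_ge
  refine ⟨?_, ?_, ?_⟩
  · rw [Phi_re]
    have : -0.67 ≤ (Lam z).im / π := by
      rw [le_div_iff₀ hpi]; norm_num at *; nlinarith [h.1]
    norm_num at *
    linarith
  · rw [Phi_re]
    have : (Lam z).im / π ≤ 0.2 := by
      rw [div_le_iff₀ hpi]; norm_num at *; nlinarith [h.2]
    norm_num at *
    linarith
  · rw [Phi_im, le_div_iff₀ hpi]
    norm_num at *
    nlinarith

lemma exists_fixed : ∃ z ∈ Om, Phi z = z := by
  have hK : ContractingWith (57/100 : NNReal) (Phi_mapsTo.restrict Phi Om Om) := by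
    constructor
    · apply NNReal.coe_lt_coe.mp
      push_cast
      norm_num
    · apply LipschitzWith.of_dist_le_mul
      rintro ⟨x, hx⟩ ⟨y, hy⟩
      rw [Subtype.dist_eq, Subtype.dist_eq]
      simp only [MapsTo.val_restrict_apply]
      rw [dist_eq_norm, dist_eq_norm]
      have := Phi_lip hy hx
      push_cast
      norm_num at this ⊢
      linarith
  have hmem : (1 + I : ℂ) ∈ Om := by
    refine ⟨?_, ?_, ?_⟩ <;> simp <;> norm_num
  obtain ⟨y, hy, hfix, -⟩ := hK.exists_fixedPoint' Om_closed.isComplete Phi_mapsTo hmem (edist_ne_top _ _)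
  exact ⟨y, hy, hfix⟩

/-- the first zero `ρ₁` of `g*` -/
noncomputable def rho : ℂ := exists_fixed.choose

lemma rho_mem : rho ∈ Om := exists_fixed.choose_spec.1
lemma Phi_rho : Phi rho = rho := exists_fixed.choose_spec.2
lemma S_rho : S rho = 1 := (Phi_fixed_iff rho_mem).mpr Phi_rho

lemma rho_im_pos : 0 < rho.im := by linarith [rho_mem.2.2]

lemma rho_near {z : ℂ} (hz : z ∈ Om) : ‖rho - z‖ ≤ ‖Phi z - z‖ / 0.43 := by
  have h1 := Phi_lip hz rho_mem
  rw [Phi_rho] at h1
  have h2 : rho - z = (rho - Phi z) + (Phi z - z) := by ring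
  have h3 := norm_add_le (rho - Phi z) (Phi z - z)
  rw [← h2] at h3
  rw [le_div_iff₀ (by norm_num)]
  norm_num at *
  linarith

lemma intCompl_of_im {z : ℂ} (hz : z.im ≠ 0) : z ∈ integerComplement := by
  rintro ⟨n, hn⟩
  apply hz
  rw [← hn]; simp

lemma G_S {z : ℂ} (hz : -1 < z.re) (hz2 : z.re < 2) (hz' : z ∈ integerComplement) :
    G z * Complex.sin (π * z) = (1 - z) * (2 - z) * (2 * π * z * (1 - S z)) := by
  have h0 : z ≠ 0 := by
    intro h; apply hz'; exact ⟨0, by rw [h]; simp⟩
  have h1 : z ≠ 1 := by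
    intro h; apply hz'; exact ⟨1, by rw [h]; simp⟩
  rw [← gStar_formula hz2 h0 h1, ← gStar_S hz hz']
  ring

lemma G_zero_val : G 0 = 4 := by
  have h := J3_rel (z := 0) (by simp)
  unfold G
  norm_num at h ⊢
  linear_combination 4 * h

lemma G_one_val : G 1 = 2 := by
  have h := J2_rel (z := 1) (by simp)
  have h2 := J3_rel (z := 1) (by simp)
  unfold G
  norm_num at h h2 ⊢
  linear_combination 4 * h2 + 2 * h

lemma sin_pi_ne_zero {z : ℂ} (hz' : z ∈ integerComplement) : Complex.sin (π * z) ≠ 0 := by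
  intro h
  rw [Complex.sin_eq_zero_iff] at h
  obtain ⟨k, hk⟩ := h
  apply hz'
  refine ⟨k, ?_⟩
  have hpi : (π:ℂ) ≠ 0 := by exact_mod_cast Real.pi_ne_zero
  apply mul_left_cancel₀ hpi
  rw [hk]; ring

lemma G_rho : G rho = 0 := by
  have hm := rho_mem
  have hi := intCompl_of_im rho_im_pos.ne'
  have := G_S (by linarith [hm.1]) (by linarith [hm.2.1]) hi
  rw [S_rho, sub_self, mul_zero, mul_zero] at this
  exact (mul_eq_zero.mp this).resolve_right (sin_pi_ne_zero hi)

lemma G_ne_of_S {z : ℂ} (hz : -1 < z.re) (hz2 : z.re < 2) (hz' : z ∈ integerComplement) (hS : S z ≠ 1) :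
    G z ≠ 0 := by
  intro h
  have h1 := G_S hz hz2 hz'
  rw [h, zero_mul] at h1
  have h0 : z ≠ 0 := by
    intro h; apply hz'; exact ⟨0, by rw [h]; simp⟩
  have h2 : z ≠ 1 := by
    intro h; apply hz'; exact ⟨1, by rw [h]; simp⟩
  have h3 : z ≠ 2 := by
    intro h; apply hz'; exact ⟨2, by rw [h]; simp⟩
  have hpi : (π:ℂ) ≠ 0 := by exact_mod_cast Real.pi_ne_zero
  have : (1 - z) * (2 - z) * (2 * π * z * (1 - S z)) ≠ 0 := by
    refine mul_ne_zero (mul_ne_zero (sub_ne_zero.mpr h2.symm) (sub_ne_zero.mpr h3.symm)) ?_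
    refine mul_ne_zero (mul_ne_zero (mul_ne_zero two_ne_zero hpi) h0) (sub_ne_zero.mpr hS.symm)
  exact this h1.symm

/-- all zeros of `G` in `Re z ≤ 1.7` -/
lemma G_zero_iff {z : ℂ} (hz : z.re ≤ 17/10) : G z = 0 ↔ z = rho ∨ z = conj rho := by
  constructor
  · intro h
    have hre : 0 ≤ z.re := by
      by_contra hcon
      push Not at hcon
      exact G_ne_zero_of_neg hcon h
    by_cases hi : z ∈ integerComplement
    · by_cases hy : |z.im| ≤ 17/25
      · exfalso
        have h1 := S_norm_lt_one hre hy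
        have h2 : S z ≠ 1 := by
          intro h3; rw [h3, norm_one] at h1; exact lt_irrefl _ h1
        exact G_ne_of_S (by linarith) (by linarith) hi h2 h
      · push Not at hy
        rcases lt_abs.mp hy with h1 | h1
        · left
          have hm : z ∈ Om := ⟨hre, hz, h1.le⟩
          have hS : S z = 1 := by
            by_contra hcon
            exact G_ne_of_S (by linarith) (by linarith) hi hcon h
          exact Phi_unique hm rho_mem ((Phi_fixed_iff hm).mp hS) Phi_rho
        · right
          have hm : conj z ∈ Om := ⟨by simpa using hre, by simpa using hz, by simpa using h1.le⟩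
          have hc : G (conj z) = 0 := by rw [G_conj, h, map_zero]
          have hi' : conj z ∈ integerComplement := by
            apply intCompl_of_im
            simp
            intro h0
            rw [h0] at h1
            simp at h1
            linarith
          have hS : S (conj z) = 1 := by
            by_contra hcon
            exact G_ne_of_S (by simp; linarith) (by simp; linarith) hi' hcon hc
          have := Phi_unique hm rho_mem ((Phi_fixed_iff hm).mp hS) Phi_rho
          rw [← this, Complex.conj_conj]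
    · exfalso
      have : ∃ n : ℤ, (n:ℂ) = z := by
        by_contra hcon
        exact hi hcon
      obtain ⟨n, hn⟩ := this
      rw [← hn] at hre hz h
      simp at hre
      have hre' : 0 ≤ n := by exact_mod_cast hre
      have hz' : n < 2 := by
        have : ((n:ℂ)).re = (n:ℝ) := by simp
        rw [this] at hz
        have : (n:ℝ) < 2 := by linarith
        exact_mod_cast this
      interval_cases n
      · norm_num at h; rw [G_zero_val] at h; norm_num at h
      · norm_num at h; rw [G_one_val] at h; norm_num at h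
  · rintro (h | h)
    · rw [h]; exact G_rho
    · rw [h, G_conj, G_rho, map_zero]

lemma rho_strict : 0.8 < rho.re ∧ rho.re < 17/10 ∧ 17/25 < rho.im := by
  have hpi := Real.pi_pos
  have hpi3 := Real.pi_gt_d4
  have hpi4 := Real.pi_lt_d4
  have h := Lam_im_bounds rho_mem
  have h2 := Lam_re_le rho_mem
  have h3 := log_4pi_ge
  have e1 : rho.re = 3/2 + (Lam rho).im / π := by rw [← Phi_re, Phi_rho]
  have e2 : rho.im = (Real.log (4 * π) - (Lam rho).re) / π := by rw [← Phi_im, Phi_rho]
  refine ⟨?_, ?_, ?_⟩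
  · rw [e1]
    have : -0.67 ≤ (Lam rho).im / π := by
      rw [le_div_iff₀ hpi]; norm_num at *; nlinarith [h.1]
    norm_num at *
    linarith
  · rw [e1]
    have : (Lam rho).im / π < 0.19 := by
      rw [div_lt_iff₀ hpi]; norm_num at *; nlinarith [h.2]
    norm_num at *
    linarith
  · rw [e2, lt_div_iff₀ hpi]
    norm_num at *
    nlinarith

lemma Om_nhds : Om ∈ 𝓝 rho := by
  obtain ⟨h1, h2, h3⟩ := rho_strict
  have a1 : ∀ᶠ z in 𝓝 rho, 0 < z.re :=
    (Complex.continuous_re.continuousAt).eventually_const_lt (by norm_num at h1 ⊢; linarith)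
  have a2 : ∀ᶠ z in 𝓝 rho, z.re < 17/10 :=
    (Complex.continuous_re.continuousAt).eventually_lt_const h2
  have a3 : ∀ᶠ z in 𝓝 rho, 17/25 < z.im :=
    (Complex.continuous_im.continuousAt).eventually_const_lt h3
  filter_upwards [a1, a2, a3] with z b1 b2 b3
  exact ⟨b1.le, b2.le, b3.le⟩

lemma S_hasDerivAt : HasDerivAt S (-(π * I) + Lam' rho) rho := by
  have h1 : HasDerivAt (fun z => -(π * I * z) + Lam z - (Real.log (4 * π) : ℝ) - π / 2 * I)
      (-(π * I) + Lam' rho) rho := by
    have a := ((hasDerivAt_id rho).const_mul (π * I : ℂ)).neg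
    have b := Lam_hasDerivAt rho_mem.1 rho_mem.2.2
    have c := ((a.add b).sub_const ((Real.log (4 * π) : ℝ) : ℂ)).sub_const (π / 2 * I : ℂ)
    simpa using c
  have h2 := h1.cexp
  rw [← S_log rho_mem, S_rho, one_mul] at h2
  refine h2.congr_of_eventuallyEq ?_
  filter_upwards [Om_nhds] with z hz
  exact S_log hz

lemma S_deriv_ne : (-(π * I) + Lam' rho : ℂ) ≠ 0 := by
  intro h
  have h1 := Lam'_norm_le rho_mem
  have h2 : Lam' rho = π * I := by linear_combination h
  rw [h2, norm_mul, Complex.norm_I, Complex.norm_real, Real.norm_of_nonneg Real.pi_pos.le, mul_one] at h1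
  have := Real.pi_gt_d4
  norm_num at *
  linarith

lemma G_deriv_ne : deriv G rho ≠ 0 := by
  intro h0
  have hi := intCompl_of_im rho_im_pos.ne'
  have hs := sin_pi_ne_zero hi
  have hm := rho_mem
  have dG : HasDerivAt G 0 rho := by
    rw [← h0]; exact (G_differentiableAt (by linarith [hm.2.1])).hasDerivAt
  have dsin : HasDerivAt (fun z : ℂ => Complex.sin (π * z)) (Complex.cos (π * rho) * π) rho := by
    have := ((hasDerivAt_id rho).const_mul (π : ℂ)).csin
    simpa using this
  have dL := dG.mul dsin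
  have dp : HasDerivAt (fun z : ℂ => (1 - z) * (2 - z) * (2 * π * z)) (deriv (fun z : ℂ => (1 - z) * (2 - z) * (2 * π * z)) rho) rho := by
    apply DifferentiableAt.hasDerivAt
    fun_prop
  have dS := S_hasDerivAt.const_sub 1
  have dR := dp.mul dS
  have heq : (fun z => G z * Complex.sin (π * z)) =ᶠ[𝓝 rho]
      fun z => ((1 - z) * (2 - z) * (2 * π * z)) * (1 - S z) := by
    filter_upwards [Om_nhds] with z hz
    have := G_S (z := z) (by linarith [hz.1]) (by linarith [hz.2.1]) (intCompl_of_im (by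
      have := hz.2.2
      intro h; rw [h] at this; norm_num at this))
    rw [this]; ring
  have h1 : HasDerivAt (fun z => G z * Complex.sin (π * z)) _ rho := dL
  have h2 : HasDerivAt (fun z => ((1 - z) * (2 - z) * (2 * π * z)) * (1 - S z)) _ rho := dR
  have h3 := h1.unique (h2.congr_of_eventuallyEq heq)
  rw [G_rho, S_rho] at h3
  simp only [zero_mul, sub_self, mul_zero, zero_add] at h3
  have hne : ((1 - rho) * (2 - rho) * (2 * π * rho) : ℂ) ≠ 0 := by
    have h0 : rho ≠ 0 := by
      intro h; apply hi; exact ⟨0, by rw [h]; simp⟩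
    have h2 : rho ≠ 1 := by
      intro h; apply hi; exact ⟨1, by rw [h]; simp⟩
    have h3 : rho ≠ 2 := by
      intro h; apply hi; exact ⟨2, by rw [h]; simp⟩
    have hpi : (π:ℂ) ≠ 0 := by exact_mod_cast Real.pi_ne_zero
    exact mul_ne_zero (mul_ne_zero (sub_ne_zero.mpr h2.symm) (sub_ne_zero.mpr h3.symm))
      (mul_ne_zero (mul_ne_zero two_ne_zero hpi) h0)
  have h4 := (mul_eq_zero.mp h3.symm).resolve_left hne
  exact S_deriv_ne (neg_eq_zero.mp h4)

end Pool.Agent.Hhelper92.Ortho
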