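import Pool.Agent.Hhelper92.Ortho.Seq
import Pool.Agent.Hhelper92.Ortho.NB

open Complex MeasureTheory Set Filter Topology
open scoped Real ComplexConjugate

namespace Pool.Agent.Hhelper92.Ortho

/-- kernels supported in `[1,∞)` and bounded -/
structure Ker (f : ℝ → ℝ) : Prop where
  meas : Measurable f
  zero : ∀ u < 1, f u = 0
  bdd : ∃ B, ∀ u, |f u| ≤ B

noncomputable def Ser (c : ℕ → ℝ) (f : ℝ → ℝ) (y : ℝ) : ℝ := ∑' k, c k * f (y / xx k)

variable {c : ℕ → ℝ} {f : ℝ → ℝ}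

lemma ker_vanish (hf : Ker f) {y : ℝ} {K k : ℕ} (hy : y < xx K) (hk : K ≤ k) : f (y / xx k) = 0 := by
  apply hf.zero
  rw [div_lt_one (xx_pos k)]
  refine hy.trans_le ?_
  unfold xx
  have : (K:ℝ) ≤ k := by exact_mod_cast hk
  linarith

lemma Ser_eq_sum (hf : Ker f) {y : ℝ} {K : ℕ} (hy : y < xx K) :
    Ser c f y = ∑ k ∈ Finset.range K, c k * f (y / xx k) := by
  unfold Ser
  apply tsum_eq_sum
  intro k hk
  rw [Finset.mem_range, not_lt] at hk
  rw [ker_vanish hf hy hk, mul_zero]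

lemma Ser_summable (hf : Ker f) (y : ℝ) : Summable fun k => c k * f (y / xx k) := by
  obtain ⟨K, hK⟩ := exists_nat_gt y
  apply summable_of_ne_finset_zero (s := Finset.range K)
  intro k hk
  rw [Finset.mem_range, not_lt] at hk
  rw [ker_vanish hf (y := y) (K := K) (by unfold xx; linarith) hk, mul_zero]

lemma Ser_zero (hf : Ker f) {y : ℝ} (hy : y < 1/2) : Ser c f y = 0 := by
  rw [Ser_eq_sum hf (K := 0) (by unfold xx; simpa using hy)]
  simp

lemma Ser_measurable (hf : Ker f) : Measurable (Ser c f) := by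
  have : ∀ n : ℕ, Measurable fun y => ∑ k ∈ Finset.range n, c k * f (y / xx k) := by
    intro n
    apply Finset.measurable_sum
    intro k _
    exact (hf.meas.comp (measurable_id.div_const _)).const_mul _
  refine measurable_of_tendsto_metrizable this ?_
  rw [tendsto_pi_nhds]
  intro y
  exact (Ser_summable hf y).hasSum.tendsto_sum_nat

lemma sum_two_xx (n : ℕ) : ∑ k ∈ Finset.range n, 2 * xx k = (n:ℝ)^2 := by
  induction n with
  | zero => simp
  | succ n ih => rw [Finset.sum_range_succ, ih]; unfold xx; push_cast; ring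

lemma Ser_bound (hf : Ker f) (hc : ∀ k, |c k| ≤ 2 * xx k) {B : ℝ} (hB : ∀ u, |f u| ≤ B) {y : ℝ}
    (hy : 1/2 ≤ y) : |Ser c f y| ≤ 4 * B * y^2 := by
  have hB0 : 0 ≤ B := (abs_nonneg _).trans (hB 0)
  set K := ⌊y + 1/2⌋₊ with hK
  have h1 : y < xx K := by
    unfold xx
    have := Nat.lt_floor_add_one (y + 1/2)
    rw [← hK] at this
    linarith
  have h2 : (K:ℝ) ≤ y + 1/2 := Nat.floor_le (by linarith)
  rw [Ser_eq_sum hf h1]
  calc |∑ k ∈ Finset.range K, c k * f (y / xx k)|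
      ≤ ∑ k ∈ Finset.range K, |c k * f (y / xx k)| := Finset.abs_sum_le_sum_abs _ _
    _ ≤ ∑ k ∈ Finset.range K, (2 * xx k) * B := by
        apply Finset.sum_le_sum
        intro k _
        rw [abs_mul]
        apply mul_le_mul (hc k) (hB _) (abs_nonneg _)
        have := xx_pos k; positivity
    _ = (K:ℝ)^2 * B := by rw [← Finset.sum_mul, sum_two_xx]
    _ ≤ 4 * B * y^2 := by
        have h0 : (0:ℝ) ≤ K := by positivity
        have : (K:ℝ)^2 ≤ (2*y)^2 := by
          apply pow_le_pow_left₀ h0; linarith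
        nlinarith

lemma Ser_bound' (hf : Ker f) (hc : ∀ k, |c k| ≤ 2 * xx k) {B : ℝ} (hB : ∀ u, |f u| ≤ B) {y : ℝ}
    (hy : 0 ≤ y) : |Ser c f y| ≤ 4 * B * y^2 := by
  rcases lt_or_ge y (1/2) with h | h
  · rw [Ser_zero hf h]
    have hB0 : 0 ≤ B := (abs_nonneg _).trans (hB 0)
    simp; positivity
  · exact Ser_bound hf hc hB h

lemma locInt_of_bound {g : ℝ → ℝ} (hg : Measurable g) {C : ℝ} {n : ℕ} (hb : ∀ y, 0 ≤ y → |g y| ≤ C * y^n) :
    LocallyIntegrableOn (fun y => (g y : ℂ)) (Ioi 0) := by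
  rw [locallyIntegrableOn_iff isOpen_Ioi.isLocallyClosed]
  · intro k hk hkc
    obtain ⟨R, hR⟩ := hkc.isBounded.subset_closedBall 0
    apply Measure.integrableOn_of_bounded (M := |C| * |R|^n) hkc.measure_lt_top.ne
    · exact (Complex.measurable_ofReal.comp hg).aestronglyMeasurable
    · filter_upwards [ae_restrict_mem hkc.measurableSet] with y hy
      have hy0 : 0 < y := hk hy
      have hyR : y ≤ R := by
        have := hR hy
        rw [mem_closedBall_zero_iff, Real.norm_eq_abs, abs_of_pos hy0] at this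
        exact this
      rw [Complex.norm_real, Real.norm_eq_abs]
      refine (hb y hy0.le).trans ?_
      have h1 : y^n ≤ |R|^n := by
        apply pow_le_pow_left₀ hy0.le
        exact hyR.trans (le_abs_self R)
      calc C * y^n ≤ |C| * y^n := by
            apply mul_le_mul_of_nonneg_right (le_abs_self C); positivity
        _ ≤ |C| * |R|^n := by
            apply mul_le_mul_of_nonneg_left h1; positivity

lemma isBigO_zero_of_vanish {g : ℝ → ℝ} (hz : ∀ y < 1/2, g y = 0) (b : ℝ) :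
    (fun y => (g y : ℂ)) =O[𝓝[>] 0] fun x => x ^ (-b) := by
  have : (fun y => (g y : ℂ)) =ᶠ[𝓝[>] 0] fun _ => 0 := by
    have h : ∀ᶠ y in 𝓝[>] (0:ℝ), y < 1/2 :=
      mem_nhdsWithin_of_mem_nhds (Iio_mem_nhds (by norm_num))
    filter_upwards [h] with y hy
    rw [hz y hy]; simp
  exact this.trans_isBigO (Asymptotics.isBigO_zero _ _)

lemma ker_mellinConvergent (hf : Ker f) {z : ℂ} (hz : z.re < 0) :
    MellinConvergent (fun u => (f u : ℂ)) z := by
  obtain ⟨B, hB⟩ := hf.bdd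
  apply mellinConvergent_of_isBigO_rpow (a := 0) (b := z.re - 1)
  · exact locInt_of_bound hf.meas (n := 0) (C := B) (by intro y _; simpa using hB y)
  · apply Asymptotics.IsBigO.of_bound B
    refine Eventually.of_forall fun t => ?_
    simpa using hB t
  · exact hz
  · exact isBigO_zero_of_vanish (fun y hy => hf.zero y (by linarith)) _
  · linarith

lemma norm_integral_scale (f : ℝ → ℂ) (z : ℂ) {a : ℝ} (ha : 0 < a) :
    ∫ t in Ioi (0:ℝ), ‖(t:ℂ)^(z-1) • f (a * t)‖ = a^(-z.re) * ∫ t in Ioi (0:ℝ), ‖(t:ℂ)^(z-1) • f t‖ := by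
  have h1 := integral_comp_mul_left_Ioi (fun t => ‖(t:ℂ)^(z-1) • f t‖) 0 ha
  rw [mul_zero] at h1
  have h2 : ∫ t in Ioi (0:ℝ), ‖(t:ℂ)^(z-1) • f (a * t)‖
      = ∫ t in Ioi (0:ℝ), a^(1 - z.re) * ‖(((a * t : ℝ)):ℂ)^(z-1) • f (a * t)‖ := by
    apply setIntegral_congr_fun measurableSet_Ioi
    intro t ht
    simp only
    have hat : 0 < a * t := mul_pos ha ht
    rw [norm_smul, norm_smul, Complex.norm_cpow_eq_rpow_re_of_pos ht, Complex.norm_cpow_eq_rpow_re_of_pos hat,
      Real.mul_rpow ha.le (le_of_lt ht)]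
    have : a^(1 - z.re) * a^((z-1).re) = 1 := by
      rw [← Real.rpow_add ha]; simp
    linear_combination (-(t^((z-1).re) * ‖f (a*t)‖)) * this
  rw [h2, integral_const_mul, h1, smul_eq_mul, ← mul_assoc]
  congr 1
  rw [Real.rpow_sub ha, Real.rpow_neg ha.le, Real.rpow_one]
  field_simp

/-- the Dirichlet-type series `D(z) = ∑ c_k x_k^z` -/
noncomputable def Dser (c : ℕ → ℝ) (z : ℂ) : ℂ := ∑' k, (c k : ℂ) * (xx k : ℂ)^z

theorem mellin_Ser (hf : Ker f) {z : ℂ} (hz : z.re < 0) (hs : Summable fun k => |c k| * (xx k)^z.re) :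
    mellin (fun y => (Ser c f y : ℂ)) z = Dser c z * mellin (fun u => (f u : ℂ)) z := by
  have hconv := ker_mellinConvergent hf hz
  set F : ℕ → ℝ → ℂ := fun k t => (t:ℂ)^(z-1) • ((c k : ℂ) * (f ((xx k)⁻¹ * t) : ℂ)) with hF
  have hInt : ∀ k, Integrable (F k) (volume.restrict (Ioi 0)) := by
    intro k
    have h1 : MellinConvergent (fun t => (f ((xx k)⁻¹ * t) : ℂ)) z :=
      (MellinConvergent.comp_mul_left (f := fun u => (f u : ℂ)) (inv_pos.mpr (xx_pos k))).mpr hconv
    have h2 := h1.const_smul (c k : ℂ)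
    exact h2
  have hn : ∀ k, ∫ t in Ioi (0:ℝ), ‖F k t‖ = |c k| * (xx k)^z.re * ∫ t in Ioi (0:ℝ), ‖(t:ℂ)^(z-1) • (f t : ℂ)‖ := by
    intro k
    have h1 := norm_integral_scale (fun u => (f u : ℂ)) z (inv_pos.mpr (xx_pos k))
    have h2 : ((xx k)⁻¹)^(-z.re) = (xx k)^z.re := by
      rw [Real.inv_rpow (xx_pos k).le, Real.rpow_neg (xx_pos k).le, inv_inv]
    rw [h2] at h1
    rw [mul_assoc, ← h1, ← integral_const_mul]
    apply setIntegral_congr_fun measurableSet_Ioi
    intro t _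
    simp only [hF, norm_smul, norm_mul, Complex.norm_real, Real.norm_eq_abs]
    ring
  have hsum : Summable fun k => ∫ t in Ioi (0:ℝ), ‖F k t‖ := by
    simp_rw [hn]
    exact hs.mul_right _
  have key := (hasSum_integral_of_summable_integral_norm hInt hsum).tsum_eq
  have hk : ∀ k, ∫ t in Ioi (0:ℝ), F k t = ((c k : ℂ) * (xx k : ℂ)^z) * mellin (fun u => (f u : ℂ)) z := by
    intro k
    have h1 := mellin_comp_mul_left (fun u => (f u : ℂ)) z (inv_pos.mpr (xx_pos k))
    have h2 : (((xx k)⁻¹ : ℝ) : ℂ)^(-z) = (xx k : ℂ)^z := by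
      rw [Complex.ofReal_inv, Complex.inv_cpow _ _ (by
        rw [Complex.arg_ofReal_of_nonneg (xx_pos k).le]; exact Real.pi_pos.ne), Complex.cpow_neg, inv_inv]
    rw [h2, smul_eq_mul] at h1
    rw [mul_assoc, ← h1]
    unfold mellin
    rw [← integral_const_mul]
    apply setIntegral_congr_fun measurableSet_Ioi
    intro t _
    simp only [hF, smul_eq_mul]
    ring
  simp_rw [hk] at key
  rw [tsum_mul_right] at key
  unfold Dser
  rw [key]
  unfold mellin
  apply setIntegral_congr_fun measurableSet_Ioi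
  intro t _
  simp only [hF, smul_eq_mul]
  rw [tsum_mul_left]
  congr 1
  unfold Ser
  rw [Complex.ofReal_tsum]
  apply tsum_congr
  intro k
  rw [div_eq_inv_mul]
  push_cast
  rfl

end Pool.Agent.Hhelper92.Ortho
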