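import Pool.Agent.Hhelper92.Ortho.GFun

open Complex MeasureTheory Set Filter Topology intervalIntegral
open scoped Real ComplexConjugate

namespace Pool.Agent.Hhelper92.Ortho

lemma norm_sin_le (z : ℂ) : ‖Complex.sin z‖ ≤ Real.cosh z.im := by
  rw [Complex.sin, Real.cosh_eq]
  rw [norm_div, norm_mul, Complex.norm_I, mul_one]
  have h1 : ‖Complex.exp (-z * I)‖ = Real.exp z.im := by
    rw [Complex.norm_exp]; simp
  have h2 : ‖Complex.exp (z * I)‖ = Real.exp (-z.im) := by
    rw [Complex.norm_exp]; simp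
  have h3 := norm_sub_le (Complex.exp (-z * I)) (Complex.exp (z * I))
  rw [h1, h2] at h3
  have : ‖(2:ℂ)‖ = 2 := by simp
  rw [this]
  linarith

lemma log2_lt : Real.log 2 < 0.6931471808 := Real.log_two_lt_d9
lemma log2_gt : 0.6931471803 < Real.log 2 := Real.log_two_gt_d9

lemma int_inv_one : ∫ t in (0:ℝ)..1, 1 / (1+t) = Real.log 2 := by
  have : ∫ t in (0:ℝ)..1, 1 / (1+t) = Real.log (1+1) - Real.log (1+0) := by
    refine intervalIntegral.integral_eq_sub_of_hasDerivAt (f := fun t : ℝ => Real.log (1+t)) ?_ ?_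
    · intro t ht
      rw [uIcc_of_le zero_le_one] at ht
      have h0 : (1 + t) ≠ 0 := by linarith [ht.1]
      have h1 : HasDerivAt (fun t : ℝ => 1 + t) 1 t := (hasDerivAt_id t).const_add 1
      exact h1.log h0
    · apply ContinuousOn.intervalIntegrable
      apply ContinuousOn.div (by fun_prop) (by fun_prop)
      intro t ht
      rw [uIcc_of_le zero_le_one] at ht
      have := ht.1
      positivity
  rw [this]
  norm_num

lemma J1_norm_le {v : ℂ} (hv : 0 ≤ v.re) : ‖J 1 v‖ ≤ Real.log 2 := by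
  refine (J_norm_le 1 v).trans ?_
  rw [← int_inv_one]
  apply intervalIntegral.integral_mono_on zero_le_one (rJ_intervalIntegrable 1 (by linarith))
  · apply ContinuousOn.intervalIntegrable
    apply ContinuousOn.div (by fun_prop) (by fun_prop)
    intro t ht
    rw [uIcc_of_le zero_le_one] at ht
    have := ht.1
    positivity
  · intro t ht
    rw [pow_one]
    apply div_le_div_of_nonneg_right _ (by linarith [ht.1])
    exact Real.rpow_le_one ht.1 ht.2 hv

lemma S_eq {z : ℂ} (hz : -1 < z.re) : S z = -(Complex.sin (π * z)) * J 1 z / π := by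
  have h3 := J_ibp 1 hz
  rw [show z + 1 = 1 + z by ring] at h3
  norm_num at h3
  have hne : 1 + z ≠ 0 := by
    intro h
    have : (1 + z).re = 0 := by rw [h]; simp
    simp at this; linarith
  have hpi : (π:ℂ) ≠ 0 := by exact_mod_cast Real.pi_ne_zero
  unfold S
  have h5 : 1 + 2 * J 2 (1 + z) = 2 * ((1 + z) * J 1 z) := by rw [h3]; ring
  rw [h5]
  field_simp

lemma exp_2_lt : Real.exp 2 < 7.3890561 := by
  have h := Real.exp_one_lt_d9
  have : Real.exp 2 = Real.exp 1 * Real.exp 1 := by rw [← Real.exp_add]; norm_num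
  rw [this]
  have h0 := Real.exp_pos 1
  nlinarith

lemma exp_2_gt : 7.38905 < Real.exp 2 := by
  have h := Real.exp_one_gt_d9
  have : Real.exp 2 = Real.exp 1 * Real.exp 1 := by rw [← Real.exp_add]; norm_num
  rw [this]
  have h0 := Real.exp_pos 1
  nlinarith

lemma S_norm_lt_one {z : ℂ} (hz : 0 ≤ z.re) (hy : |z.im| ≤ 17/25) : ‖S z‖ < 1 := by
  rw [S_eq (by linarith)]
  have hpi := Real.pi_pos
  have hpi2 := Real.pi_lt_d4
  have hpi3 := Real.pi_gt_d4
  rw [norm_div, norm_mul, norm_neg, Complex.norm_real, Real.norm_of_nonneg hpi.le, div_lt_one hpi]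
  have h1 : ‖Complex.sin (π * z)‖ ≤ 4.35 := by
    refine (norm_sin_le _).trans ?_
    have him : (π * z).im = π * z.im := by simp
    rw [him]
    have h2 : Real.cosh (π * z.im) ≤ Real.cosh 2.1364 := by
      rw [Real.cosh_le_cosh, abs_mul, abs_of_pos hpi, abs_of_pos (by norm_num : (0:ℝ) < 2.1364)]
      nlinarith [abs_nonneg z.im]
    refine h2.trans ?_
    rw [Real.cosh_eq]
    have h3 : Real.exp 2.1364 ≤ 7.3890561 * (1 / (1 - 0.1364)) := by
      rw [show (2.1364:ℝ) = 2 + 0.1364 by norm_num, Real.exp_add]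
      apply mul_le_mul exp_2_lt.le
        (Real.exp_bound_div_one_sub_of_interval (by norm_num) (by norm_num)) (Real.exp_pos _).le (by norm_num)
    have h4 : Real.exp (-2.1364) ≤ 1 / 7.38905 := by
      rw [Real.exp_neg, ← one_div]
      apply one_div_le_one_div_of_le (by norm_num)
      refine exp_2_gt.le.trans ?_
      apply Real.exp_le_exp.mpr; norm_num
    norm_num at h3 h4 ⊢
    linarith
  have h2 := J1_norm_le hz
  have h3 := log2_lt
  calc ‖Complex.sin (π * z)‖ * ‖J 1 z‖ ≤ 4.35 * 0.6931471808 := by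
        apply mul_le_mul h1 (by linarith) (norm_nonneg _) (by norm_num)
    _ < π := by norm_num; linarith

/-! ### logarithmic form for `Im z ≥ 0.68` -/

/-- the nome -/
noncomputable def qq (z : ℂ) : ℂ := Complex.exp (2 * π * I * z)

noncomputable def Lam (z : ℂ) : ℂ :=
  Complex.log (1 - qq z) + Complex.log (1 + 2 * J 2 (1 + z)) - Complex.log (1 + z)

def Om : Set ℂ := {z | 0 ≤ z.re ∧ z.re ≤ 17/10 ∧ 17/25 ≤ z.im}

lemma qq_norm_le {z : ℂ} (hz : 17/25 ≤ z.im) : ‖qq z‖ ≤ 1/60 := by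
  unfold qq
  rw [Complex.norm_exp]
  have : (2 * π * I * z).re = -(2 * π * z.im) := by simp
  rw [this, Real.exp_neg, ← one_div]
  apply one_div_le_one_div_of_le (by norm_num)
  have hpi3 := Real.pi_gt_d4
  have h1 : (4.2:ℝ) ≤ 2 * π * z.im := by nlinarith
  have h2 : (60:ℝ) ≤ Real.exp 4.2 := by
    rw [show (4.2:ℝ) = 2 + (2 + 0.2) by norm_num, Real.exp_add, Real.exp_add]
    have h3 : (0.2:ℝ) + 1 ≤ Real.exp 0.2 := Real.add_one_le_exp 0.2
    have h4 := exp_2_gt
    have h5 : (7.38905:ℝ) * (7.38905 * 1.2) ≤ Real.exp 2 * (Real.exp 2 * Real.exp 0.2) := by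
      gcongr
      linarith
    norm_num at h5 ⊢
    linarith
  exact h2.trans (Real.exp_le_exp.mpr h1)

lemma twoJ_norm_le {z : ℂ} (hz : 0 ≤ z.re) : ‖2 * J 2 (1 + z)‖ ≤ 0.3863 := by
  have h := J2_norm_le (v := 1 + z) (by simp; linarith)
  rw [norm_mul]
  have : ‖(2:ℂ)‖ = 2 := by simp
  rw [this]
  have := log2_lt
  norm_num at *
  linarith

lemma re_pos_of_norm_lt {w : ℂ} (hw : ‖w‖ < 1) : 0 < (1 + w).re := by
  have := Complex.abs_re_le_norm w
  have h2 := neg_abs_le w.re
  simp; linarith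

lemma mem_slit_one_sub_qq {z : ℂ} (hz : 17/25 ≤ z.im) : (1 - qq z) ∈ slitPlane := by
  left
  have := re_pos_of_norm_lt (w := - qq z) (by rw [norm_neg]; linarith [qq_norm_le hz])
  rwa [← sub_eq_add_neg] at this

lemma mem_slit_J {z : ℂ} (hz : 0 ≤ z.re) : (1 + 2 * J 2 (1 + z)) ∈ slitPlane := by
  left
  apply re_pos_of_norm_lt
  have := twoJ_norm_le hz
  linarith

lemma mem_slit_one_add {z : ℂ} (hz : 0 ≤ z.re) : (1 + z) ∈ slitPlane := by
  left; simp; linarith

noncomputable def Lam' (z : ℂ) : ℂ :=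
  -(2 * π * I * qq z) / (1 - qq z) + 2 * deriv (J 2) (1 + z) / (1 + 2 * J 2 (1 + z)) - 1 / (1 + z)

lemma Lam_hasDerivAt {z : ℂ} (hz : 0 ≤ z.re) (hz2 : 17/25 ≤ z.im) : HasDerivAt Lam (Lam' z) z := by
  have h1 : HasDerivAt (fun z => 1 - qq z) (-(2 * π * I * qq z)) z := by
    unfold qq
    have h := ((hasDerivAt_id z).const_mul (2 * π * I)).cexp.const_sub 1
    refine h.congr_deriv ?_
    simp only [id_eq, mul_one]
    ring
  have h2 : HasDerivAt (fun z => 1 + 2 * J 2 (1 + z)) (2 * deriv (J 2) (1 + z)) z := by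
    have hd : HasDerivAt (J 2) (deriv (J 2) (1 + z)) (1 + z) :=
      (J_differentiableAt 2 (by simp; linarith)).hasDerivAt
    have := (HasDerivAt.comp z hd ((hasDerivAt_id z).const_add 1)).const_mul 2
    have := this.const_add 1
    simpa using this
  have h3 : HasDerivAt (fun z : ℂ => 1 + z) 1 z := (hasDerivAt_id z).const_add 1
  exact ((h1.clog (mem_slit_one_sub_qq hz2)).add (h2.clog (mem_slit_J hz))).sub
    (h3.clog (mem_slit_one_add hz))

lemma one_add_norm_ge {z : ℂ} (hz : z ∈ Om) : 1.2 ≤ ‖1 + z‖ := by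
  rw [Complex.norm_def]
  apply Real.le_sqrt_of_sq_le
  rw [Complex.normSq_apply]
  simp
  obtain ⟨h1, h2, h3⟩ := hz
  nlinarith

lemma Lam'_norm_le {z : ℂ} (hz : z ∈ Om) : ‖Lam' z‖ ≤ 1.76 := by
  have hpi2 := Real.pi_lt_d4
  have hpi := Real.pi_pos
  unfold Lam'
  have h1 : ‖-(2 * π * I * qq z) / (1 - qq z)‖ ≤ 0.11 := by
    rw [norm_div, norm_neg, norm_mul, norm_mul, norm_mul, Complex.norm_I, Complex.norm_real,
      Real.norm_of_nonneg hpi.le]
    have hq := qq_norm_le hz.2.2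
    have h2 : (59/60:ℝ) ≤ ‖1 - qq z‖ := by
      have := norm_sub_norm_le 1 (qq z)
      rw [norm_one] at this; linarith
    have : ‖(2:ℂ)‖ = 2 := by simp
    rw [this, div_le_iff₀ (by linarith)]
    have h0 := norm_nonneg (qq z)
    nlinarith
  have h2 : ‖2 * deriv (J 2) (1 + z) / (1 + 2 * J 2 (1 + z))‖ ≤ 0.815 := by
    have hd := J2_deriv_norm_le (v := 1 + z) (by simp; exact hz.1)
    have h3 := J2_norm_le (v := 1 + z) (by simp; exact hz.1)
    have h4 := log2_lt
    have h5 : 2 - 2 * 0.6931471808 ≤ ‖1 + 2 * J 2 (1 + z)‖ := by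
      have := norm_sub_norm_le 1 (-(2 * J 2 (1 + z)))
      rw [norm_one, norm_neg, norm_mul, sub_neg_eq_add] at this
      have e : ‖(2:ℂ)‖ = 2 := by simp
      rw [e] at this
      linarith
    rw [norm_div, norm_mul]
    have e : ‖(2:ℂ)‖ = 2 := by simp
    have h6 : (0.61:ℝ) ≤ 2 - 2 * 0.6931471808 := by norm_num
    rw [e, div_le_iff₀ (by linarith)]
    norm_num at h5 ⊢
    linarith
  have h3 : ‖1 / (1 + z)‖ ≤ 0.8334 := by
    rw [norm_div, norm_one]
    have := one_add_norm_ge hz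
    rw [div_le_iff₀ (by linarith)]
    norm_num at this ⊢
    linarith
  have h4 := norm_sub_le (-(2 * π * I * qq z) / (1 - qq z) + 2 * deriv (J 2) (1 + z) / (1 + 2 * J 2 (1 + z))) (1 / (1 + z))
  have h5 := norm_add_le (-(2 * π * I * qq z) / (1 - qq z)) (2 * deriv (J 2) (1 + z) / (1 + 2 * J 2 (1 + z)))
  norm_num at *
  linarith

lemma Om_convex : Convex ℝ Om := by
  have h1 : Convex ℝ {z : ℂ | 0 ≤ z.re} := convex_halfSpace_re_ge 0
  have h2 : Convex ℝ {z : ℂ | z.re ≤ 17/10} := convex_halfSpace_re_le _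
  have h3 : Convex ℝ {z : ℂ | 17/25 ≤ z.im} := convex_halfSpace_im_ge _
  exact h1.inter (h2.inter h3)

lemma Om_closed : IsClosed Om := by
  have h1 : IsClosed {z : ℂ | 0 ≤ z.re} := isClosed_le continuous_const Complex.continuous_re
  have h2 : IsClosed {z : ℂ | z.re ≤ 17/10} := isClosed_le Complex.continuous_re continuous_const
  have h3 : IsClosed {z : ℂ | 17/25 ≤ z.im} := isClosed_le continuous_const Complex.continuous_im
  exact h1.inter (h2.inter h3)

lemma Lam_lip {x y : ℂ} (hx : x ∈ Om) (hy : y ∈ Om) : ‖Lam y - Lam x‖ ≤ 1.76 * ‖y - x‖ := by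
  apply Om_convex.norm_image_sub_le_of_norm_deriv_le (𝕜 := ℂ) _ _ hx hy
  · intro z hz
    exact (Lam_hasDerivAt hz.1 hz.2.2).differentiableAt
  · intro z hz
    rw [(Lam_hasDerivAt hz.1 hz.2.2).deriv]
    exact Lam'_norm_le hz

/-- `S` in logarithmic form -/
lemma S_log {z : ℂ} (hz : z ∈ Om) :
    S z = Complex.exp (-(π * I * z) + Lam z - (Real.log (4 * π) : ℝ) - π / 2 * I) := by
  have hpi := Real.pi_pos
  have hpi' : (π:ℂ) ≠ 0 := by exact_mod_cast Real.pi_ne_zero
  have h1 := slitPlane_ne_zero (mem_slit_one_sub_qq hz.2.2)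
  have h2 := slitPlane_ne_zero (mem_slit_J hz.1)
  have h3 := slitPlane_ne_zero (mem_slit_one_add hz.1)
  unfold Lam
  rw [show (-(π * I * z) + (Complex.log (1 - qq z) + Complex.log (1 + 2 * J 2 (1 + z)) - Complex.log (1 + z))
      - (Real.log (4 * π) : ℝ) - π / 2 * I) = (-(π * I * z)) + Complex.log (1 - qq z)
      + Complex.log (1 + 2 * J 2 (1 + z)) - Complex.log (1 + z) - (Real.log (4 * π) : ℝ) - π / 2 * I by ring]
  rw [Complex.exp_sub, Complex.exp_sub, Complex.exp_sub, Complex.exp_add, Complex.exp_add,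
    Complex.exp_log h1, Complex.exp_log h2, Complex.exp_log h3, Complex.exp_pi_div_two_mul_I,
    ← Complex.ofReal_exp, Real.exp_log (by positivity)]
  unfold S
  have e : Complex.sin (π * z) = (I / 2) * (Complex.exp (-(π * I * z)) * (1 - qq z)) := by
    rw [Complex.sin, mul_sub, mul_one]
    unfold qq
    rw [← Complex.exp_add]
    rw [show -(π * I * z) + 2 * π * I * z = π * z * I by ring, show -((π:ℂ) * z) * I = -(π * I * z) by ring]
    ring
  rw [e]
  push_cast
  have hI : I ≠ 0 := Complex.I_ne_zero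
  field_simp
  rw [Complex.I_sq]
  ring

lemma im_log_bound {w : ℂ} (hw : ‖w‖ ≤ 0.3863) : |(Complex.log (1 + w)).im| ≤ 0.51 := by
  have h1 := Complex.norm_log_one_add_le (z := w) (by linarith)
  have h2 := Complex.abs_im_le_norm (Complex.log (1 + w))
  have h0 := norm_nonneg w
  have h3 : (1 - ‖w‖)⁻¹ ≤ 1.63 := by
    rw [inv_le_comm₀ (by linarith) (by norm_num)]
    norm_num at *
    linarith
  have h4 : ‖w‖ ^ 2 ≤ 0.1493 := by nlinarith
  have h5 : ‖w‖ ^ 2 * (1 - ‖w‖)⁻¹ ≤ 0.1493 * 1.63 := by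
    apply mul_le_mul h4 h3 _ (by norm_num)
    exact inv_nonneg.mpr (by linarith)
  norm_num at *
  linarith

lemma Lam_im_bounds {z : ℂ} (hz : z ∈ Om) : -(π/2) - 0.53 ≤ (Lam z).im ∧ (Lam z).im ≤ 0.53 := by
  unfold Lam
  simp only [Complex.sub_im, Complex.add_im]
  have h1 : |(Complex.log (1 - qq z)).im| ≤ 0.02 := by
    have hq := qq_norm_le hz.2.2
    have h0 := norm_nonneg (qq z)
    have h1 := Complex.norm_log_one_add_le (z := -qq z) (by rw [norm_neg]; linarith)
    have h2 := Complex.abs_im_le_norm (Complex.log (1 + -qq z))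
    rw [norm_neg] at h1
    rw [← sub_eq_add_neg] at h1 h2
    have h3 : (1 - ‖qq z‖)⁻¹ ≤ 1.1 := by
      rw [inv_le_comm₀ (by linarith) (by norm_num)]
      norm_num at *
      linarith
    have h4 : ‖qq z‖ ^ 2 ≤ 1/3600 := by nlinarith
    have h5 : ‖qq z‖ ^ 2 * (1 - ‖qq z‖)⁻¹ ≤ 1/3600 * 1.1 := by
      apply mul_le_mul h4 h3 _ (by norm_num)
      exact inv_nonneg.mpr (by linarith)
    norm_num at *
    linarith
  have h2 := im_log_bound (twoJ_norm_le hz.1)
  have h3 : 0 ≤ (Complex.log (1 + z)).im ∧ (Complex.log (1 + z)).im ≤ π/2 := by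
    rw [Complex.log_im]
    constructor
    · rw [Complex.arg_nonneg_iff]; simp; linarith [hz.2.2]
    · apply le_of_lt
      exact (abs_lt.mp (Complex.abs_arg_lt_pi_div_two_iff.mpr (Or.inl (by simp; linarith [hz.1])))).2
  rw [abs_le] at h1 h2
  norm_num at *
  constructor <;> linarith [h1.1, h1.2, h2.1, h2.2, h3.1, h3.2]

/-- the fixed point map -/
noncomputable def Phi (z : ℂ) : ℂ := 3/2 + (I / π) * ((Real.log (4 * π) : ℝ) - Lam z)

lemma Phi_fixed_iff {z : ℂ} (hz : z ∈ Om) : S z = 1 ↔ Phi z = z := by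
  have hpi := Real.pi_pos
  have hpi3 := Real.pi_gt_d4
  have hpi' : (π:ℂ) ≠ 0 := by exact_mod_cast Real.pi_ne_zero
  set Y := (-(π * I * z) + Lam z - (Real.log (4 * π) : ℝ) - π / 2 * I) with hY
  have hP : Phi z - z = (-I / π) * (Y + 2 * π * I) := by
    rw [hY]; unfold Phi
    field_simp
    ring_nf
    rw [Complex.I_sq]
    ring
  rw [S_log hz, Complex.exp_eq_one_iff]
  constructor
  · rintro ⟨n, hn⟩
    have him : Y.im = 2 * π * n := by
      rw [hY, hn]; simp; ring
    have him2 : Y.im = -(π * z.re) + (Lam z).im - π / 2 := by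
      rw [hY]; simp
    have hb := Lam_im_bounds hz
    have hr1 := hz.1
    have hr2 := hz.2.1
    have hn1 : n < 0 := by
      by_contra hcon
      push Not at hcon
      have : (0:ℝ) ≤ n := by exact_mod_cast hcon
      nlinarith
    have hn2 : -2 < n := by
      by_contra hcon
      push Not at hcon
      have : (n:ℝ) ≤ -2 := by exact_mod_cast hcon
      nlinarith
    have hn3 : n = -1 := by omega
    have : Y = -(2 * π * I) := by rw [hY, hn, hn3]; push_cast; ring
    rw [this] at hP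
    rw [← sub_eq_zero, hP]; ring
  · intro h
    rw [h, sub_self] at hP
    refine ⟨-1, ?_⟩
    have hI : (-I / (π:ℂ)) ≠ 0 := div_ne_zero (neg_ne_zero.mpr Complex.I_ne_zero) hpi'
    have := (mul_eq_zero.mp hP.symm).resolve_left hI
    push_cast
    linear_combination this

lemma Phi_lip {x y : ℂ} (hx : x ∈ Om) (hy : y ∈ Om) : ‖Phi y - Phi x‖ ≤ 0.57 * ‖y - x‖ := by
  have hpi := Real.pi_pos
  have hpi3 := Real.pi_gt_d4
  have : Phi y - Phi x = (-I / π) * (Lam y - Lam x) := by unfold Phi; ring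
  rw [this, norm_mul, norm_div, norm_neg, Complex.norm_I, Complex.norm_real, Real.norm_of_nonneg hpi.le]
  have h := Lam_lip hx hy
  rw [div_mul_eq_mul_div, one_mul, div_le_iff₀ hpi]
  have h0 := norm_nonneg (y - x)
  nlinarith

lemma Phi_unique {x y : ℂ} (hx : x ∈ Om) (hy : y ∈ Om) (h1 : Phi x = x) (h2 : Phi y = y) : x = y := by
  have h := Phi_lip hx hy
  rw [h1, h2] at h
  have h0 := norm_nonneg (y - x)
  have : ‖y - x‖ = 0 := by nlinarith
  rw [norm_eq_zero, sub_eq_zero] at this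
  exact this.symm

end Pool.Agent.Hhelper92.Ortho
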